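import Mathlib

/-!
# Cram on general boards: the abstract game of a forest hanging at a vertex

`F` is the type of (rooted, ordered) forests.  A forest hangs at a vertex `v` of some graph: `v` is
joined to the roots.  A move of Cram (Arc Kayles) removes two adjacent vertices.
-/

namespace Pool.Agent.CramNC

/-- `a` is the minimal excluded value of the set of values `P`. -/
def IsMex (a : ℕ) (P : ℕ → Prop) : Prop := ¬ P a ∧ ∀ i < a, P i

theorem IsMex.unique {a b : ℕ} {P : ℕ → Prop} (ha : IsMex a P) (hb : IsMex b P) : a = b := by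
  rcases lt_trichotomy a b with h | h | h
  · exact absurd (hb.2 a h) ha.1
  · exact h
  · exact absurd (ha.2 b h) hb.1

theorem IsMex.congr {a : ℕ} {P Q : ℕ → Prop} (ha : IsMex a P) (h : ∀ x, P x ↔ Q x) : IsMex a Q :=
  ⟨fun hq => ha.1 ((h a).2 hq), fun i hi => (h i).1 (ha.2 i hi)⟩

theorem IsMex.unique' {a b : ℕ} {P Q : ℕ → Prop} (ha : IsMex a P) (hb : IsMex b Q)
    (h : ∀ x, P x ↔ Q x) : a = b := (ha.congr h).unique hb

/-- the minimal excluded value of a list -/
noncomputable def mexL (l : List ℕ) : ℕ := sInf {n | n ∉ l}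

theorem mexL_isMex (l : List ℕ) : IsMex (mexL l) (· ∈ l) := by
  have hne : ({n | n ∉ l} : Set ℕ).Nonempty := by
    have hf : (l.toFinset : Set ℕ).Finite := Finset.finite_toSet _
    obtain ⟨n, hn⟩ := hf.exists_notMem
    exact ⟨n, by simpa using hn⟩
  refine ⟨Nat.sInf_mem hne, fun i hi => ?_⟩
  by_contra hcon
  exact absurd (Nat.sInf_le (s := {n | n ∉ l}) hcon) (not_le.2 hi)

/-- Rooted forests: `nil` is empty, `up a` is one tree whose root has the forest `a` of children,
`app a b` is the union. -/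
inductive F : Type
  | nil : F
  | up : F → F
  | app : F → F → F
  deriving DecidableEq

namespace F

/-- a weight for recursions -/
def w : F → ℕ
  | nil => 0
  | up a => w a + 1
  | app a b => w a + w b + 1

/-- what is left over (separated from `v`) when `v` is matched with a root -/
def vmS : F → List F
  | nil => []
  | up a => [a]
  | app a b => (vmS a).map (fun m => app m b) ++ (vmS b).map (fun m => app a m)

/-- the moves inside the forest: (what still hangs at `v`, what is separated from `v`) -/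
def optS : F → List (F × F)
  | nil => []
  | up a => (vmS a).map (fun m => (nil, m)) ++ (optS a).map (fun p => (up p.1, p.2))
  | app a b => (optS a).map (fun p => (app p.1 b, p.2)) ++ (optS b).map (fun p => (app a p.1, p.2))

theorem w_vmS : ∀ (f : F), ∀ m ∈ vmS f, w m < w f := by
  intro f
  induction f with
  | nil => simp [vmS]
  | up a ih => simp [vmS, w]
  | app a b iha ihb =>
    intro m hm
    simp only [vmS, List.mem_append, List.mem_map] at hm
    rcases hm with ⟨x, hx, rfl⟩ | ⟨x, hx, rfl⟩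
    · have := iha x hx; simp only [w]; omega
    · have := ihb x hx; simp only [w]; omega

theorem w_optS : ∀ (f : F), ∀ p ∈ optS f, w p.1 < w f ∧ w p.2 < w f := by
  intro f
  induction f with
  | nil => simp [optS]
  | up a ih =>
    intro p hp
    simp only [optS, List.mem_append, List.mem_map] at hp
    rcases hp with ⟨x, hx, rfl⟩ | ⟨x, hx, rfl⟩
    · have := w_vmS a x hx; simp only [w]; omega
    · have := ih x hx; simp only [w]; omega
  | app a b iha ihb =>
    intro p hp
    simp only [optS, List.mem_append, List.mem_map] at hp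
    rcases hp with ⟨x, hx, rfl⟩ | ⟨x, hx, rfl⟩
    · have := iha x hx; simp only [w]; omega
    · have := ihb x hx; simp only [w]; omega

end F

open F

/-- the Grundy value of a forest (standing alone) -/
noncomputable def gF : F → ℕ
  | F.nil => 0
  | F.app a b => gF a ^^^ gF b
  | F.up a => mexL ((F.vmS a).attach.map (fun m => gF m.1) ++
      (F.optS a).attach.map (fun p => gF (F.up p.1.1) ^^^ gF p.1.2))
termination_by f => F.w f
decreasing_by
  · simp only [F.w]; omega
  · simp only [F.w]; omega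
  · have := F.w_vmS a m.1 m.2; simp only [F.w]; omega
  · have := F.w_optS a p.1 p.2; simp only [F.w]; omega
  · have := F.w_optS a p.1 p.2; simp only [F.w]; omega

/-- values after matching `v` with a root -/
noncomputable def vm (f : F) : List ℕ := (F.vmS f).map gF

/-- moves inside the forest: (what still hangs at `v`, value of what is separated from `v`) -/
noncomputable def opt (f : F) : List (F × ℕ) := (F.optS f).map (fun p => (p.1, gF p.2))

@[simp] theorem gF_nil : gF F.nil = 0 := by rw [gF]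

@[simp] theorem gF_app (a b : F) : gF (F.app a b) = gF a ^^^ gF b := by rw [gF]

theorem gF_up (a : F) : IsMex (gF (F.up a))
    (fun x => x ∈ vm a ∨ ∃ p ∈ opt a, x = gF (F.up p.1) ^^^ p.2) := by
  rw [gF]
  refine (mexL_isMex _).congr (fun x => ?_)
  simp only [List.mem_append, List.mem_map, List.mem_attach, true_and, Subtype.exists, vm, opt,
    exists_exists_and_eq_and]
  constructor
  · rintro (⟨a, ha, h⟩ | ⟨p, hp, h⟩)
    · exact Or.inl ⟨a, ha, h⟩
    · exact Or.inr ⟨p, hp, h.symm⟩
  · rintro (⟨a, ha, h⟩ | ⟨p, hp, h⟩)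
    · exact Or.inl ⟨a, ha, h⟩
    · exact Or.inr ⟨p, hp, h.symm⟩

theorem w_opt {f : F} {p : F × ℕ} (h : p ∈ opt f) : F.w p.1 < F.w f := by
  simp only [opt, List.mem_map] at h
  obtain ⟨q, hq, rfl⟩ := h
  exact (F.w_optS f q hq).1

@[simp] theorem vm_nil (x : ℕ) : x ∈ vm F.nil ↔ False := by simp [vm, F.vmS]

@[simp] theorem vm_up (a : F) (x : ℕ) : x ∈ vm (F.up a) ↔ x = gF a := by
  simp [vm, F.vmS, eq_comm]

theorem vm_app (a b : F) (x : ℕ) : x ∈ vm (F.app a b) ↔
    (∃ m ∈ vm a, x = m ^^^ gF b) ∨ (∃ m ∈ vm b, x = gF a ^^^ m) := by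
  simp only [vm, F.vmS, List.map_append, List.map_map, List.mem_append, List.mem_map,
    Function.comp_apply, gF_app, exists_exists_and_eq_and]
  constructor
  · rintro (⟨y, hy, h⟩ | ⟨y, hy, h⟩)
    · exact Or.inl ⟨y, hy, h.symm⟩
    · exact Or.inr ⟨y, hy, h.symm⟩
  · rintro (⟨y, hy, h⟩ | ⟨y, hy, h⟩)
    · exact Or.inl ⟨y, hy, h.symm⟩
    · exact Or.inr ⟨y, hy, h.symm⟩

@[simp] theorem opt_nil (p : F × ℕ) : p ∈ opt F.nil ↔ False := by simp [opt, F.optS]

theorem opt_up (a : F) (p : F × ℕ) : p ∈ opt (F.up a) ↔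
    (∃ m ∈ vm a, p = (F.nil, m)) ∨ (∃ q ∈ opt a, p = (F.up q.1, q.2)) := by
  simp only [opt, vm, F.optS, List.map_append, List.map_map, List.mem_append, List.mem_map,
    Function.comp_apply, exists_exists_and_eq_and]
  constructor
  · rintro (⟨y, hy, h⟩ | ⟨y, hy, h⟩)
    · exact Or.inl ⟨y, hy, h.symm⟩
    · exact Or.inr ⟨y, hy, h.symm⟩
  · rintro (⟨y, hy, h⟩ | ⟨y, hy, h⟩)
    · exact Or.inl ⟨y, hy, h.symm⟩
    · exact Or.inr ⟨y, hy, h.symm⟩

theorem opt_app (a b : F) (p : F × ℕ) : p ∈ opt (F.app a b) ↔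
    (∃ q ∈ opt a, p = (F.app q.1 b, q.2)) ∨ (∃ q ∈ opt b, p = (F.app a q.1, q.2)) := by
  simp only [opt, F.optS, List.map_append, List.map_map, List.mem_append, List.mem_map,
    Function.comp_apply, exists_exists_and_eq_and]
  constructor
  · rintro (⟨y, hy, h⟩ | ⟨y, hy, h⟩)
    · exact Or.inl ⟨y, hy, h.symm⟩
    · exact Or.inr ⟨y, hy, h.symm⟩
  · rintro (⟨y, hy, h⟩ | ⟨y, hy, h⟩)
    · exact Or.inl ⟨y, hy, h.symm⟩
    · exact Or.inr ⟨y, hy, h.symm⟩

/-- A *context*: the value, as a function of the forest `f` hanging at `v`, of a position in which a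
graph `C` contains `v`.  `stay`: moves in `C` that leave `v` (another context, and the value of a
separated part); `rem`: moves in `C` that use `v`; `alone`: the value of `C` without `v`. -/
inductive IsCtx : (F → ℕ) → Prop
  | mk (φ : F → ℕ) (stay : Set ((F → ℕ) × ℕ)) (rem : Set ℕ) (alone : ℕ)
      (h : ∀ p ∈ stay, IsCtx p.1)
      (hφ : ∀ f, IsMex (φ f) (fun x => (∃ p ∈ stay, x = p.1 f ^^^ p.2) ∨
        (∃ r ∈ rem, x = r ^^^ gF f) ∨ (∃ m ∈ vm f, x = alone ^^^ m) ∨
        (∃ p ∈ opt f, x = φ p.1 ^^^ p.2))) : IsCtx φ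

/-- `f` and `f'` are interchangeable up to the offset `n` in every context. -/
def Eqv (f f' : F) (n : ℕ) : Prop :=
  gF f = gF f' ^^^ n ∧ ∀ φ, IsCtx φ → φ f = φ f' ^^^ n

end Pool.Agent.CramNC
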