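import Pool.Agent.CramNC.Base

/-!
# Cram on finite boards of the square grid

Plan.  `firstWins_iff`: strong induction on `S.card`, `rw [FirstWins]`, `g_isMex`:
`g S ≠ 0` iff `0` is the value of an option (`IsMex`: if `g S > 0` then `0 < g S` is an option value;
if `g S = 0`, no option has value 0).
`g_union`: strong induction on `(A ∪ B).card` (or `A.card + B.card`): `IsMex.unique (g_isMex _)`;
(1) no option of `A ∪ B` has value `g A ^^^ g B`: `p, q` lie both in `A` or both in `B` (no cross
adjacency, `Adj.symm`); if both in `A`, `((A ∪ B).erase p).erase q = ((A.erase p).erase q) ∪ B`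
(`Disjoint`), IH, and `g ((A.erase p).erase q) ≠ g A` by `(g_isMex A).1`.
(2) for `i < g A ^^^ g B` use `Nat.lt_xor_cases`: `i ^^^ g B < g A` gives an option of `A` with this
value, or `i ^^^ g A < g B` one of `B`.
-/

namespace Pool.Agent.CramNC

/-- A cell of the square grid. -/
abbrev Cell := ℤ × ℤ

/-- Two cells are edge-adjacent. -/
def Adj (p q : Cell) : Prop := |p.1 - q.1| + |p.2 - q.2| = 1

instance : DecidableRel Adj := fun p q => by unfold Adj; infer_instance

theorem Adj.symm {p q : Cell} (h : Adj p q) : Adj q p := by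
  unfold Adj at *
  rw [abs_sub_comm q.1, abs_sub_comm q.2]; exact h

theorem Adj.ne {p q : Cell} (h : Adj p q) : p ≠ q := by
  rintro rfl
  simp [Adj] at h

/-- **Cram**, normal play: the player to move wins on the board `B` iff he can place a domino on two
adjacent cells `p`, `q` of `B` such that the player to move loses on the rest. -/
def FirstWins (B : Finset Cell) : Prop :=
  ∃ p : {p // p ∈ B}, ∃ q : {q // q ∈ B}, Adj p.1 q.1 ∧ ¬ FirstWins ((B.erase p.1).erase q.1)
termination_by B.card
decreasing_by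
  have h1 := Finset.card_erase_lt_of_mem p.2
  have h2 := Finset.card_erase_le (s := B.erase p.1) (a := q.1)
  omega

/-- the possible moves -/
def moves (S : Finset Cell) : Finset (Cell × Cell) :=
  (S ×ˢ S).filter (fun pq => Adj pq.1 pq.2)

theorem mem_moves {S : Finset Cell} {pq : Cell × Cell} :
    pq ∈ moves S ↔ pq.1 ∈ S ∧ pq.2 ∈ S ∧ Adj pq.1 pq.2 := by
  simp [moves, and_assoc]

/-- Grundy value of a board -/
noncomputable def g (S : Finset Cell) : ℕ :=
  mexL ((moves S).attach.toList.map (fun pq => g ((S.erase pq.1.1).erase pq.1.2)))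
termination_by S.card
decreasing_by
  have h0 := mem_moves.1 pq.2
  have h1 := Finset.card_erase_lt_of_mem h0.1
  have h2 := Finset.card_erase_le (s := S.erase pq.1.1) (a := pq.1.2)
  omega

theorem g_isMex (S : Finset Cell) :
    IsMex (g S) (fun x => ∃ p ∈ S, ∃ q ∈ S, Adj p q ∧ x = g ((S.erase p).erase q)) := by
  rw [g]
  refine (mexL_isMex _).congr (fun x => ?_)
  simp only [List.mem_map, Finset.mem_toList, Finset.mem_attach, true_and, Subtype.exists]
  constructor
  · rintro ⟨pq, hpq, h⟩
    obtain ⟨h1, h2, h3⟩ := mem_moves.1 hpq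
    exact ⟨pq.1, h1, pq.2, h2, h3, h.symm⟩
  · rintro ⟨p, hp, q, hq, ha, h⟩
    exact ⟨(p, q), mem_moves.2 ⟨hp, hq, ha⟩, h.symm⟩

private theorem card_lt {S : Finset Cell} {p q : Cell} (hp : p ∈ S) :
    ((S.erase p).erase q).card < S.card :=
  lt_of_le_of_lt Finset.card_erase_le (Finset.card_erase_lt_of_mem hp)

theorem firstWins_iff (S : Finset Cell) : FirstWins S ↔ g S ≠ 0 := by
  induction' hn : S.card using Nat.strong_induction_on with n ih generalizing S
  subst hn
  rw [FirstWins]
  have hm := g_isMex S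
  constructor
  · rintro ⟨p, q, hA, hN⟩ h0
    rw [ih _ (card_lt p.2) _ rfl] at hN
    rw [h0] at hm
    exact hm.1 ⟨p.1, p.2, q.1, q.2, hA, (not_not.1 hN).symm⟩
  · intro h0
    obtain ⟨p, hp, q, hq, hA, hx⟩ := hm.2 0 (Nat.pos_of_ne_zero h0)
    refine ⟨⟨p, hp⟩, ⟨q, hq⟩, hA, ?_⟩
    rw [ih _ (card_lt hp) _ rfl]
    exact not_not.2 hx.symm

@[simp] theorem g_empty : g ∅ = 0 := by
  refine (g_isMex ∅).unique ⟨?_, fun i hi => absurd hi (Nat.not_lt_zero i)⟩
  rintro ⟨p, hp, _⟩
  exact absurd hp (Finset.notMem_empty p)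

/-- value of a sum of two boards -/
theorem g_union {A B : Finset Cell} (hd : Disjoint A B) (h : ∀ a ∈ A, ∀ b ∈ B, ¬ Adj a b) :
    g (A ∪ B) = g A ^^^ g B := by
  induction' hn : A.card + B.card using Nat.strong_induction_on with n ih generalizing A B
  subst hn
  have hA : ∀ p ∈ A, ∀ q ∈ A,
      g (((A ∪ B).erase p).erase q) = g ((A.erase p).erase q) ^^^ g B := by
    intro p hp q hq
    have hpB : p ∉ B := Finset.disjoint_left.1 hd hp
    have hqB : q ∉ B := Finset.disjoint_left.1 hd hq
    have e : ((A ∪ B).erase p).erase q = ((A.erase p).erase q) ∪ B := by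
      rw [Finset.erase_union_distrib, Finset.erase_union_distrib,
        Finset.erase_eq_of_notMem hpB, Finset.erase_eq_of_notMem hqB]
    rw [e]
    refine ih _ ?_ ?_ ?_ rfl
    · have := card_lt (q := q) hp
      omega
    · exact hd.mono_left ((Finset.erase_subset _ _).trans (Finset.erase_subset _ _))
    · intro a ha b hb
      exact h a (Finset.mem_of_mem_erase (Finset.mem_of_mem_erase ha)) b hb
  have hB : ∀ p ∈ B, ∀ q ∈ B,
      g (((A ∪ B).erase p).erase q) = g A ^^^ g ((B.erase p).erase q) := by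
    intro p hp q hq
    have hpA : p ∉ A := Finset.disjoint_right.1 hd hp
    have hqA : q ∉ A := Finset.disjoint_right.1 hd hq
    have e : ((A ∪ B).erase p).erase q = A ∪ ((B.erase p).erase q) := by
      rw [Finset.erase_union_distrib, Finset.erase_union_distrib,
        Finset.erase_eq_of_notMem hpA, Finset.erase_eq_of_notMem hqA]
    rw [e]
    refine ih _ ?_ ?_ ?_ rfl
    · have := card_lt (q := q) hp
      omega
    · exact hd.mono_right ((Finset.erase_subset _ _).trans (Finset.erase_subset _ _))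
    · intro a ha b hb
      exact h a ha b (Finset.mem_of_mem_erase (Finset.mem_of_mem_erase hb))
  refine (g_isMex _).unique ⟨?_, ?_⟩
  · rintro ⟨p, hp, q, hq, hpq, hx⟩
    rw [Finset.mem_union] at hp hq
    rcases hp with hp | hp <;> rcases hq with hq | hq
    · rw [hA p hp q hq] at hx
      exact (g_isMex A).1 ⟨p, hp, q, hq, hpq, Nat.xor_left_inj.1 hx⟩
    · exact h p hp q hq hpq
    · exact h q hq p hp hpq.symm
    · rw [hB p hp q hq] at hx
      exact (g_isMex B).1 ⟨p, hp, q, hq, hpq, Nat.xor_right_inj.1 hx⟩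
  · intro i hi
    rcases Nat.lt_xor_cases hi with h1 | h1
    · obtain ⟨p, hp, q, hq, hpq, hx⟩ := (g_isMex A).2 _ h1
      refine ⟨p, Finset.mem_union_left _ hp, q, Finset.mem_union_left _ hq, hpq, ?_⟩
      rw [hA p hp q hq, ← hx, Nat.xor_assoc, Nat.xor_self, Nat.xor_zero]
    · obtain ⟨p, hp, q, hq, hpq, hx⟩ := (g_isMex B).2 _ h1
      refine ⟨p, Finset.mem_union_right _ hp, q, Finset.mem_union_right _ hq, hpq, ?_⟩
      rw [hB p hp q hq, ← hx, Nat.xor_comm i, ← Nat.xor_assoc, Nat.xor_self, Nat.zero_xor]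

end Pool.Agent.CramNC
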