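import Pool.Agent.CramNC.Base

/-!
# Closure of contexts, and the equivalence `Eqv`

Plan.
* `isCtx_gF`: `IsCtx.mk _ ∅ ∅ 0` and `gF_up` (with `0 ^^^ m = m`); `∅`-cases are `False`.
* `isCtx_up` by induction on `h` (`induction h with | mk φ stay rem alone h hφ ih`).  The new context
  `ψ f = φ (up f)` has
  stay' = {(fun f => p.1 (up f), p.2) | p ∈ stay} ∪ {(fun f => gF (up f), r) | r ∈ rem},
  rem' = {alone}, alone' = φ nil.
  Use `(hφ (up f)).congr`, `gF (up f)` for the `rem` case, `vm_up`, `opt_up`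
  (the option `(nil, m)`, `m ∈ vm f`, gives `φ nil ^^^ m`), `isCtx_gF`, `Nat.xor_comm`.
* `isCtx_appR` (context `ψ f = φ (app a f)`): strong induction on `F.w a` for the statement
  `∀ φ, IsCtx φ → IsCtx (fun f => φ (app a f))`, and inside induction on `IsCtx φ` (keep the IH on `a`
  general in `φ`).  stay' = {(p.1 (app a ·), p.2) | p ∈ stay} ∪ {(φ (app q.1 ·), q.2) | q ∈ opt a}
  (`w_opt` for the IH), rem' = {r ^^^ gF a | r ∈ rem} ∪ {alone ^^^ m | m ∈ vm a},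
  alone' = alone ^^^ gF a; `vm_app`, `opt_app`, `gF_app`, associativity/commutativity of xor.
* `isCtx_appL` in the same way.
* `Eqv.*`: `refl`: `Nat.xor_zero`; `symm`, `trans`: xor algebra; `up`: `gF`-part is `h.2 _ isCtx_gF`,
  the rest `h.2 _ (isCtx_up hφ)`; `appL`/`appR`: `gF_app` and `isCtx_appL/R`.
* `Eqv.nil_app`: `gF` part simp.  For `φ`: induction on `IsCtx φ`, then strong induction on `F.w f`:
  `IsMex.unique'` applied to `hφ (app nil f)` and `hφ f`; `stay` by the outer IH, `gF (app nil f) = gF f`,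
  `vm (app nil f)` and `vm f` have the same members, the options are `(app nil q.1, q.2)`, `q ∈ opt f`
  (inner IH, `w_opt`).
-/

namespace Pool.Agent.CramNC

/-- `gF ∘ up` is the context consisting of `v` alone. -/
theorem isCtx_gF : IsCtx (fun f => gF (F.up f)) := by
  refine IsCtx.mk _ ∅ ∅ 0 (fun p hp => absurd hp (Set.notMem_empty p)) (fun f => ?_)
  refine (gF_up f).congr (fun x => ?_)
  simp

theorem isCtx_up {φ : F → ℕ} (h : IsCtx φ) : IsCtx (fun f => φ (F.up f)) := by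
  induction h with
  | mk φ stay rem alone h hφ ih =>
    refine IsCtx.mk _ ({x | ∃ p ∈ stay, x = ((fun f => p.1 (F.up f)), p.2)} ∪
      {x | ∃ r ∈ rem, x = ((fun f => gF (F.up f)), r)}) {alone} (φ F.nil) ?_ (fun f => ?_)
    · rintro x (⟨p, hp, rfl⟩ | ⟨r, hr, rfl⟩)
      · exact ih p hp
      · exact isCtx_gF
    · refine (hφ (F.up f)).congr (fun x => ?_)
      constructor
      · rintro (⟨p, hp, rfl⟩ | ⟨r, hr, rfl⟩ | ⟨m, hm, rfl⟩ | ⟨q, hq, rfl⟩)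
        · exact Or.inl ⟨((fun f => p.1 (F.up f)), p.2), Or.inl ⟨p, hp, rfl⟩, rfl⟩
        · exact Or.inl ⟨((fun f => gF (F.up f)), r), Or.inr ⟨r, hr, rfl⟩, Nat.xor_comm _ _⟩
        · rw [vm_up] at hm
          subst hm
          exact Or.inr (Or.inl ⟨alone, rfl, rfl⟩)
        · rcases (opt_up f q).1 hq with ⟨m, hm, rfl⟩ | ⟨t, ht, rfl⟩
          · exact Or.inr (Or.inr (Or.inl ⟨m, hm, rfl⟩))
          · exact Or.inr (Or.inr (Or.inr ⟨t, ht, rfl⟩))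
      · rintro (⟨y, (⟨p, hp, rfl⟩ | ⟨r, hr, rfl⟩), rfl⟩ | ⟨r, hr, rfl⟩ | ⟨m, hm, rfl⟩ | ⟨t, ht, rfl⟩)
        · exact Or.inl ⟨p, hp, rfl⟩
        · exact Or.inr (Or.inl ⟨r, hr, Nat.xor_comm _ _⟩)
        · have hr' : r = alone := hr
          subst hr'
          exact Or.inr (Or.inr (Or.inl ⟨gF f, (vm_up f _).2 rfl, rfl⟩))
        · exact Or.inr (Or.inr (Or.inr ⟨(F.nil, m), (opt_up f _).2 (Or.inl ⟨m, hm, rfl⟩), rfl⟩))
        · exact Or.inr (Or.inr (Or.inr ⟨(F.up t.1, t.2), (opt_up f _).2 (Or.inr ⟨t, ht, rfl⟩), rfl⟩))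

private theorem isCtx_appR_aux : ∀ (n : ℕ) (a : F), F.w a ≤ n → ∀ {φ : F → ℕ}, IsCtx φ →
    IsCtx (fun f => φ (F.app a f)) := by
  intro n
  induction n using Nat.strong_induction_on with
  | _ n IH =>
    intro a ha φ h
    induction h with
    | mk φ stay rem alone h hφ ih =>
      have hφc : IsCtx φ := IsCtx.mk φ stay rem alone h hφ
      refine IsCtx.mk _ ({x | ∃ p ∈ stay, x = ((fun f => p.1 (F.app a f)), p.2)} ∪
        {x | ∃ q ∈ opt a, x = ((fun f => φ (F.app q.1 f)), q.2)})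
        ({x | ∃ r ∈ rem, x = r ^^^ gF a} ∪ {x | ∃ m ∈ vm a, x = alone ^^^ m}) (alone ^^^ gF a) ?_ (fun f => ?_)
      · rintro x (⟨p, hp, rfl⟩ | ⟨q, hq, rfl⟩)
        · exact ih p hp
        · have hw := w_opt hq
          exact IH (F.w q.1) (by omega) q.1 le_rfl hφc
      · refine (hφ (F.app a f)).congr (fun x => ?_)
        constructor
        · rintro (⟨p, hp, rfl⟩ | ⟨r, hr, rfl⟩ | ⟨m, hm, rfl⟩ | ⟨q, hq, rfl⟩)
          · exact Or.inl ⟨((fun f => p.1 (F.app a f)), p.2), Or.inl ⟨p, hp, rfl⟩, rfl⟩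
          · refine Or.inr (Or.inl ⟨r ^^^ gF a, Or.inl ⟨r, hr, rfl⟩, ?_⟩)
            rw [gF_app, Nat.xor_assoc]
          · rcases (vm_app a f m).1 hm with ⟨m', hm', rfl⟩ | ⟨m', hm', rfl⟩
            · exact Or.inr (Or.inl ⟨alone ^^^ m', Or.inr ⟨m', hm', rfl⟩, (Nat.xor_assoc _ _ _).symm⟩)
            · exact Or.inr (Or.inr (Or.inl ⟨m', hm', (Nat.xor_assoc _ _ _).symm⟩))
          · rcases (opt_app a f q).1 hq with ⟨t, ht, rfl⟩ | ⟨t, ht, rfl⟩
            · exact Or.inl ⟨((fun f => φ (F.app t.1 f)), t.2), Or.inr ⟨t, ht, rfl⟩, rfl⟩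
            · exact Or.inr (Or.inr (Or.inr ⟨t, ht, rfl⟩))
        · rintro (⟨y, (⟨p, hp, rfl⟩ | ⟨q, hq, rfl⟩), rfl⟩ | ⟨y, (⟨r, hr, rfl⟩ | ⟨m, hm, rfl⟩), rfl⟩ |
            ⟨m, hm, rfl⟩ | ⟨t, ht, rfl⟩)
          · exact Or.inl ⟨p, hp, rfl⟩
          · exact Or.inr (Or.inr (Or.inr ⟨(F.app q.1 f, q.2), (opt_app a f _).2 (Or.inl ⟨q, hq, rfl⟩), rfl⟩))
          · refine Or.inr (Or.inl ⟨r, hr, ?_⟩)
            rw [gF_app, Nat.xor_assoc]
          · exact Or.inr (Or.inr (Or.inl ⟨m ^^^ gF f, (vm_app a f _).2 (Or.inl ⟨m, hm, rfl⟩), Nat.xor_assoc _ _ _⟩))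
          · exact Or.inr (Or.inr (Or.inl ⟨gF a ^^^ m, (vm_app a f _).2 (Or.inr ⟨m, hm, rfl⟩), Nat.xor_assoc _ _ _⟩))
          · exact Or.inr (Or.inr (Or.inr ⟨(F.app a t.1, t.2), (opt_app a f _).2 (Or.inr ⟨t, ht, rfl⟩), rfl⟩))

private theorem isCtx_appL_aux : ∀ (n : ℕ) (b : F), F.w b ≤ n → ∀ {φ : F → ℕ}, IsCtx φ →
    IsCtx (fun f => φ (F.app f b)) := by
  intro n
  induction n using Nat.strong_induction_on with
  | _ n IH =>
    intro b hb φ h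
    induction h with
    | mk φ stay rem alone h hφ ih =>
      have hφc : IsCtx φ := IsCtx.mk φ stay rem alone h hφ
      refine IsCtx.mk _ ({x | ∃ p ∈ stay, x = ((fun f => p.1 (F.app f b)), p.2)} ∪
        {x | ∃ q ∈ opt b, x = ((fun f => φ (F.app f q.1)), q.2)})
        ({x | ∃ r ∈ rem, x = r ^^^ gF b} ∪ {x | ∃ m ∈ vm b, x = alone ^^^ m}) (alone ^^^ gF b) ?_ (fun f => ?_)
      · rintro x (⟨p, hp, rfl⟩ | ⟨q, hq, rfl⟩)
        · exact ih p hp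
        · have hw := w_opt hq
          exact IH (F.w q.1) (by omega) q.1 le_rfl hφc
      · refine (hφ (F.app f b)).congr (fun x => ?_)
        constructor
        · rintro (⟨p, hp, rfl⟩ | ⟨r, hr, rfl⟩ | ⟨m, hm, rfl⟩ | ⟨q, hq, rfl⟩)
          · exact Or.inl ⟨((fun f => p.1 (F.app f b)), p.2), Or.inl ⟨p, hp, rfl⟩, rfl⟩
          · refine Or.inr (Or.inl ⟨r ^^^ gF b, Or.inl ⟨r, hr, rfl⟩, ?_⟩)
            rw [gF_app, Nat.xor_assoc, Nat.xor_comm (gF b)]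
          · rcases (vm_app f b m).1 hm with ⟨m', hm', rfl⟩ | ⟨m', hm', rfl⟩
            · refine Or.inr (Or.inr (Or.inl ⟨m', hm', ?_⟩))
              rw [Nat.xor_assoc, Nat.xor_comm (gF b)]
            · refine Or.inr (Or.inl ⟨alone ^^^ m', Or.inr ⟨m', hm', rfl⟩, ?_⟩)
              rw [Nat.xor_assoc, Nat.xor_comm m']
          · rcases (opt_app f b q).1 hq with ⟨t, ht, rfl⟩ | ⟨t, ht, rfl⟩
            · exact Or.inr (Or.inr (Or.inr ⟨t, ht, rfl⟩))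
            · exact Or.inl ⟨((fun f => φ (F.app f t.1)), t.2), Or.inr ⟨t, ht, rfl⟩, rfl⟩
        · rintro (⟨y, (⟨p, hp, rfl⟩ | ⟨q, hq, rfl⟩), rfl⟩ | ⟨y, (⟨r, hr, rfl⟩ | ⟨m, hm, rfl⟩), rfl⟩ |
            ⟨m, hm, rfl⟩ | ⟨t, ht, rfl⟩)
          · exact Or.inl ⟨p, hp, rfl⟩
          · exact Or.inr (Or.inr (Or.inr ⟨(F.app f q.1, q.2), (opt_app f b _).2 (Or.inr ⟨q, hq, rfl⟩), rfl⟩))
          · refine Or.inr (Or.inl ⟨r, hr, ?_⟩)
            rw [gF_app, Nat.xor_assoc, Nat.xor_comm (gF b)]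
          · refine Or.inr (Or.inr (Or.inl ⟨gF f ^^^ m, (vm_app f b _).2 (Or.inr ⟨m, hm, rfl⟩), ?_⟩))
            rw [Nat.xor_assoc, Nat.xor_comm m]
          · refine Or.inr (Or.inr (Or.inl ⟨m ^^^ gF b, (vm_app f b _).2 (Or.inl ⟨m, hm, rfl⟩), ?_⟩))
            rw [Nat.xor_assoc, Nat.xor_comm (gF b)]
          · exact Or.inr (Or.inr (Or.inr ⟨(F.app t.1 b, t.2), (opt_app f b _).2 (Or.inl ⟨t, ht, rfl⟩), rfl⟩))

theorem isCtx_appL {φ : F → ℕ} (h : IsCtx φ) (b : F) : IsCtx (fun f => φ (F.app f b)) :=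
  isCtx_appL_aux _ b le_rfl h

theorem isCtx_appR {φ : F → ℕ} (h : IsCtx φ) (a : F) : IsCtx (fun f => φ (F.app a f)) :=
  isCtx_appR_aux _ a le_rfl h

theorem Eqv.refl (f : F) : Eqv f f 0 :=
  ⟨(Nat.xor_zero _).symm, fun φ _ => (Nat.xor_zero _).symm⟩

private theorem xor_swap {a b n : ℕ} (h : a = b ^^^ n) : b = a ^^^ n := by
  rw [h, Nat.xor_assoc, Nat.xor_self, Nat.xor_zero]

theorem Eqv.symm {f f' : F} {n : ℕ} (h : Eqv f f' n) : Eqv f' f n :=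
  ⟨xor_swap h.1, fun φ hφ => xor_swap (h.2 φ hφ)⟩

private theorem xor_trans {a b c n m : ℕ} (h : a = b ^^^ n) (h' : b = c ^^^ m) : a = c ^^^ (n ^^^ m) := by
  rw [h, h', Nat.xor_assoc, Nat.xor_comm m n]

theorem Eqv.trans {f f' f'' : F} {n m : ℕ} (h : Eqv f f' n) (h' : Eqv f' f'' m) :
    Eqv f f'' (n ^^^ m) :=
  ⟨xor_trans h.1 h'.1, fun φ hφ => xor_trans (h.2 φ hφ) (h'.2 φ hφ)⟩

theorem Eqv.up {f f' : F} {n : ℕ} (h : Eqv f f' n) : Eqv (F.up f) (F.up f') n :=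
  ⟨h.2 _ isCtx_gF, fun _ hφ => h.2 _ (isCtx_up hφ)⟩

theorem Eqv.appL {f f' : F} {n : ℕ} (h : Eqv f f' n) (b : F) :
    Eqv (F.app f b) (F.app f' b) n := by
  refine ⟨?_, fun _ hφ => h.2 _ (isCtx_appL hφ b)⟩
  rw [gF_app, gF_app, h.1, Nat.xor_assoc, Nat.xor_assoc, Nat.xor_comm n]

theorem Eqv.appR {f f' : F} {n : ℕ} (h : Eqv f f' n) (a : F) :
    Eqv (F.app a f) (F.app a f') n := by
  refine ⟨?_, fun _ hφ => h.2 _ (isCtx_appR hφ a)⟩
  rw [gF_app, gF_app, h.1, Nat.xor_assoc]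

private theorem nil_app_aux {φ : F → ℕ} (h : IsCtx φ) : ∀ f, φ (F.app F.nil f) = φ f := by
  induction h with
  | mk φ stay rem alone h hφ ih =>
    have key : ∀ (n : ℕ) (f : F), F.w f ≤ n → φ (F.app F.nil f) = φ f := by
      intro n
      induction n using Nat.strong_induction_on with
      | _ n IH =>
        intro f hf
        refine IsMex.unique' (hφ (F.app F.nil f)) (hφ f) (fun x => ?_)
        have hopt : ∀ q ∈ opt f, φ (F.app F.nil q.1) = φ q.1 := by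
          intro q hq
          have hw := w_opt hq
          exact IH (F.w q.1) (by omega) q.1 le_rfl
        constructor
        · rintro (⟨p, hp, rfl⟩ | ⟨r, hr, rfl⟩ | ⟨m, hm, rfl⟩ | ⟨q, hq, rfl⟩)
          · exact Or.inl ⟨p, hp, by rw [ih p hp f]⟩
          · exact Or.inr (Or.inl ⟨r, hr, by rw [gF_app, gF_nil, Nat.zero_xor]⟩)
          · rcases (vm_app F.nil f m).1 hm with ⟨m', hm', rfl⟩ | ⟨m', hm', rfl⟩
            · exact absurd ((vm_nil m').1 hm') id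
            · exact Or.inr (Or.inr (Or.inl ⟨m', hm', by rw [gF_nil, Nat.zero_xor]⟩))
          · rcases (opt_app F.nil f q).1 hq with ⟨t, ht, rfl⟩ | ⟨t, ht, rfl⟩
            · exact absurd ((opt_nil t).1 ht) id
            · exact Or.inr (Or.inr (Or.inr ⟨t, ht, by rw [hopt t ht]⟩))
        · rintro (⟨p, hp, rfl⟩ | ⟨r, hr, rfl⟩ | ⟨m, hm, rfl⟩ | ⟨t, ht, rfl⟩)
          · exact Or.inl ⟨p, hp, by rw [ih p hp f]⟩
          · exact Or.inr (Or.inl ⟨r, hr, by rw [gF_app, gF_nil, Nat.zero_xor]⟩)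
          · exact Or.inr (Or.inr (Or.inl ⟨gF F.nil ^^^ m, (vm_app F.nil f _).2 (Or.inr ⟨m, hm, rfl⟩),
              by rw [gF_nil, Nat.zero_xor]⟩))
          · exact Or.inr (Or.inr (Or.inr ⟨(F.app F.nil t.1, t.2), (opt_app F.nil f _).2 (Or.inr ⟨t, ht, rfl⟩),
              by rw [hopt t ht]⟩))
    exact fun f => key _ f le_rfl

theorem Eqv.nil_app (f : F) : Eqv (F.app F.nil f) f 0 := by
  refine ⟨?_, fun φ hφ => ?_⟩
  · rw [gF_app, gF_nil, Nat.zero_xor, Nat.xor_zero]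
  · rw [nil_app_aux hφ f, Nat.xor_zero]

end Pool.Agent.CramNC
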