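import Pool.Agent.CramNC.TableEv

/-!
# The class table (133 classes, 181 entries) and the gate identities
-/

namespace Pool.Agent.CramNC

def clsTable : List Dsc :=
  [⟨0, 0, [], [], []⟩,
   ⟨1, 0, [0], [], [0]⟩,
   ⟨1, 1, [0], [(0, 0)], [1]⟩,
   ⟨2, 1, [1], [(0, 0), (1, 0)], [2]⟩,
   ⟨0, 2, [1], [(0, 1), (1, 0), (2, 0)], [3]⟩,
   ⟨3, 0, [2], [(0, 1), (1, 1), (2, 0), (3, 0)], [4]⟩,
   ⟨2, 1, [1, 0], [(1, 0)], [0, 1]⟩,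
   ⟨3, 2, [2, 1], [(1, 1), (1, 0), (6, 0)], [0, 3]⟩,
   ⟨1, 3, [3, 0], [(1, 2), (1, 1), (6, 1), (7, 0)], [0, 5]⟩,
   ⟨2, 2, [1], [(0, 1), (0, 0), (2, 0)], [6]⟩,
   ⟨3, 3, [2], [(0, 2), (0, 1), (2, 1), (2, 0), (9, 0)], [7]⟩,
   ⟨1, 1, [3], [(0, 3), (0, 0), (2, 2), (2, 1), (9, 1), (10, 0)], [8]⟩,
   ⟨3, 2, [2], [(0, 1), (1, 1), (1, 0), (3, 0)], [9]⟩,
   ⟨1, 3, [3], [(0, 2), (1, 2), (1, 1), (3, 1), (3, 0), (12, 0)], [10]⟩,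
   ⟨4, 1, [1], [(0, 3), (1, 3), (1, 0), (3, 2), (3, 1), (12, 1), (13, 0)], [11]⟩,
   ⟨2, 3, [3], [(12, 0), (1, 2), (3, 1), (1, 0), (1, 1)], [2, 9]⟩,
   ⟨2, 0, [0], [(14, 0), (1, 1), (3, 3), (1, 2), (15, 1)], [2, 11]⟩,
   ⟨1, 0, [0, 2], [(1, 1), (6, 0)], [0, 4]⟩,
   ⟨1, 1, [0], [(0, 0), (0, 2), (2, 1), (9, 0)], [17]⟩,
   ⟨2, 1, [1], [(0, 0), (1, 0), (1, 2), (3, 1), (12, 0)], [18]⟩,
   ⟨3, 3, [2], [(0, 2), (1, 1), (2, 1), (2, 0), (4, 0)], [12]⟩,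
   ⟨2, 1, [3], [(0, 3), (1, 2), (2, 2), (2, 1), (4, 1), (4, 0), (20, 0)], [13]⟩,
   ⟨0, 4, [1], [(0, 1), (1, 3), (2, 3), (2, 0), (4, 2), (4, 1), (20, 1), (21, 0)], [14]⟩,
   ⟨2, 2, [3], [(0, 3), (20, 0), (2, 2), (4, 1), (2, 0), (2, 1)], [15]⟩,
   ⟨1, 2, [0], [(0, 0), (22, 0), (2, 1), (4, 3), (2, 2), (23, 1)], [16]⟩,
   ⟨2, 3, [3], [(1, 2), (6, 1), (1, 0), (1, 1), (17, 0)], [0, 20]⟩,
   ⟨3, 2, [2, 1], [(1, 3), (6, 2), (1, 0), (17, 1), (17, 0), (25, 0)], [0, 21]⟩,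
   ⟨2, 0, [0, 4], [(1, 1), (6, 3), (1, 2), (17, 2), (17, 1), (25, 1), (26, 0)], [0, 22]⟩,
   ⟨3, 2, [2], [(1, 3), (25, 0), (17, 1), (1, 1), (1, 0)], [0, 23]⟩,
   ⟨0, 1, [1, 2], [(1, 0), (27, 0), (17, 3), (1, 3), (28, 1)], [0, 24]⟩,
   ⟨2, 2, [3], [(0, 3), (2, 2), (9, 1), (2, 0), (2, 1), (18, 0)], [25]⟩,
   ⟨3, 3, [2], [(0, 2), (0, 1), (2, 3), (9, 2), (2, 0), (18, 1), (18, 0), (30, 0)], [26]⟩,
   ⟨2, 2, [0], [(0, 0), (0, 4), (2, 1), (9, 3), (2, 2), (18, 2), (18, 1), (30, 1), (31, 0)], [27]⟩,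
   ⟨3, 3, [2], [(0, 2), (2, 3), (30, 0), (18, 1), (2, 1), (2, 0)], [28]⟩,
   ⟨0, 0, [1], [(0, 1), (0, 2), (2, 0), (32, 0), (18, 3), (2, 3), (33, 1)], [29]⟩,
   ⟨4, 1, [1], [(13, 1), (1, 2), (1, 3), (12, 2), (1, 0), (15, 1), (15, 0)], [9, 10]⟩,
   ⟨6, 3, [3], [(14, 1), (1, 0), (1, 1), (16, 0), (12, 3), (1, 2), (15, 2), (15, 1), (35, 0)], [9, 11]⟩,
   ⟨2, 3, [3], [(12, 0), (1, 2), (1, 0), (15, 1), (19, 1), (1, 1)], [18, 9]⟩,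
   ⟨5, 0, [0], [(14, 0), (1, 1), (1, 3), (16, 1), (36, 0), (19, 3), (1, 2), (37, 1)], [18, 11]⟩,
   ⟨1, 2, [2], [(0, 3), (1, 3), (3, 2), (12, 1), (3, 0), (3, 1), (19, 0)], [30]⟩,
   ⟨1, 0, [0], [(12, 3), (1, 1), (15, 2), (15, 0), (15, 1), (37, 0), (39, 1), (1, 3), (1, 2)], [30, 9]⟩,
   ⟨1, 3, [3], [(14, 3), (1, 2), (16, 2), (36, 1), (16, 0), (16, 1), (38, 0), (39, 3), (1, 1), (40, 1)], [30, 11]⟩,
   ⟨4, 3, [3], [(0, 2), (1, 2), (1, 1), (3, 3), (12, 2), (3, 0), (19, 1), (19, 0), (39, 0)], [31]⟩,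
   ⟨0, 1, [1], [(12, 2), (1, 0), (1, 3), (15, 3), (1, 2), (15, 0), (37, 1), (37, 0), (40, 0), (42, 1)], [31, 9]⟩,
   ⟨0, 2, [2], [(14, 2), (1, 3), (1, 0), (16, 3), (36, 2), (16, 0), (38, 1), (38, 0), (41, 0), (42, 3), (43, 1)], [31, 11]⟩,
   ⟨6, 2, [2], [(0, 0), (1, 0), (1, 4), (3, 1), (12, 3), (3, 2), (19, 2), (19, 1), (39, 1), (42, 0)], [32]⟩,
   ⟨5, 3, [3], [(3, 0), (1, 1), (1, 5), (15, 3), (1, 2), (45, 0)], [32, 2]⟩,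
   ⟨1, 0, [0], [(12, 0), (1, 2), (1, 6), (15, 1), (1, 3), (15, 2), (37, 2), (37, 1), (40, 1), (43, 0), (45, 1), (46, 0)], [32, 9]⟩,
   ⟨0, 1, [1], [(13, 0), (1, 3), (1, 7), (35, 3), (1, 0), (45, 2), (46, 1), (46, 0), (47, 0)], [32, 10]⟩,
   ⟨1, 3, [3], [(14, 0), (1, 1), (1, 5), (16, 1), (36, 3), (16, 2), (38, 2), (38, 1), (41, 1), (44, 0), (45, 3), (1, 2), (46, 2), (46, 1), (47, 1), (48, 0)], [32, 11]⟩,
   ⟨0, 3, [3], [(0, 2), (1, 2), (3, 3), (39, 0), (19, 1), (3, 1), (3, 0)], [33]⟩,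
   ⟨0, 1, [1], [(12, 2), (1, 0), (15, 3), (40, 0), (37, 1), (15, 1), (15, 0), (50, 1), (1, 2), (1, 3)], [33, 9]⟩,
   ⟨0, 2, [2], [(14, 2), (1, 3), (16, 3), (41, 0), (38, 1), (16, 1), (16, 0), (50, 3), (1, 0), (51, 1)], [33, 11]⟩,
   ⟨4, 0, [0], [(0, 1), (1, 1), (1, 2), (3, 0), (45, 0), (19, 3), (3, 3), (50, 1)], [34]⟩,
   ⟨3, 2, [2], [(12, 1), (1, 3), (1, 0), (15, 0), (47, 0), (37, 3), (15, 3), (51, 1), (53, 1), (1, 1)], [34, 9]⟩,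
   ⟨1, 3, [3], [(0, 2), (1, 2), (2, 1), (3, 1), (3, 0), (5, 0)], [20]⟩,
   ⟨4, 2, [1], [(0, 3), (1, 3), (2, 2), (3, 2), (3, 1), (5, 1), (5, 0), (55, 0)], [21]⟩,
   ⟨3, 0, [4], [(0, 1), (1, 1), (2, 3), (3, 3), (3, 0), (5, 2), (5, 1), (55, 1), (56, 0)], [22]⟩,
   ⟨4, 2, [2], [(0, 3), (1, 3), (55, 0), (3, 2), (5, 1), (3, 0), (3, 1)], [23]⟩,
   ⟨4, 1, [2], [(0, 0), (1, 0), (57, 0), (3, 1), (5, 3), (3, 2), (58, 1)], [24]⟩,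
   ⟨1, 3, [0], [(0, 2), (1, 1), (2, 1), (3, 0), (4, 0)], [5]⟩,
   ⟨2, 1, [3], [(0, 3), (1, 2), (2, 2), (3, 1), (4, 1), (4, 0), (60, 0)], [55]⟩,
   ⟨3, 4, [2], [(0, 1), (1, 3), (2, 3), (3, 2), (4, 2), (4, 1), (60, 1), (60, 0), (61, 0)], [56]⟩,
   ⟨2, 3, [0], [(0, 4), (1, 1), (2, 1), (3, 3), (4, 3), (4, 0), (60, 2), (60, 1), (61, 1), (62, 0)], [57]⟩,
   ⟨3, 4, [2], [(0, 2), (1, 3), (2, 3), (61, 0), (4, 2), (60, 1), (4, 0), (4, 1)], [58]⟩,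
   ⟨0, 4, [1], [(0, 2), (1, 0), (2, 0), (63, 0), (4, 1), (60, 3), (4, 2), (64, 1)], [59]⟩,
   ⟨1, 1, [3], [(0, 0), (1, 2), (2, 1), (3, 1), (4, 0), (5, 0)], [60]⟩,
   ⟨4, 2, [1], [(0, 3), (1, 3), (2, 2), (3, 2), (4, 1), (5, 1), (5, 0), (66, 0)], [61]⟩,
   ⟨3, 3, [4], [(0, 2), (1, 1), (2, 3), (3, 3), (4, 2), (5, 2), (5, 1), (66, 1), (66, 0), (67, 0)], [62]⟩,
   ⟨1, 2, [3], [(0, 0), (1, 4), (2, 1), (3, 1), (4, 3), (5, 3), (5, 0), (66, 2), (66, 1), (67, 1), (68, 0)], [63]⟩,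
   ⟨5, 3, [4], [(0, 2), (1, 2), (2, 3), (3, 3), (67, 0), (5, 2), (66, 1), (5, 0), (5, 1)], [64]⟩,
   ⟨0, 0, [4], [(0, 1), (1, 2), (2, 0), (3, 0), (69, 0), (5, 1), (66, 3), (5, 2), (70, 1)], [65]⟩,
   ⟨3, 1, [1], [(1, 3), (1, 0), (6, 2), (7, 1), (17, 0), (8, 0)], [0, 66]⟩,
   ⟨5, 4, [4, 2], [(1, 1), (1, 3), (6, 3), (7, 2), (17, 1), (8, 1), (8, 0), (72, 0)], [0, 67]⟩,
   ⟨1, 3, [3], [(1, 4), (1, 2), (6, 1), (7, 3), (17, 2), (8, 2), (8, 1), (72, 1), (72, 0), (73, 0)], [0, 68]⟩,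
   ⟨0, 1, [1, 2], [(1, 3), (1, 0), (6, 4), (7, 1), (17, 3), (8, 3), (8, 0), (72, 2), (72, 1), (73, 1), (74, 0)], [0, 69]⟩,
   ⟨4, 5, [5, 3], [(1, 4), (1, 2), (6, 2), (7, 3), (73, 0), (8, 2), (72, 1), (8, 0), (8, 1)], [0, 70]⟩,
   ⟨1, 0, [0], [(1, 4), (1, 1), (6, 2), (7, 0), (75, 0), (8, 1), (72, 3), (8, 2), (76, 1)], [0, 71]⟩,
   ⟨3, 3, [1], [(0, 1), (2, 3), (2, 0), (9, 2), (10, 1), (18, 0), (11, 0)], [72]⟩,
   ⟨5, 5, [4], [(0, 4), (0, 2), (2, 1), (2, 3), (9, 3), (10, 2), (18, 1), (11, 1), (11, 0), (78, 0)], [73]⟩,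
   ⟨1, 1, [3], [(0, 3), (2, 4), (2, 2), (9, 1), (10, 3), (18, 2), (11, 2), (11, 1), (78, 1), (78, 0), (79, 0)], [74]⟩,
   ⟨0, 0, [1], [(0, 1), (0, 2), (2, 3), (2, 0), (9, 4), (10, 1), (18, 3), (11, 3), (11, 0), (78, 2), (78, 1), (79, 1), (80, 0)], [75]⟩,
   ⟨4, 4, [5], [(0, 5), (0, 3), (2, 4), (2, 2), (9, 2), (10, 3), (79, 0), (11, 2), (78, 1), (11, 0), (11, 1)], [76]⟩,
   ⟨1, 1, [0], [(0, 0), (2, 4), (2, 1), (9, 2), (10, 0), (81, 0), (11, 1), (78, 3), (11, 2), (82, 1)], [77]⟩,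
   ⟨5, 3, [3], [(0, 1), (1, 1), (3, 3), (3, 0), (12, 2), (13, 1), (19, 0), (14, 0)], [78]⟩,
   ⟨2, 5, [5], [(0, 4), (1, 4), (1, 2), (3, 1), (3, 3), (12, 3), (13, 2), (19, 1), (14, 1), (14, 0), (84, 0)], [79]⟩,
   ⟨7, 1, [1], [(0, 3), (1, 3), (3, 4), (3, 2), (12, 1), (13, 3), (19, 2), (14, 2), (14, 1), (84, 1), (84, 0), (85, 0)], [80]⟩,
   ⟨5, 0, [0], [(0, 1), (1, 1), (1, 2), (3, 3), (3, 0), (12, 4), (13, 1), (19, 3), (14, 3), (14, 0), (84, 2), (84, 1), (85, 1), (86, 0)], [81]⟩,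
   ⟨3, 4, [4], [(0, 5), (1, 5), (1, 3), (3, 4), (3, 2), (12, 2), (13, 3), (85, 0), (14, 2), (84, 1), (14, 0), (14, 1)], [82]⟩,
   ⟨4, 1, [1], [(0, 0), (1, 0), (3, 4), (3, 1), (12, 2), (13, 0), (87, 0), (14, 1), (84, 3), (14, 2), (88, 1)], [83]⟩,
   ⟨4, 2, [2], [(84, 0), (1, 3), (3, 1), (1, 0), (15, 2), (16, 0)], [2, 78]⟩,
   ⟨5, 4, [4], [(85, 0), (1, 5), (3, 4), (1, 3), (1, 1), (15, 3), (1, 0), (16, 1), (16, 0), (90, 0)], [2, 79]⟩,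
   ⟨2, 0, [0], [(86, 0), (1, 1), (3, 3), (1, 2), (1, 4), (15, 1), (16, 2), (16, 1), (90, 1), (90, 0), (91, 0)], [2, 80]⟩,
   ⟨0, 1, [1], [(87, 0), (1, 0), (3, 1), (1, 3), (15, 4), (16, 3), (16, 0), (90, 2), (90, 1), (91, 1), (92, 0)], [2, 81]⟩,
   ⟨1, 5, [5], [(88, 0), (1, 4), (3, 5), (1, 2), (15, 2), (1, 1), (91, 0), (16, 2), (90, 1), (16, 0), (16, 1)], [2, 82]⟩,
   ⟨0, 1, [1], [(84, 1), (1, 2), (1, 3), (90, 0), (12, 1), (15, 3), (15, 0), (35, 1), (37, 0), (36, 0)], [9, 78]⟩,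
   ⟨8, 7, [7], [(85, 1), (1, 4), (1, 5), (91, 0), (12, 4), (1, 6), (1, 0), (15, 1), (15, 3), (1, 3), (35, 2), (37, 1), (36, 1), (36, 0), (95, 0)], [9, 79]⟩,
   ⟨5, 3, [3], [(86, 1), (1, 0), (1, 1), (92, 0), (12, 3), (15, 4), (15, 2), (35, 3), (37, 2), (36, 2), (36, 1), (95, 1), (95, 0), (96, 0)], [9, 80]⟩,
   ⟨3, 2, [2], [(87, 1), (1, 1), (1, 0), (93, 0), (12, 1), (1, 3), (15, 3), (15, 0), (1, 4), (35, 1), (37, 3), (36, 3), (36, 0), (95, 2), (95, 1), (96, 1), (97, 0)], [9, 81]⟩,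
   ⟨9, 6, [6], [(88, 1), (1, 5), (1, 4), (94, 0), (12, 5), (1, 7), (1, 1), (15, 4), (15, 2), (1, 2), (35, 3), (96, 0), (36, 2), (95, 1), (36, 0), (36, 1)], [9, 82]⟩,
   ⟨2, 3, [3], [(89, 1), (1, 0), (1, 1), (12, 0), (1, 2), (15, 4), (15, 1), (35, 0), (98, 0), (36, 1), (95, 3), (36, 2), (99, 1)], [9, 83]⟩,
   ⟨4, 2, [2], [(84, 0), (1, 3), (1, 1), (90, 1), (95, 0), (19, 1), (1, 0), (37, 2), (38, 0)], [18, 78]⟩,
   ⟨3, 4, [4], [(85, 0), (1, 5), (1, 7), (91, 1), (96, 0), (19, 4), (1, 3), (1, 1), (37, 3), (1, 0), (38, 1), (38, 0), (101, 0)], [18, 79]⟩,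
   ⟨6, 0, [0], [(86, 0), (1, 1), (1, 3), (92, 1), (97, 0), (19, 3), (1, 2), (1, 4), (37, 1), (38, 2), (38, 1), (101, 1), (101, 0), (102, 0)], [18, 80]⟩,
   ⟨0, 1, [1], [(87, 0), (1, 0), (1, 2), (93, 1), (98, 0), (19, 1), (1, 3), (37, 4), (38, 3), (38, 0), (101, 2), (101, 1), (102, 1), (103, 0)], [18, 81]⟩,
   ⟨1, 5, [5], [(88, 0), (1, 4), (1, 6), (94, 1), (99, 0), (19, 5), (1, 2), (37, 2), (1, 1), (102, 0), (38, 2), (101, 1), (38, 0), (38, 1)], [18, 82]⟩,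
   ⟨7, 1, [1], [(84, 3), (1, 0), (90, 2), (95, 1), (90, 0), (90, 1), (101, 0), (39, 1), (1, 3), (40, 2), (41, 0)], [30, 78]⟩,
   ⟨6, 7, [7], [(85, 3), (1, 6), (91, 2), (96, 1), (91, 0), (91, 1), (102, 0), (39, 4), (1, 0), (1, 2), (40, 3), (1, 3), (41, 1), (41, 0), (106, 0)], [30, 79]⟩,
   ⟨1, 3, [3], [(86, 3), (1, 2), (92, 2), (97, 1), (92, 0), (92, 1), (103, 0), (39, 3), (1, 1), (1, 7), (40, 1), (41, 2), (41, 1), (106, 1), (106, 0), (107, 0)], [30, 80]⟩,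
   ⟨3, 2, [2], [(87, 3), (1, 3), (93, 2), (98, 1), (93, 0), (93, 1), (104, 0), (39, 1), (1, 0), (40, 4), (41, 3), (41, 0), (106, 2), (106, 1), (107, 1), (108, 0)], [30, 81]⟩,
   ⟨2, 6, [6], [(88, 3), (1, 7), (94, 2), (99, 1), (94, 0), (94, 1), (105, 0), (39, 5), (1, 1), (40, 2), (1, 2), (107, 0), (41, 2), (106, 1), (41, 0), (41, 1)], [30, 82]⟩,
   ⟨1, 0, [0], [(84, 2), (1, 1), (1, 2), (90, 3), (95, 2), (90, 0), (101, 1), (101, 0), (106, 0), (42, 1), (43, 2), (44, 0)], [31, 78]⟩,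
   ⟨4, 6, [6], [(85, 2), (1, 7), (1, 4), (91, 3), (96, 2), (91, 0), (102, 1), (102, 0), (107, 0), (42, 4), (1, 1), (1, 3), (43, 3), (1, 2), (44, 1), (44, 0), (111, 0)], [31, 79]⟩,
   ⟨3, 2, [2], [(86, 2), (1, 3), (1, 0), (92, 3), (97, 2), (92, 0), (103, 1), (103, 0), (108, 0), (42, 3), (1, 6), (43, 1), (44, 2), (44, 1), (111, 1), (111, 0), (112, 0)], [31, 80]⟩,
   ⟨2, 3, [3], [(87, 2), (1, 2), (1, 1), (93, 3), (98, 2), (93, 0), (104, 1), (104, 0), (109, 0), (42, 1), (43, 4), (44, 3), (44, 0), (111, 2), (111, 1), (112, 1), (113, 0)], [31, 81]⟩,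
   ⟨3, 7, [7], [(88, 2), (1, 6), (1, 5), (94, 3), (99, 2), (94, 0), (105, 1), (105, 0), (110, 0), (42, 5), (1, 0), (43, 2), (1, 3), (112, 0), (44, 2), (111, 1), (44, 0), (44, 1)], [31, 82]⟩,
   ⟨5, 3, [3], [(19, 0), (1, 1), (1, 5), (37, 3), (1, 2), (45, 0), (1, 0), (46, 1), (47, 0)], [32, 18]⟩,
   ⟨0, 1, [1], [(84, 0), (1, 3), (1, 7), (90, 1), (95, 3), (90, 2), (101, 2), (101, 1), (106, 1), (111, 0), (45, 1), (46, 3), (46, 0), (47, 2), (48, 1), (116, 0), (49, 0)], [32, 78]⟩,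
   ⟨3, 7, [7], [(85, 0), (1, 5), (1, 1), (91, 1), (96, 3), (91, 2), (102, 2), (102, 1), (107, 1), (112, 0), (45, 4), (1, 6), (1, 0), (46, 1), (46, 3), (47, 3), (48, 2), (116, 1), (49, 1), (49, 0), (117, 0)], [32, 79]⟩,
   ⟨2, 3, [3], [(86, 0), (1, 1), (1, 5), (92, 1), (97, 3), (92, 2), (103, 2), (103, 1), (108, 1), (113, 0), (45, 3), (46, 4), (46, 2), (47, 1), (48, 3), (116, 2), (49, 2), (49, 1), (117, 1), (117, 0), (118, 0)], [32, 80]⟩,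
   ⟨3, 2, [2], [(87, 0), (1, 0), (1, 4), (93, 1), (98, 3), (93, 2), (104, 2), (104, 1), (109, 1), (114, 0), (45, 1), (1, 3), (46, 3), (46, 0), (47, 4), (48, 1), (116, 3), (49, 3), (49, 0), (117, 2), (117, 1), (118, 1), (119, 0)], [32, 81]⟩,
   ⟨2, 6, [6], [(88, 0), (1, 4), (1, 0), (94, 1), (99, 3), (94, 2), (105, 2), (105, 1), (110, 1), (115, 0), (45, 5), (1, 7), (1, 1), (46, 4), (46, 2), (47, 2), (48, 3), (118, 0), (49, 2), (117, 1), (49, 0), (49, 1)], [32, 82]⟩,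
   ⟨2, 3, [3], [(89, 0), (1, 1), (1, 5), (100, 3), (1, 2), (45, 0), (46, 4), (46, 1), (47, 2), (48, 0), (120, 0), (49, 1), (117, 3), (49, 2), (121, 1)], [32, 83]⟩,
   ⟨6, 0, [0], [(84, 2), (1, 1), (90, 3), (106, 0), (101, 1), (90, 1), (90, 0), (50, 1), (1, 2), (51, 2), (52, 0)], [33, 78]⟩,
   ⟨7, 6, [6], [(85, 2), (1, 7), (91, 3), (107, 0), (102, 1), (91, 1), (91, 0), (50, 4), (1, 1), (1, 3), (51, 3), (1, 2), (52, 1), (52, 0), (123, 0)], [33, 79]⟩,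
   ⟨0, 2, [2], [(86, 2), (1, 3), (92, 3), (108, 0), (103, 1), (92, 1), (92, 0), (50, 3), (1, 0), (1, 6), (51, 1), (52, 2), (52, 1), (123, 1), (123, 0), (124, 0)], [33, 80]⟩,
   ⟨2, 3, [3], [(87, 2), (1, 2), (93, 3), (109, 0), (104, 1), (93, 1), (93, 0), (50, 1), (1, 1), (51, 4), (52, 3), (52, 0), (123, 2), (123, 1), (124, 1), (125, 0)], [33, 81]⟩,
   ⟨3, 7, [7], [(88, 2), (1, 6), (94, 3), (110, 0), (105, 1), (94, 1), (94, 0), (50, 5), (1, 0), (51, 2), (1, 3), (124, 0), (52, 2), (123, 1), (52, 0), (52, 1)], [33, 82]⟩,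
   ⟨2, 3, [3], [(84, 1), (1, 2), (1, 1), (90, 0), (117, 0), (101, 3), (90, 3), (123, 1), (53, 1), (54, 2)], [34, 78]⟩,
   ⟨4, 5, [5], [(85, 1), (1, 4), (1, 7), (91, 0), (118, 0), (102, 3), (91, 3), (124, 1), (53, 4), (1, 2), (1, 0), (54, 3), (1, 1), (128, 0)], [34, 79]⟩,
   ⟨0, 1, [1], [(86, 1), (1, 0), (1, 3), (92, 0), (119, 0), (103, 3), (92, 3), (125, 1), (53, 3), (1, 5), (54, 1), (128, 1), (128, 0), (129, 0)], [34, 80]⟩,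
   ⟨1, 0, [0], [(87, 1), (1, 1), (1, 2), (93, 0), (120, 0), (104, 3), (93, 3), (126, 1), (53, 1), (54, 4), (128, 2), (128, 1), (129, 1), (130, 0)], [34, 81]⟩,
   ⟨5, 4, [4], [(88, 1), (1, 5), (1, 6), (94, 0), (121, 0), (105, 3), (94, 3), (127, 1), (53, 5), (1, 3), (54, 2), (1, 0), (129, 0), (128, 1), (1, 1)], [34, 82]⟩]

def entTable : List (List ℕ × ℕ × ℕ) :=
  [([], 0, 0), ([0], 1, 0), ([1], 2, 0), ([2], 3, 0),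
   ([3], 4, 0), ([4], 5, 0), ([0, 0], 1, 0), ([0, 1], 6, 0),
   ([0, 2], 1, 1), ([0, 3], 7, 0), ([0, 5], 8, 0), ([6], 9, 0),
   ([7], 10, 0), ([8], 11, 0), ([9], 12, 0), ([10], 13, 0),
   ([11], 14, 0), ([0, 9], 1, 2), ([0, 10], 1, 3), ([0, 11], 1, 1),
   ([2, 0], 1, 1), ([2, 2], 1, 0), ([2, 9], 15, 0), ([2, 10], 1, 2),
   ([2, 11], 16, 0), ([0, 4], 17, 0), ([17], 18, 0), ([18], 19, 0),
   ([0, 18], 1, 1), ([2, 18], 1, 0), ([12], 20, 0), ([13], 21, 0),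
   ([14], 22, 0), ([15], 23, 0), ([16], 24, 0), ([0, 20], 25, 0),
   ([0, 21], 26, 0), ([0, 22], 27, 0), ([0, 23], 28, 0), ([0, 24], 29, 0),
   ([25], 30, 0), ([26], 31, 0), ([27], 32, 0), ([28], 33, 0),
   ([29], 34, 0), ([9, 0], 1, 2), ([9, 2], 15, 0), ([9, 9], 1, 0),
   ([9, 10], 35, 0), ([9, 11], 36, 0), ([18, 0], 1, 1), ([18, 2], 1, 0),
   ([18, 9], 37, 0), ([18, 10], 1, 2), ([18, 11], 38, 0), ([30], 39, 0),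
   ([30, 0], 1, 2), ([30, 2], 1, 3), ([30, 9], 40, 0), ([30, 10], 1, 1),
   ([30, 11], 41, 0), ([31], 42, 0), ([31, 0], 1, 3), ([31, 2], 1, 2),
   ([31, 9], 43, 0), ([31, 10], 1, 0), ([31, 11], 44, 0), ([32], 45, 0),
   ([32, 0], 1, 2), ([32, 2], 46, 0), ([32, 9], 47, 0), ([32, 10], 48, 0),
   ([32, 11], 49, 0), ([33], 50, 0), ([33, 0], 1, 3), ([33, 2], 1, 2),
   ([33, 9], 51, 0), ([33, 10], 1, 0), ([33, 11], 52, 0), ([34], 53, 0),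
   ([34, 0], 1, 0), ([34, 2], 1, 1), ([34, 9], 54, 0), ([34, 10], 1, 3),
   ([34, 11], 1, 1), ([20], 55, 0), ([21], 56, 0), ([22], 57, 0),
   ([23], 58, 0), ([24], 59, 0), ([5], 60, 0), ([55], 61, 0),
   ([56], 62, 0), ([57], 63, 0), ([58], 64, 0), ([59], 65, 0),
   ([60], 66, 0), ([61], 67, 0), ([62], 68, 0), ([63], 69, 0),
   ([64], 70, 0), ([65], 71, 0), ([0, 66], 72, 0), ([0, 67], 73, 0),
   ([0, 68], 74, 0), ([0, 69], 75, 0), ([0, 70], 76, 0), ([0, 71], 77, 0),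
   ([72], 78, 0), ([73], 79, 0), ([74], 80, 0), ([75], 81, 0),
   ([76], 82, 0), ([77], 83, 0), ([78], 84, 0), ([79], 85, 0),
   ([80], 86, 0), ([81], 87, 0), ([82], 88, 0), ([83], 89, 0),
   ([0, 78], 1, 3), ([0, 79], 1, 5), ([0, 80], 1, 1), ([0, 81], 1, 0),
   ([0, 82], 1, 4), ([0, 83], 1, 1), ([2, 78], 90, 0), ([2, 79], 91, 0),
   ([2, 80], 92, 0), ([2, 81], 93, 0), ([2, 82], 94, 0), ([2, 83], 1, 0),
   ([9, 18], 37, 0), ([9, 78], 95, 0), ([9, 79], 96, 0), ([9, 80], 97, 0),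
   ([9, 81], 98, 0), ([9, 82], 99, 0), ([9, 83], 100, 0), ([18, 18], 1, 0),
   ([18, 78], 101, 0), ([18, 79], 102, 0), ([18, 80], 103, 0), ([18, 81], 104, 0),
   ([18, 82], 105, 0), ([18, 83], 1, 0), ([30, 18], 1, 3), ([30, 78], 106, 0),
   ([30, 79], 107, 0), ([30, 80], 108, 0), ([30, 81], 109, 0), ([30, 82], 110, 0),
   ([30, 83], 1, 3), ([31, 18], 1, 2), ([31, 78], 111, 0), ([31, 79], 112, 0),
   ([31, 80], 113, 0), ([31, 81], 114, 0), ([31, 82], 115, 0), ([31, 83], 1, 2),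
   ([32, 18], 116, 0), ([32, 78], 117, 0), ([32, 79], 118, 0), ([32, 80], 119, 0),
   ([32, 81], 120, 0), ([32, 82], 121, 0), ([32, 83], 122, 0), ([33, 18], 1, 2),
   ([33, 78], 123, 0), ([33, 79], 124, 0), ([33, 80], 125, 0), ([33, 81], 126, 0),
   ([33, 82], 127, 0), ([33, 83], 1, 2), ([34, 18], 1, 1), ([34, 78], 128, 0),
   ([34, 79], 129, 0), ([34, 80], 130, 0), ([34, 81], 131, 0), ([34, 82], 132, 0),
   ([34, 83], 1, 1)]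

/-- the classes -/
def cls (X : ℕ) : Dsc := clsTable.getD X ⟨0, 0, [], [], []⟩

theorem cls_rep : ∀ X, ∀ c ∈ (cls X).rep, c < X := by
  have h : ∀ X < 133, ∀ c ∈ (cls X).rep, c < X := by decide +kernel
  intro X c hc
  by_cases hX : X < 133
  · exact h X hX c hc
  · have : clsTable.length = 133 := by decide +kernel
    simp only [cls] at hc
    rw [List.getD_eq_default _ _ (by omega)] at hc
    simp at hc

theorem chk_table : chkT cls [] 0 entTable = true := by decide +kernel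

/-- the path with `n + 1` vertices, hanging at an end -/
def pathX : ℕ → X
  | 0 => X.n0
  | n + 1 => X.n1 (pathX n)

/-- `x - q - s`, with a leaf at `q` -/
def vX (s : X) : X := X.n1 (X.n2 X.n0 s)

/-- the literal: `true` or `false` -/
def litX (β : Bool) : X := X.n2 (pathX 2) (vX (pathX (if β then 4 else 5)))

def up4X (x : X) : X := X.n1 (X.n1 (X.n1 (X.n1 x)))

def invX (y : X) : X := X.n2 (pathX 2) (vX (up4X y))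

def nandX (x y : X) : X := X.n2 (vX (X.n1 x)) (vX (up4X y))

theorem inv_eqv (β : Bool) : Eqv (invX (litX β)).toF (litX !β).toF 0 := by
  cases β
  · exact ev_eqv cls_rep chk_table (r := 1) (i := 0) (j := 0) (by decide +kernel) (by decide +kernel)
  · exact ev_eqv cls_rep chk_table (r := 16) (i := 0) (j := 0) (by decide +kernel) (by decide +kernel)

theorem nand_eqv (α β : Bool) :
    Eqv (nandX (litX α) (litX β)).toF (litX !(α && β)).toF 1 := by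
  cases α <;> cases β
  · exact ev_eqv cls_rep chk_table (r := 1) (i := 1) (j := 0) (by decide +kernel) (by decide +kernel)
  · exact ev_eqv cls_rep chk_table (r := 1) (i := 1) (j := 0) (by decide +kernel) (by decide +kernel)
  · exact ev_eqv cls_rep chk_table (r := 1) (i := 1) (j := 0) (by decide +kernel) (by decide +kernel)
  · exact ev_eqv cls_rep chk_table (r := 16) (i := 1) (j := 0) (by decide +kernel) (by decide +kernel)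

theorem gF_up4_lit (β : Bool) : gF (up4X (litX β)).toF = if β then 3 else 0 := by
  cases β
  · rw [ev_gF cls_rep chk_table (r := (71, 0)) (by decide +kernel)]; decide +kernel
  · rw [ev_gF cls_rep chk_table (r := (5, 0)) (by decide +kernel)]; decide +kernel

end Pool.Agent.CramNC
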