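import Pool.Agent.CramNC.Good

namespace Pool.Agent.CramNC

/-- the handle and the balancing domino -/
def extra (p : ℕ) : Finset Cell := handleS ∪ (if p = 0 then ∅ else {(-6, 0), (-7, 0)})

theorem g_domino : g {(-6, 0), (-7, 0)} = 1 := by
  have h := g_isMex ({(-6, 0), (-7, 0)} : Finset Cell)
  have hval : ∀ x, (∃ p ∈ ({(-6, 0), (-7, 0)} : Finset Cell), ∃ q ∈ ({(-6, 0), (-7, 0)} : Finset Cell),
      Adj p q ∧ x = g ((({(-6, 0), (-7, 0)} : Finset Cell).erase p).erase q)) ↔ x = 0 := by
    intro x
    constructor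
    · rintro ⟨p, hp, q, hq, ha, rfl⟩
      have : ∀ p ∈ ({(-6, 0), (-7, 0)} : Finset Cell), ∀ q ∈ ({(-6, 0), (-7, 0)} : Finset Cell),
          Adj p q → ((({(-6, 0), (-7, 0)} : Finset Cell).erase p).erase q) = ∅ := by decide
      rw [this p hp q hq ha, g_empty]
    · rintro rfl
      refine ⟨(-6, 0), by decide, (-7, 0), by decide, by decide, ?_⟩
      have : ((({(-6, 0), (-7, 0)} : Finset Cell).erase (-6, 0)).erase (-7, 0)) = ∅ := by decide
      rw [this, g_empty]
  refine h.unique ⟨?_, ?_⟩
  · intro hh
    have := (hval 1).1 hh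
    omega
  · intro i hi
    exact (hval i).2 (by omega)

theorem firstWins_extra (p : ℕ) (hp : p = 0 ∨ p = 1) {f : Cell → Finset Cell} {W H : ℤ} {β : Bool}
    (hf : Good f W H β p) : FirstWins (extra p ∪ f (0, 0)) ↔ β = true := by
  have hsep : Sep (0, 0) (-1, 0) (extra p) W H := by
    refine ⟨?_, Or.inl (by simp), ?_⟩
    · simp [extra, handleS]
    · intro c hc hne
      have h1 : c.1 ≤ -2 := by
        unfold extra at hc
        rcases Finset.mem_union.1 hc with h | h
        · have : ∀ a ∈ handleS, a ≠ (-1, 0) → a.1 ≤ -2 := by decide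
          exact this c h hne
        · split_ifs at h
          · simp at h
          · have : ∀ a ∈ ({(-6, 0), (-7, 0)} : Finset Cell), a.1 ≤ -2 := by decide
            exact this c h
      left
      show c.1 < 0 - 1
      omega
  have h0 : at' (litS β) (0, 0) = litS β := by
    ext c; rw [mem_at']; simp [← Prod.zero_eq_mk]
  have h1 := hf.eq (0, 0) (-1, 0) (extra p) hsep
  rw [h0] at h1
  have h2 : g (extra p ∪ litS β) = (if β then 3 else 0) ^^^ p := by
    rcases hp with rfl | rfl
    · simp only [extra, if_true, Finset.union_empty]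
      rw [g_handle_lit, Nat.xor_zero]
    · have h3 : extra 1 ∪ litS β = (handleS ∪ litS β) ∪ {(-6, 0), (-7, 0)} := by
        simp only [extra, one_ne_zero, if_false]
        rw [Finset.union_assoc, Finset.union_comm _ (litS β), ← Finset.union_assoc]
      have h4 : ∀ a ∈ handleS ∪ litS β, -4 ≤ a.1 := by cases β <;> decide
      have h5 : ∀ b ∈ ({(-6, 0), (-7, 0)} : Finset Cell), b.1 ≤ -6 := by decide
      rw [h3, g_union, g_handle_lit, g_domino]
      · rw [Finset.disjoint_left]
        intro a ha hb
        have := h4 a ha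
        have := h5 a hb
        omega
      · intro a ha b hb hadj
        have := h4 a ha
        have := h5 b hb
        unfold Adj at hadj
        have h6 := abs_nonneg (a.2 - b.2)
        have h7 := le_abs_self (a.1 - b.1)
        omega
  rw [firstWins_iff, h1, h2, Nat.xor_assoc, Nat.xor_self, Nat.xor_zero]
  cases β <;> simp

/-- translation invariance -/
theorem firstWins_at' (B : Finset Cell) (o : Cell) : FirstWins (at' B o) ↔ FirstWins B := by
  induction' hk : B.card using Nat.strong_induction_on with k ih generalizing B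
  have her : ∀ p q : Cell, ((at' B o).erase (p + o)).erase (q + o) = at' ((B.erase p).erase q) o := by
    intro p q
    ext c
    simp only [mem_at', Finset.mem_erase]
    constructor
    · rintro ⟨h1, h2, h3⟩
      exact ⟨fun h => h1 (by rw [← h]; simp), fun h => h2 (by rw [← h]; simp), h3⟩
    · rintro ⟨h1, h2, h3⟩
      exact ⟨fun h => h1 (by rw [h]; simp), fun h => h2 (by rw [h]; simp), h3⟩
  have hcard : ∀ p ∈ B, ∀ q, ((B.erase p).erase q).card < k := by
    intro p hp q
    have h1 := Finset.card_erase_lt_of_mem hp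
    have h2 := Finset.card_erase_le (s := B.erase p) (a := q)
    omega
  rw [FirstWins, FirstWins]
  constructor
  · rintro ⟨⟨p, hp⟩, ⟨q, hq⟩, ha, hn⟩
    rw [mem_at'] at hp hq
    refine ⟨⟨p - o, hp⟩, ⟨q - o, hq⟩, ?_, ?_⟩
    · have := adj_add (p - o) (q - o) o
      rw [sub_add_cancel, sub_add_cancel] at this
      exact this.1 ha
    · intro h
      apply hn
      have h1 := her (p - o) (q - o)
      rw [sub_add_cancel, sub_add_cancel] at h1
      show FirstWins (((at' B o).erase p).erase q)
      rw [h1]
      exact (ih _ (hcard _ hp _) _ rfl).2 h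
  · rintro ⟨⟨p, hp⟩, ⟨q, hq⟩, ha, hn⟩
    refine ⟨⟨p + o, by rw [mem_at']; simpa using hp⟩, ⟨q + o, by rw [mem_at']; simpa using hq⟩,
      (adj_add p q o).2 ha, ?_⟩
    intro h
    apply hn
    have h1 := her p q
    have h2 : FirstWins (((at' B o).erase (p + o)).erase (q + o)) := h
    rw [h1] at h2
    exact (ih _ (hcard _ hp _) _ rfl).1 h2

end Pool.Agent.CramNC
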