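import Pool.Agent.CramNC.Tiles

/-!
# Boards that behave like a literal tile

Plan.  `att_of_sep`: `v = o + (-1,0)` or `o + (0,-1)` is not in the box of `S`, `Far` excludes the other cells; for
`Adj c s` with `s` in the box and `c` far: `|c.1 - s.1| + |c.2 - s.2| = 1` contradicts (`omega` after
`abs` cases: `unfold Adj`, `rcases abs_cases`, or `Int.natAbs`); `Cell` equalities: `Prod.ext_iff`.
`inv_phys`, `nand_phys`: `swap (inv_eqv β)` / `swap (nand_eqv α β)` of Val.lean with
`Real.translate (real_inv β hv') o` where `v = v' + o`, `Port v'`; `at' (A ∪ B) o = at' A o ∪ at' B o`,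
`at' (at' B a) o = at' B (o + a)` (put both as lemmas in Good.lean, before use: `at'_union`, `at'_at'`);
`att_of_sep` for both sets (boxes: `litS_box`, `invS_box`, `gateS_box`, `mem_at'`).
`good_lit`: `box` from `litS_box`, `eq` is `Nat.xor_zero`.
`good_inv`: `box` by omega.  `eq`: `C ∪ (inv ∪ f (o + (7,0))) = (C ∪ inv) ∪ f (o + (7,0))`; `hf.eq (o+(7,0)) (o+(6,0))`
with context `C ∪ at' invS o`: `Sep` holds, since cells of the inverter other than `o+(6,0)` have `c.1 ≤ o.1+5` and
cells of `C` are `Far o (W+7) H` or equal to `v` (whose first coordinate is `≤ o.1`); then `inv_phys`.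
-/

namespace Pool.Agent.CramNC

/-- the cell `c` lies in the box of size `W × H` at `o` -/
def Box (o : Cell) (W H : ℤ) (c : Cell) : Prop :=
  o.1 ≤ c.1 ∧ c.1 ≤ o.1 + W ∧ o.2 ≤ c.2 ∧ c.2 ≤ o.2 + H

/-- the cell `c` lies outside the box enlarged by one in all directions -/
def Far (o : Cell) (W H : ℤ) (c : Cell) : Prop :=
  c.1 < o.1 - 1 ∨ o.1 + W + 1 < c.1 ∨ c.2 < o.2 - 1 ∨ o.2 + H + 1 < c.2

/-- the box at `o` is attached to the cells `C` only through the cell `v`, left of or below `o` -/
def Sep (o v : Cell) (C : Finset Cell) (W H : ℤ) : Prop :=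
  v ∈ C ∧ (v = o + (-1, 0) ∨ v = o + (0, -1)) ∧ ∀ c ∈ C, c ≠ v → Far o W H c

/-- The boards `f o` (rooted at `o`, contained in a `W × H` box) behave like the literal tile `β`
with offset `n`. -/
structure Good (f : Cell → Finset Cell) (W H : ℤ) (β : Bool) (n : ℕ) : Prop where
  hW : 8 ≤ W
  hH : 2 ≤ H
  box : ∀ o, ∀ c ∈ f o, Box o W H c
  eq : ∀ o v C, Sep o v C W H → g (C ∪ f o) = g (C ∪ at' (litS β) o) ^^^ n

theorem litS_box (β : Bool) (c : Cell) (h : c ∈ litS β) :
    0 ≤ c.1 ∧ c.1 ≤ 8 ∧ 0 ≤ c.2 ∧ c.2 ≤ 2 := by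
  revert c; cases β <;> decide

/-- cells of the inverter: either the last one, or at distance from the next tile -/
theorem invS_box (c : Cell) (h : c ∈ invS) :
    0 ≤ c.1 ∧ c.1 ≤ 6 ∧ 0 ≤ c.2 ∧ c.2 ≤ 2 ∧ (c = (6, 0) ∨ c.1 ≤ 5) := by
  revert c; decide

theorem gateS_box (c : Cell) (h : c ∈ gateS) :
    0 ≤ c.1 ∧ c.1 ≤ 6 ∧ 0 ≤ c.2 ∧ c.2 ≤ 3 ∧ (c = (6, 0) ∨ c.1 ≤ 5) ∧ (c = (0, 3) ∨ c.2 ≤ 2) := by
  revert c; decide

theorem at'_union (A B : Finset Cell) (o : Cell) : at' (A ∪ B) o = at' A o ∪ at' B o := by
  simp [at', Finset.image_union]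

theorem at'_at' (A : Finset Cell) (a o : Cell) : at' (at' A a) o = at' A (o + a) := by
  ext c
  simp only [mem_at']
  rw [sub_sub]

/-- `Att` from boxes -/
theorem att_of_sep {o v : Cell} {C : Finset Cell} {W H : ℤ} (hs : Sep o v C W H)
    {S : Finset Cell} (hS : ∀ c ∈ S, Box o W H c) : Att v C S := by
  obtain ⟨hv, hvo, hfar⟩ := hs
  refine ⟨hv, ?_, ?_⟩
  · rw [Finset.disjoint_left]
    intro c hc hcS
    obtain ⟨h1, h2, h3, h4⟩ := hS c hcS
    by_cases hcv : c = v
    · rw [hcv] at h1 h3
      rcases hvo with h | h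
      · rw [h] at h1
        simp only [Prod.fst_add] at h1
        omega
      · rw [h] at h3
        simp only [Prod.snd_add] at h3
        omega
    · have h5 := hfar c hc hcv
      unfold Far at h5
      omega
  · intro c hc hcv s hs hadj
    obtain ⟨h1, h2, h3, h4⟩ := hS s hs
    have h5 := hfar c hc hcv
    unfold Far at h5
    unfold Adj at hadj
    have h6 : |c.1 - s.1| ≤ 1 := by
      have := abs_nonneg (c.2 - s.2)
      linarith
    have h7 : |c.2 - s.2| ≤ 1 := by
      have := abs_nonneg (c.1 - s.1)
      linarith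
    rw [abs_le] at h6 h7
    omega

/-- the port of a translated tile -/
theorem port_of_sep {o v : Cell} {C : Finset Cell} {W H : ℤ} (hs : Sep o v C W H) : Port (v - o) := by
  obtain ⟨_, hvo, _⟩ := hs
  rcases hvo with h | h
  · left
    rw [h, add_sub_cancel_left]
  · right
    rw [h, add_sub_cancel_left]

theorem box_at_lit (β : Bool) {o : Cell} {W H : ℤ} (hW : 8 ≤ W) (hH : 2 ≤ H) {c : Cell}
    (hc : c ∈ at' (litS β) o) : Box o W H c := by
  rw [mem_at'] at hc
  have h := litS_box β _ hc
  simp only [Prod.fst_sub, Prod.snd_sub] at h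
  unfold Box
  omega

/-- the inverter identity on the grid -/
theorem inv_phys (β : Bool) {o v : Cell} {C : Finset Cell} {W H : ℤ} (hW : 15 ≤ W) (hH : 2 ≤ H)
    (hs : Sep o v C W H) :
    g (C ∪ (at' invS o ∪ at' (litS β) (o + (7, 0)))) = g (C ∪ at' (litS !β) o) := by
  have hp := port_of_sep hs
  have h1 := (real_inv β hp).translate o
  have h2 := (real_lit (!β) hp).translate o
  rw [sub_add_cancel] at h1 h2
  rw [at'_union, at'_at'] at h1
  have h3 := swap (inv_eqv β) h1 h2 (att_of_sep hs ?_) (att_of_sep hs ?_)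
  · rw [h3, Nat.xor_zero]
  · intro c hc
    rw [Finset.mem_union] at hc
    rcases hc with hc | hc
    · rw [mem_at'] at hc
      have h := invS_box _ hc
      simp only [Prod.fst_sub, Prod.snd_sub] at h
      unfold Box
      omega
    · rw [mem_at'] at hc
      have h := litS_box β _ hc
      simp only [Prod.fst_sub, Prod.snd_sub, Prod.fst_add, Prod.snd_add] at h
      unfold Box
      omega
  · intro c hc
    exact box_at_lit _ (by omega) hH hc

/-- the NAND identity on the grid -/
theorem nand_phys (α β : Bool) {o v : Cell} {C : Finset Cell} {W H : ℤ} (hW : 15 ≤ W) (hH : 6 ≤ H)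
    (hs : Sep o v C W H) :
    g (C ∪ (at' gateS o ∪ at' (litS α) (o + (0, 4)) ∪ at' (litS β) (o + (7, 0)))) =
      g (C ∪ at' (litS !(α && β)) o) ^^^ 1 := by
  have hp := port_of_sep hs
  have h1 := (real_nand α β hp).translate o
  have h2 := (real_lit (!(α && β)) hp).translate o
  rw [sub_add_cancel] at h1 h2
  rw [at'_union, at'_union, at'_at', at'_at'] at h1
  refine swap (nand_eqv α β) h1 h2 (att_of_sep hs ?_) (att_of_sep hs ?_)
  · intro c hc
    rw [Finset.mem_union, Finset.mem_union] at hc
    rcases hc with (hc | hc) | hc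
    · rw [mem_at'] at hc
      have h := gateS_box _ hc
      simp only [Prod.fst_sub, Prod.snd_sub] at h
      unfold Box
      omega
    · rw [mem_at'] at hc
      have h := litS_box α _ hc
      simp only [Prod.fst_sub, Prod.snd_sub, Prod.fst_add, Prod.snd_add] at h
      unfold Box
      omega
    · rw [mem_at'] at hc
      have h := litS_box β _ hc
      simp only [Prod.fst_sub, Prod.snd_sub, Prod.fst_add, Prod.snd_add] at h
      unfold Box
      omega
  · intro c hc
    exact box_at_lit _ (by omega) (by omega) hc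

theorem good_lit (β : Bool) : Good (at' (litS β)) 8 2 β 0 where
  hW := le_rfl
  hH := le_rfl
  box := fun _ _ hc => box_at_lit β le_rfl le_rfl hc
  eq := fun _ _ _ _ => (Nat.xor_zero _).symm

theorem good_inv {f : Cell → Finset Cell} {W H : ℤ} {β : Bool} {n : ℕ} (hf : Good f W H β n) :
    Good (fun o => at' invS o ∪ f (o + (7, 0))) (W + 7) H (!β) n := by
  have hW := hf.hW
  have hH := hf.hH
  refine ⟨by omega, hH, ?_, ?_⟩
  · intro o c hc
    rw [Finset.mem_union] at hc
    rcases hc with hc | hc
    · rw [mem_at'] at hc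
      have h := invS_box _ hc
      simp only [Prod.fst_sub, Prod.snd_sub] at h
      unfold Box
      omega
    · have h := hf.box _ c hc
      unfold Box at h
      simp only [Prod.fst_add, Prod.snd_add] at h
      unfold Box
      omega
  · intro o v C hs
    have h1 : C ∪ (at' invS o ∪ f (o + (7, 0))) = (C ∪ at' invS o) ∪ f (o + (7, 0)) :=
      (Finset.union_assoc _ _ _).symm
    have hsep : Sep (o + (7, 0)) (o + (6, 0)) (C ∪ at' invS o) W H := by
      obtain ⟨hv, hvo, hfar⟩ := hs
      refine ⟨?_, Or.inl ?_, ?_⟩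
      · rw [Finset.mem_union, mem_at', add_sub_cancel_left]
        right
        decide
      · rw [add_assoc]
        rfl
      · intro c hc hne
        rw [Finset.mem_union] at hc
        rcases hc with hc | hc
        · by_cases hcv : c = v
          · rcases hvo with h | h
            · rw [hcv, h]
              unfold Far
              simp only [Prod.fst_add, Prod.snd_add]
              omega
            · rw [hcv, h]
              unfold Far
              simp only [Prod.fst_add, Prod.snd_add]
              omega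
          · have h := hfar c hc hcv
            unfold Far at h ⊢
            simp only [Prod.fst_add, Prod.snd_add]
            omega
        · rw [mem_at'] at hc
          have h := invS_box _ hc
          simp only [Prod.fst_sub, Prod.snd_sub] at h
          obtain ⟨_, _, _, _, h5⟩ := h
          rcases h5 with h5 | h5
          · exact absurd (by rw [← h5, add_sub_cancel]) hne
          · unfold Far
            simp only [Prod.fst_add, Prod.snd_add]
            omega
    have h2 := hf.eq (o + (7, 0)) (o + (6, 0)) (C ∪ at' invS o) hsep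
    rw [h1, h2, Finset.union_assoc, inv_phys β (by omega) hH hs]

end Pool.Agent.CramNC
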