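import Pool.Agent.CramNC.Good

/-!
# Rows of inverters

Plan.  `wires_box`: induction on `k` (`invS_box`, `mem_at'`).  `mem_wires_last`: induction on `k`
(`(6, 0) ∈ invS`).  `good_wires`: show by induction on `k` that
`Good (fun o => wires k o ∪ at' (litS β) (o + (7 * k, 0))) (8 + 7 * k) 2 (if k even then β else !β) 0`
(`good_lit`, `good_inv`, and `(o + (7,0)) + (7 * k, 0) = o + (7 * (k+1), 0)`, `Finset.union_assoc`), or directly
by induction on `j` with two uses of `good_inv` (`!!β = β`).
-/

namespace Pool.Agent.CramNC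

/-- a row of `k` inverters -/
def wires : ℕ → Cell → Finset Cell
  | 0, _ => ∅
  | k + 1, o => at' invS o ∪ wires k (o + (7, 0))

theorem wires_box (k : ℕ) : ∀ o, ∀ c ∈ wires k o,
    o.1 ≤ c.1 ∧ o.2 ≤ c.2 ∧ c.2 ≤ o.2 + 2 ∧ (c = o + ((7 * k - 1 : ℤ), (0 : ℤ)) ∨ c.1 ≤ o.1 + 7 * k - 2) := by
  induction k with
  | zero =>
    intro o c hc
    simp [wires] at hc
  | succ k ih =>
    intro o c hc
    rw [wires, Finset.mem_union] at hc
    rcases hc with hc | hc
    · rw [mem_at'] at hc
      have h := invS_box _ hc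
      simp only [Prod.fst_sub, Prod.snd_sub] at h
      obtain ⟨h1, h2, h3, h4, h5⟩ := h
      refine ⟨by omega, by omega, by omega, ?_⟩
      push_cast
      rcases Nat.eq_zero_or_pos k with hk | hk
      · subst hk
        rcases h5 with h5 | h5
        · left
          have h6 : c = o + (6, 0) := by rw [← h5, add_sub_cancel]
          rw [h6]
          norm_num
        · right
          push_cast
          omega
      · right
        omega
    · obtain ⟨h1, h2, h3, h4⟩ := ih _ c hc
      simp only [Prod.fst_add, Prod.snd_add] at h1 h2 h3 h4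
      refine ⟨by omega, by omega, by omega, ?_⟩
      push_cast
      rcases h4 with h4 | h4
      · left
        rw [h4, add_assoc]
        congr 1
        ext
        · show (7 : ℤ) + (7 * k - 1) = 7 * (k + 1) - 1
          ring
        · rfl
      · right
        omega

theorem mem_wires_last (k : ℕ) (o : Cell) :
    o + ((7 * (k + 1) - 1 : ℤ), (0 : ℤ)) ∈ wires (k + 1) o := by
  induction k generalizing o with
  | zero =>
    rw [wires, Finset.mem_union]
    left
    rw [mem_at', add_sub_cancel_left]
    decide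
  | succ k ih =>
    rw [wires, Finset.mem_union]
    right
    have h := ih (o + (7, 0))
    have h1 : o + (7, 0) + ((7 * (k + 1) - 1 : ℤ), (0 : ℤ)) = o + ((7 * ((k + 1 : ℕ) + 1) - 1 : ℤ), (0 : ℤ)) := by
      rw [add_assoc]
      congr 1
      ext
      · show (7 : ℤ) + (7 * (k + 1) - 1) = 7 * ((k + 1 : ℕ) + 1) - 1
        push_cast
        ring
      · rfl
    rwa [h1] at h

/-- a row of an even number of inverters with a literal at its end behaves like the literal -/
theorem good_wires (j : ℕ) (β : Bool) :
    Good (fun o => wires (2 * j) o ∪ at' (litS β) (o + ((14 * j : ℤ), (0 : ℤ))))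
      (8 + 14 * j) 2 β 0 := by
  induction j with
  | zero =>
    have h : (fun o => wires (2 * 0) o ∪ at' (litS β) (o + ((14 * (0 : ℕ) : ℤ), (0 : ℤ)))) = at' (litS β) := by
      funext o
      have h1 : o + ((14 * (0 : ℕ) : ℤ), (0 : ℤ)) = o := by
        ext
        · simp
        · simp
      rw [h1]
      simp [wires]
    rw [h]
    simpa using good_lit β
  | succ j ih =>
    have h1 := good_inv (good_inv ih)
    rw [Bool.not_not] at h1
    have h2 : (8 : ℤ) + 14 * (j + 1 : ℕ) = 8 + 14 * j + 7 + 7 := by push_cast; ring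
    have h3 : (fun o => wires (2 * (j + 1)) o ∪ at' (litS β) (o + ((14 * (j + 1 : ℕ) : ℤ), (0 : ℤ)))) =
        (fun o => at' invS o ∪ (at' invS (o + (7, 0)) ∪
          (wires (2 * j) (o + (7, 0) + (7, 0)) ∪ at' (litS β) (o + (7, 0) + (7, 0) + ((14 * j : ℤ), (0 : ℤ)))))) := by
      funext o
      have h4 : o + (7, 0) + (7, 0) + ((14 * j : ℤ), (0 : ℤ)) = o + ((14 * (j + 1 : ℕ) : ℤ), (0 : ℤ)) := by
        rw [add_assoc, add_assoc]
        congr 1
        ext
        · show (7 : ℤ) + (7 + 14 * j) = 14 * (j + 1 : ℕ)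
          push_cast
          ring
        · rfl
      rw [h4]
      have h5 : wires (2 * (j + 1)) o = at' invS o ∪ (at' invS (o + (7, 0)) ∪ wires (2 * j) (o + (7, 0) + (7, 0))) := rfl
      rw [h5, Finset.union_assoc, Finset.union_assoc]
    rw [h2, h3]
    exact h1

end Pool.Agent.CramNC
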