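import Pool.Agent.CramNC.Tiles
import Pool.Agent.CramNC.Wires

/-!
# The boards are forests
-/

namespace Pool.Agent.CramNC

/-- Every nonempty subset of `S` has a cell with at most one neighbour in the subset: the adjacency
graph of `S` has no cycle. -/
def IsForest (S : Finset Cell) : Prop :=
  ∀ T ⊆ S, T.Nonempty → ∃ c ∈ T, (T.filter (fun d => Adj c d)).card ≤ 1

/-- the same, counting also the cell `v` -/
def Hang (v : Cell) (S : Finset Cell) : Prop :=
  ∀ T ⊆ S, T.Nonempty → ∃ c ∈ T, ((insert v T).filter (fun d => Adj c d)).card ≤ 1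

theorem Hang.forest {v : Cell} {S : Finset Cell} (h : Hang v S) : IsForest S := by
  intro T hT hne
  obtain ⟨c, hc, h1⟩ := h T hT hne
  refine ⟨c, hc, le_trans (Finset.card_le_card ?_) h1⟩
  exact Finset.filter_subset_filter _ (Finset.subset_insert _ _)

theorem hang_glue {v u : Cell} {A B : Finset Cell} (hA : Hang v A) (hB : Hang u B)
    (hn : ∀ b ∈ B, ∀ a ∈ insert v A, a ≠ u → ¬ Adj b a) : Hang v (A ∪ B) := by
  intro T hT hne
  by_cases hTB : (T ∩ B).Nonempty
  · obtain ⟨c, hc, h1⟩ := hB (T ∩ B) Finset.inter_subset_right hTB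
    have hcT := (Finset.mem_inter.1 hc).1
    have hcB := (Finset.mem_inter.1 hc).2
    refine ⟨c, hcT, le_trans (Finset.card_le_card ?_) h1⟩
    intro d hd
    rw [Finset.mem_filter] at hd ⊢
    refine ⟨?_, hd.2⟩
    by_cases hdu : d = u
    · exact hdu ▸ Finset.mem_insert_self _ _
    · refine Finset.mem_insert_of_mem ?_
      rcases Finset.mem_insert.1 hd.1 with h | h
      · exact absurd hd.2 (hn c hcB d (h ▸ Finset.mem_insert_self _ _) hdu)
      · rcases Finset.mem_union.1 (hT h) with h' | h'
        · exact absurd hd.2 (hn c hcB d (Finset.mem_insert_of_mem h') hdu)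
        · exact Finset.mem_inter.2 ⟨h, h'⟩
  · have hTA : T ⊆ A := by
      intro t ht
      rcases Finset.mem_union.1 (hT ht) with h | h
      · exact h
      · exact absurd ⟨t, Finset.mem_inter.2 ⟨ht, h⟩⟩ hTB
    exact hA T hTA hne

theorem real_hang {v : Cell} {S : Finset Cell} {f : F} (h : Real v S f) : Hang v S := by
  induction h with
  | nil v =>
    intro T hT hne
    exact absurd (Finset.subset_empty.1 hT) hne.ne_empty
  | up v r S f hvr hr hv hS h ih =>
    have h1 : Hang v {r} := by
      intro T hT hne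
      obtain ⟨c, hc⟩ := hne
      refine ⟨c, hc, ?_⟩
      have hcr : c = r := Finset.mem_singleton.1 (hT hc)
      subst hcr
      refine le_trans (Finset.card_le_card (t := {v}) ?_) (by simp)
      intro d hd
      rw [Finset.mem_filter, Finset.mem_insert] at hd
      rcases hd.1 with h' | h'
      · simpa using h'
      · have := Finset.mem_singleton.1 (hT h')
        exact absurd this.symm hd.2.ne
    have := hang_glue h1 ih (by
      intro b hb a ha hau hadj
      rcases Finset.mem_insert.1 ha with h' | h'
      · exact hS b hb (h' ▸ hadj.symm)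
      · exact hau (Finset.mem_singleton.1 h'))
    rwa [Finset.insert_eq]
  | app v S₁ S₂ a b hd hn h₁ h₂ ih₁ ih₂ =>
    refine hang_glue ih₁ ih₂ ?_
    intro b' hb a' ha hau hadj
    rcases Finset.mem_insert.1 ha with h' | h'
    · exact hau h'
    · exact hn a' h' b' hb hadj.symm

theorem at'_image (S : Finset Cell) (o : Cell) : at' (at' S o) (-o) = S := by
  rw [at'_at']
  ext c
  simp [mem_at']

theorem IsForest.at' {S : Finset Cell} (h : IsForest S) (o : Cell) : IsForest (at' S o) := by
  intro T hT hne
  have hsub : CramNC.at' T (-o) ⊆ S := by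
    intro c hc
    rw [mem_at'] at hc
    have := hT hc
    rw [mem_at'] at this
    simpa using this
  obtain ⟨t, ht⟩ := hne
  obtain ⟨c, hc, h1⟩ := h (CramNC.at' T (-o)) hsub ⟨t - o, by rw [mem_at']; simpa using ht⟩
  rw [mem_at'] at hc
  refine ⟨c + o, by simpa using hc, le_trans ?_ h1⟩
  refine Finset.card_le_card_of_injOn (fun d => d - o) ?_ ?_
  · intro d hd
    rw [Finset.mem_coe, Finset.mem_filter] at hd ⊢
    refine ⟨by rw [mem_at']; simpa using hd.1, ?_⟩
    have := hd.2
    have h2 := adj_add c (d - o) o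
    rw [sub_add_cancel] at h2
    exact h2.1 this
  · intro a _ b _ hab
    simpa using hab

/-- the positioned tiles alone (needed: they hang at their port) -/
theorem hang_lit {v : Cell} (hv : Port v) (β : Bool) : Hang v (litS β) := real_hang (real_lit β hv)

private def l' (r : Cell) : PF := PF.up r PF.nil
private def n1' (r : Cell) (x : PF) : PF := PF.up r (PF.app x PF.nil)
private def n2' (r : Cell) (x y : PF) : PF := PF.up r (PF.app x (PF.app y PF.nil))

private def invPF : PF :=
  n2' (0, 0) (n1' (0, 1) (n1' (0, 2) (l' (1, 2))))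
    (n1' (1, 0) (n2' (2, 0) (l' (2, 1)) (n1' (3, 0) (n1' (4, 0) (n1' (5, 0) (l' (6, 0)))))))

private def gatePF : PF :=
  n2' (0, 0) (n1' (0, 1) (n2' (0, 2) (l' (1, 2)) (l' (0, 3))))
    (n1' (1, 0) (n2' (2, 0) (l' (2, 1)) (n1' (3, 0) (n1' (4, 0) (n1' (5, 0) (l' (6, 0)))))))

theorem hang_inv {v : Cell} (hv : Port v) : Hang v invS := by
  have h1 : invPF.cells = invS := by decide +kernel
  rw [← h1]
  rcases hv with rfl | rfl
  · exact real_hang (PF.ok_real (by decide +kernel))
  · exact real_hang (PF.ok_real (by decide +kernel))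

theorem hang_gate {v : Cell} (hv : Port v) : Hang v gateS := by
  have h1 : gatePF.cells = gateS := by decide +kernel
  rw [← h1]
  rcases hv with rfl | rfl
  · exact real_hang (PF.ok_real (by decide +kernel))
  · exact real_hang (PF.ok_real (by decide +kernel))

theorem Hang.at' {v : Cell} {S : Finset Cell} (h : Hang v S) (o : Cell) :
    Hang (v + o) (at' S o) := by
  intro T hT hne
  have hsub : CramNC.at' T (-o) ⊆ S := by
    intro c hc
    rw [mem_at'] at hc
    have := hT hc
    rw [mem_at'] at this
    simpa using this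
  obtain ⟨t, ht⟩ := hne
  obtain ⟨c, hc, h1⟩ := h (CramNC.at' T (-o)) hsub ⟨t - o, by rw [mem_at']; simpa using ht⟩
  rw [mem_at'] at hc
  refine ⟨c + o, by simpa using hc, le_trans ?_ h1⟩
  refine Finset.card_le_card_of_injOn (fun d => d - o) ?_ ?_
  · intro d hd
    rw [Finset.mem_coe, Finset.mem_filter] at hd ⊢
    refine ⟨?_, ?_⟩
    · rcases Finset.mem_insert.1 hd.1 with h' | h'
      · rw [h']; simp
      · refine Finset.mem_insert_of_mem ?_
        rw [mem_at']; simpa using h'
    · have := hd.2
      have h2 := adj_add c (d - o) o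
      rw [sub_add_cancel] at h2
      exact h2.1 this
  · intro a _ b _ hab
    simpa using hab

end Pool.Agent.CramNC
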