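import Pool.Agent.CramNC.LayDef

/-!
# Bounds, uniqueness of labels, translation of formulas

Plan.  `lay_box`: induction on `e` (`litS_box`, `invS_box`, `gateS_box`, `wires_box`, `mem_at'`, omega).
`lay_unique`: induction on `e`: two labelled cells from different parts of the union have different cells, by
the boxes (lit: the twelve cells have `c.1 ≤ 7` relative to `o` or decide; inv: `c.1 ≤ 6` against `c.1 ≥ 7`;
nand: gate (`c.1 ≤ 6`, `c.2 ≤ 3`), `a`: `c.2 ≥ 4`, `c.1 ≤ W a < 14 j`, wires: `7 ≤ c.1 ≤ 6 + 14 j`, `c.2 ≤ 2`,
`b`: `c.1 ≥ 7 + 14 j`); inside `const` both labels are `none`.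
`par_lt`: induction, decide.  `eval_ofFormula`: induction, cases on Booleans.
`W_le`, `H_le`: first `W e ≤ 40 * size e - 20`-like bound by induction on the formula directly, e.g.
`W (ofFormula φ) + 60 ≤ 100 * size φ` fails for the base case, so choose constants well:
`W (nand a b) ≤ 21 + W a + W b`, `W (inv a) = W a + 7`, var: 8; so `W (ofFormula φ) + 35 ≤ 100 * size φ` works:
var 43; neg +7; and: 7 + 21 + Wa + Wb + 35 ≤ 100 (sa + sb) - 70 + 63; or: 21 + 14 + ... the same.
-/

namespace Pool.Agent.CramNC

private theorem LayBox_const {n : ℕ} {T : Finset Cell} {p : Cell × Label n} (h : p ∈ E.const T) :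
    p.1 ∈ T ∧ p.2 = none := by
  unfold E.const at h
  rw [Finset.mem_image] at h
  obtain ⟨c, hc, rfl⟩ := h
  exact ⟨hc, rfl⟩

private theorem LayBox_size {n : ℕ} (e : E n) : 8 ≤ e.W ∧ 2 ≤ e.H := by
  induction e with
  | lit i b => exact ⟨le_rfl, le_rfl⟩
  | inv a ih => exact ⟨by simp only [E.W]; omega, ih.2⟩
  | nand a b iha ihb =>
    refine ⟨by simp only [E.W]; omega, ?_⟩
    exact ihb.2.trans (le_max_right _ _)

theorem lay_box {n : ℕ} (e : E n) : ∀ o, ∀ p ∈ e.lay o, Box o e.W e.H p.1 := by
  induction e with
  | lit i b =>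
    intro o p hp
    simp only [E.lay, Finset.mem_union, Finset.mem_singleton] at hp
    rcases hp with hp | rfl
    · have h := box_at_lit (W := 8) (H := 2) true le_rfl le_rfl (LayBox_const hp).1
      simpa only [E.W, E.H, Nat.cast_ofNat] using h
    · unfold Box
      simp only [E.W, E.H, Prod.fst_add, Prod.snd_add]
      omega
  | inv a ih =>
    intro o p hp
    have hs := LayBox_size a
    simp only [E.lay, Finset.mem_union] at hp
    rcases hp with hp | hp
    · have h1 := (LayBox_const hp).1
      rw [mem_at'] at h1
      have h := invS_box _ h1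
      simp only [Prod.fst_sub, Prod.snd_sub] at h
      unfold Box
      simp only [E.W, E.H]
      omega
    · have h := ih _ _ hp
      unfold Box at h ⊢
      simp only [E.W, E.H, Prod.fst_add, Prod.snd_add] at h ⊢
      omega
  | nand a b iha ihb =>
    intro o p hp
    have hsa := LayBox_size a
    have hsb := LayBox_size b
    simp only [E.lay, Finset.mem_union] at hp
    have hj : a.W < 14 * (a.W / 14 + 1) := by omega
    have hW : (E.nand a b).W = 7 + 14 * (a.W / 14 + 1) + b.W := rfl
    have hH : (E.nand a b).H = max (a.H + 4) b.H := rfl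
    have hH1 : a.H + 4 ≤ (E.nand a b).H := hH ▸ le_max_left _ _
    have hH2 : b.H ≤ (E.nand a b).H := hH ▸ le_max_right _ _
    rw [hW]
    generalize (E.nand a b).H = H at *
    generalize a.W / 14 + 1 = j at *
    rcases hp with ((hp | hp) | hp) | hp
    · have h1 := (LayBox_const hp).1
      rw [mem_at'] at h1
      have h := gateS_box _ h1
      simp only [Prod.fst_sub, Prod.snd_sub] at h
      unfold Box
      omega
    · have h := iha _ _ hp
      unfold Box at h ⊢
      simp only [Prod.fst_add, Prod.snd_add] at h ⊢
      omega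
    · have h := wires_box _ _ _ (LayBox_const hp).1
      obtain ⟨h1, h2, h3, h4⟩ := h
      unfold Box
      simp only [Prod.fst_add, Prod.snd_add] at h1 h2 h3
      rcases h4 with h4 | h4
      · rw [h4] at h1 h2 h3 ⊢
        simp only [Prod.fst_add, Prod.snd_add] at h1 h2 h3 ⊢
        push_cast at *
        omega
      · simp only [Prod.fst_add] at h4
        push_cast at *
        omega
    · have h := ihb _ _ hp
      unfold Box at h ⊢
      simp only [Prod.fst_add, Prod.snd_add] at h ⊢
      omega

/-- every cell has only one label -/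
theorem lay_unique {n : ℕ} (e : E n) : ∀ o, ∀ p ∈ e.lay o, ∀ q ∈ e.lay o, p.1 = q.1 → p = q := by
  induction e with
  | lit i b =>
    intro o p hp q hq hpq
    have h8 : o + (8, 0) ∉ at' (litS true) o := by
      rw [mem_at', add_sub_cancel_left]
      decide
    simp only [E.lay, Finset.mem_union, Finset.mem_singleton] at hp hq
    rcases hp with hp | hp <;> rcases hq with hq | hq
    · exact Prod.ext hpq ((LayBox_const hp).2.trans (LayBox_const hq).2.symm)
    · exfalso
      have h1 := (LayBox_const hp).1
      rw [hpq, hq] at h1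
      exact h8 h1
    · exfalso
      have h1 := (LayBox_const hq).1
      rw [← hpq, hp] at h1
      exact h8 h1
    · rw [hp, hq]
  | inv a ih =>
    intro o p hp q hq hpq
    have key : ∀ p ∈ (E.inv a).lay o, (p.2 = none ∧ p.1.1 ≤ o.1 + 6) ∨
        (p ∈ a.lay (o + (7, 0)) ∧ o.1 + 7 ≤ p.1.1) := by
      intro p hp
      simp only [E.lay, Finset.mem_union] at hp
      rcases hp with hp | hp
      · left
        have h1 := LayBox_const hp
        rw [mem_at'] at h1
        have h := invS_box _ h1.1
        simp only [Prod.fst_sub, Prod.snd_sub] at h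
        exact ⟨h1.2, by omega⟩
      · right
        have h := lay_box a _ _ hp
        unfold Box at h
        simp only [Prod.fst_add, Prod.snd_add] at h
        exact ⟨hp, by omega⟩
    have e1 : p.1.1 = q.1.1 := by rw [hpq]
    rcases key p hp with h1 | h1 <;> rcases key q hq with h2 | h2
    · exact Prod.ext hpq (h1.1.trans h2.1.symm)
    · exfalso; omega
    · exfalso; omega
    · exact ih _ _ h1.1 _ h2.1 hpq
  | nand a b iha ihb =>
    intro o p hp q hq hpq
    have hj : a.W < 14 * (a.W / 14 + 1) := by omega
    have key : ∀ p ∈ (E.nand a b).lay o,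
        (p.2 = none ∧ p.1.1 ≤ o.1 + 6 ∧ p.1.2 ≤ o.2 + 3) ∨
        (p ∈ a.lay (o + (0, 4)) ∧ o.2 + 4 ≤ p.1.2 ∧ p.1.1 ≤ o.1 + a.W) ∨
        (p.2 = none ∧ p.1.1 ≤ o.1 + 6 + 14 * (a.W / 14 + 1 : ℕ) ∧ p.1.2 ≤ o.2 + 2) ∨
        (p ∈ b.lay (o + ((7 + 14 * ((a.W / 14 + 1 : ℕ) : ℤ) : ℤ), (0 : ℤ))) ∧
          o.1 + 7 + 14 * (a.W / 14 + 1 : ℕ) ≤ p.1.1) := by
      intro p hp
      simp only [E.lay, Finset.mem_union] at hp
      generalize a.W / 14 + 1 = j at *
      rcases hp with ((hp | hp) | hp) | hp
      · left
        have h1 := LayBox_const hp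
        rw [mem_at'] at h1
        have h := gateS_box _ h1.1
        simp only [Prod.fst_sub, Prod.snd_sub] at h
        exact ⟨h1.2, by omega, by omega⟩
      · right; left
        have h := lay_box a _ _ hp
        unfold Box at h
        simp only [Prod.fst_add, Prod.snd_add] at h
        exact ⟨hp, by omega, by omega⟩
      · right; right; left
        have h0 := LayBox_const hp
        obtain ⟨h1, h2, h3, h4⟩ := wires_box _ _ _ h0.1
        simp only [Prod.fst_add, Prod.snd_add] at h1 h2 h3
        refine ⟨h0.2, ?_, by omega⟩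
        rcases h4 with h4 | h4
        · rw [h4]
          simp only [Prod.fst_add]
          push_cast
          omega
        · simp only [Prod.fst_add] at h4
          push_cast at h4
          omega
      · right; right; right
        have h := lay_box b _ _ hp
        unfold Box at h
        simp only [Prod.fst_add, Prod.snd_add] at h
        exact ⟨hp, by omega⟩
    have e1 : p.1.1 = q.1.1 := by rw [hpq]
    have e2 : p.1.2 = q.1.2 := by rw [hpq]
    have kp := key p hp
    have kq := key q hq
    clear key hp hq
    rcases kp with h1 | h1 | h1 | h1 <;> rcases kq with h2 | h2 | h2 | h2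
    · exact Prod.ext hpq (h1.1.trans h2.1.symm)
    · exfalso; omega
    · exact Prod.ext hpq (h1.1.trans h2.1.symm)
    · exfalso; omega
    · exfalso; omega
    · exact iha _ _ h1.1 _ h2.1 hpq
    · exfalso; omega
    · exfalso; omega
    · exact Prod.ext hpq (h1.1.trans h2.1.symm)
    · exfalso; omega
    · exact Prod.ext hpq (h1.1.trans h2.1.symm)
    · exfalso; omega
    · exfalso; omega
    · exfalso; omega
    · exfalso; omega
    · exact ihb _ _ h1.1 _ h2.1 hpq

theorem par_lt {n : ℕ} (e : E n) : e.par = 0 ∨ e.par = 1 := by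
  induction e with
  | lit i b => exact Or.inl rfl
  | inv a ih => exact ih
  | nand a b iha ihb =>
    have h : (E.nand a b).par = a.par ^^^ b.par ^^^ 1 := rfl
    rw [h]
    rcases iha with ha | ha <;> rcases ihb with hb | hb <;> rw [ha, hb] <;> decide

theorem eval_ofFormula {n : ℕ} (x : Fin n → Bool) (φ : Formula n) :
    (E.ofFormula φ).eval x = φ.eval x := by
  induction φ with
  | var i => simp [E.ofFormula, E.eval, Formula.eval]
  | neg a ih => simp [E.ofFormula, E.eval, Formula.eval, ih]
  | and a b iha ihb => simp [E.ofFormula, E.eval, Formula.eval, iha, ihb]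
  | or a b iha ihb => simp [E.ofFormula, E.eval, Formula.eval, iha, ihb]

private theorem LayBox_W {n : ℕ} (φ : Formula n) : (E.ofFormula φ).W + 35 ≤ 100 * φ.size := by
  induction φ with
  | var i => simp [E.ofFormula, E.W, Formula.size]
  | neg a ih =>
    simp only [E.ofFormula, E.W, Formula.size]
    omega
  | and a b iha ihb =>
    simp only [E.ofFormula, E.W, Formula.size]
    omega
  | or a b iha ihb =>
    simp only [E.ofFormula, E.W, Formula.size]
    omega

theorem W_le {n : ℕ} (φ : Formula n) : (E.ofFormula φ).W ≤ 100 * φ.size := by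
  have := LayBox_W φ
  omega

theorem H_le {n : ℕ} (φ : Formula n) : (E.ofFormula φ).H ≤ 100 * φ.size := by
  induction φ with
  | var i => simp [E.ofFormula, E.H, Formula.size]
  | neg a ih =>
    simp only [E.ofFormula, E.H, Formula.size]
    omega
  | and a b iha ihb =>
    simp only [E.ofFormula, E.H, Formula.size]
    exact max_le (by omega) (by omega)
  | or a b iha ihb =>
    simp only [E.ofFormula, E.H, Formula.size]
    exact max_le (by omega) (by omega)

end Pool.Agent.CramNC
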