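import Pool.Agent.CramNC.Nand

/-!
# Boolean formulas and their boards
-/

namespace Pool.Agent.CramNC

/-- Boolean formulas in the variables `x_0, …, x_{n-1}`. -/
inductive Formula (n : ℕ) : Type
  | var : Fin n → Formula n
  | neg : Formula n → Formula n
  | and : Formula n → Formula n → Formula n
  | or : Formula n → Formula n → Formula n

namespace Formula

/-- truth value -/
def eval {n : ℕ} (x : Fin n → Bool) : Formula n → Bool
  | var i => x i
  | neg a => !(eval x a)
  | and a b => eval x a && eval x b
  | or a b => eval x a || eval x b

/-- number of nodes -/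
def size {n : ℕ} : Formula n → ℕ
  | var _ => 1
  | neg a => size a + 1
  | and a b => size a + size b + 1
  | or a b => size a + size b + 1

end Formula

/-- A label of a cell: `none` = the cell always belongs to the board; `some (i, b)` = it belongs to
the board iff `x i = b`. -/
abbrev Label (n : ℕ) := Option (Fin n × Bool)

/-- the cell is selected by the input `x` -/
def Label.holds {n : ℕ} (x : Fin n → Bool) : Label n → Bool
  | none => true
  | some (i, b) => x i == b

/-- formulas with NAND gates, inverters and literals -/
inductive E (n : ℕ) : Type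
  | lit : Fin n → Bool → E n
  | inv : E n → E n
  | nand : E n → E n → E n

namespace E

def eval {n : ℕ} (x : Fin n → Bool) : E n → Bool
  | lit i b => x i == b
  | inv a => !(eval x a)
  | nand a b => !(eval x a && eval x b)

def size {n : ℕ} : E n → ℕ
  | lit _ _ => 1
  | inv a => size a + 1
  | nand a b => size a + size b + 1

/-- width of the board -/
def W {n : ℕ} : E n → ℕ
  | lit _ _ => 8
  | inv a => W a + 7
  | nand a b => 7 + 14 * (W a / 14 + 1) + W b

/-- height of the board -/
def H {n : ℕ} : E n → ℕ
  | lit _ _ => 2
  | inv a => H a
  | nand a b => max (H a + 4) (H b)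

/-- parity of the number of NAND gates -/
def par {n : ℕ} : E n → ℕ
  | lit _ _ => 0
  | inv a => par a
  | nand a b => par a ^^^ par b ^^^ 1

/-- translation of Boolean formulas -/
def ofFormula {n : ℕ} : Formula n → E n
  | Formula.var i => lit i true
  | Formula.neg a => inv (ofFormula a)
  | Formula.and a b => inv (nand (ofFormula a) (ofFormula b))
  | Formula.or a b => nand (inv (ofFormula a)) (inv (ofFormula b))

/-- cells that are always present -/
def const {n : ℕ} (T : Finset Cell) : Finset (Cell × Label n) := T.image (fun c => (c, none))

/-- **The labelled board** of `e`, rooted at `o`. -/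
def lay {n : ℕ} : E n → Cell → Finset (Cell × Label n)
  | lit i b, o => const (at' (litS true) o) ∪ {(o + (8, 0), some (i, !b))}
  | inv a, o => const (at' invS o) ∪ lay a (o + (7, 0))
  | nand a b, o => const (at' gateS o) ∪ lay a (o + (0, 4)) ∪
      const (wires (2 * (W a / 14 + 1)) (o + (7, 0))) ∪
      lay b (o + ((7 + 14 * ((W a / 14 + 1 : ℕ) : ℤ) : ℤ), (0 : ℤ)))

end E

/-- the board selected by the input `x` -/
def sel {n : ℕ} (x : Fin n → Bool) (L : Finset (Cell × Label n)) : Finset Cell :=
  (L.filter (fun p => p.2.holds x = true)).image Prod.fst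

theorem sel_union {n : ℕ} (x : Fin n → Bool) (L L' : Finset (Cell × Label n)) :
    sel x (L ∪ L') = sel x L ∪ sel x L' := by
  simp [sel, Finset.filter_union, Finset.image_union]

end Pool.Agent.CramNC
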