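import Pool.Agent.CramNC.LayDef

/-!
# The boards of expressions are good

Plan.  `sel_const`: ext; simp [sel, E.const, Label.holds].  `good_lay`: induction on `e`, show that the board
function equals the one of `good_lit`, `good_inv`, `good_nand` (`funext`, `sel_union`, `sel_const`):
 lit: `sel x (const (at' (litS true) o) ∪ {(o + (8,0), some (i, !b))}) = at' (litS (x i == b)) o`
 (`mem_at'`, cases on `b`, `x i`); nand: `hj : (W a : ℤ) < 14 * (W a / 14 + 1 : ℕ)` by omega; casts `push_cast`.
-/

namespace Pool.Agent.CramNC

theorem sel_const {n : ℕ} (x : Fin n → Bool) (T : Finset Cell) : sel x (E.const T) = T := by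
  ext c
  simp only [sel, E.const, Finset.mem_image, Finset.mem_filter]
  constructor
  · rintro ⟨p, ⟨⟨a, ha, rfl⟩, -⟩, rfl⟩
    exact ha
  · intro h
    exact ⟨(c, none), ⟨⟨c, h, rfl⟩, rfl⟩, rfl⟩

private theorem sel_single {n : ℕ} (x : Fin n → Bool) (c : Cell) (i : Fin n) (b : Bool) :
    sel x {(c, some (i, !b))} = if (x i == b) = true then ∅ else {c} := by
  ext d
  cases b <;> cases h : x i <;> simp [sel, Label.holds, Finset.filter_singleton, h]

private theorem litS_split (β : Bool) : litS β = litS true ∪ (if β = true then ∅ else {(8, 0)}) := by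
  cases β <;> decide

private theorem at'_if (β : Bool) (o : Cell) :
    at' (if β = true then ∅ else {((8 : ℤ), (0 : ℤ))}) o = if β = true then ∅ else {o + (8, 0)} := by
  ext c
  cases β
  · simp only [mem_at', Bool.false_eq_true, if_false, Finset.mem_singleton]
    constructor
    · intro h
      rw [← h]
      abel
    · rintro rfl
      abel
  · simp [mem_at']

theorem good_lay {n : ℕ} (x : Fin n → Bool) (e : E n) :
    Good (fun o => sel x (e.lay o)) e.W e.H (e.eval x) e.par := by
  induction e with
  | lit i b =>
    have hf : (fun o => sel x ((E.lit i b).lay o)) = at' (litS (x i == b)) := by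
      funext o
      rw [litS_split (x i == b), at'_union, at'_if]
      simp only [E.lay]
      rw [sel_union, sel_const, sel_single]
    rw [hf]
    have := good_lit (x i == b)
    simpa [E.W, E.H, E.eval, E.par] using this
  | inv a ih =>
    have hf : (fun o => sel x ((E.inv a).lay o)) =
        fun o => at' invS o ∪ (fun o => sel x (a.lay o)) (o + (7, 0)) := by
      funext o
      simp only [E.lay]
      rw [sel_union, sel_const]
    rw [hf]
    have := good_inv ih
    simpa [E.W, E.H, E.eval, E.par] using this
  | nand a b iha ihb =>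
    have hj : (a.W : ℤ) < 14 * ((a.W / 14 + 1 : ℕ) : ℤ) := by
      have : a.W < 14 * (a.W / 14 + 1) := by omega
      exact_mod_cast this
    have hf : (fun o => sel x ((E.nand a b).lay o)) =
        fun o => at' gateS o ∪ (fun o => sel x (a.lay o)) (o + (0, 4)) ∪
          wires (2 * (a.W / 14 + 1)) (o + (7, 0)) ∪
          (fun o => sel x (b.lay o)) (o + ((7 + 14 * ((a.W / 14 + 1 : ℕ) : ℤ) : ℤ), (0 : ℤ))) := by
      funext o
      simp only [E.lay]
      rw [sel_union, sel_union, sel_union, sel_const, sel_const]
    rw [hf]
    have := good_nand iha ihb hj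
    have hW : ((E.nand a b).W : ℤ) = 7 + 14 * ((a.W / 14 + 1 : ℕ) : ℤ) + (b.W : ℤ) := by
      simp only [E.W]
      push_cast
      ring
    have hH : ((E.nand a b).H : ℤ) = max ((a.H : ℤ) + 4) (b.H : ℤ) := by
      simp only [E.H]
      push_cast
      rfl
    rw [hW, hH]
    exact this

end Pool.Agent.CramNC
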