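import Pool.Agent.CramNC.Hang
import Pool.Agent.CramNC.LayBox
import Pool.Agent.CramNC.Extra

/-!
# The boards are forests (layout)
-/

namespace Pool.Agent.CramNC

theorem not_adj_of {p q : Cell} (h : p.1 + 2 ≤ q.1 ∨ q.1 + 2 ≤ p.1 ∨ p.2 + 2 ≤ q.2 ∨ q.2 + 2 ≤ p.2) :
    ¬ Adj p q := by
  intro hadj
  unfold Adj at hadj
  rcases abs_cases (p.1 - q.1) with ⟨h1, _⟩ | ⟨h1, _⟩ <;>
    rcases abs_cases (p.2 - q.2) with ⟨h2, _⟩ | ⟨h2, _⟩ <;> omega

theorem hang_wires (k : ℕ) : ∀ o : Cell, Hang (o + (-1, 0)) (wires k o) := by
  induction k with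
  | zero =>
    intro o T hT hne
    exact absurd (Finset.subset_empty.1 hT) hne.ne_empty
  | succ k ih =>
    intro o
    have h1 : Hang (o + (-1, 0)) (at' invS o) := by
      have := (hang_inv (v := (-1, 0)) (Or.inl rfl)).at' o
      rwa [add_comm] at this
    have h2 := ih (o + (7, 0))
    refine hang_glue (u := o + (7, 0) + (-1, 0)) h1 h2 ?_
    intro b hb a ha hau
    have hb' := wires_box k (o + (7, 0)) b hb
    simp only [Prod.fst_add, Prod.snd_add] at hb'
    apply not_adj_of
    rcases Finset.mem_insert.1 ha with rfl | ha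
    · simp only [Prod.fst_add, Prod.snd_add]; omega
    · rw [mem_at'] at ha
      have ha' := invS_box _ ha
      simp only [Prod.fst_sub, Prod.snd_sub] at ha'
      have hne : a - o ≠ (6, 0) := by
        intro h; apply hau
        have : a = (6, 0) + o := by rw [← h]; simp
        rw [this]
        ext <;> simp <;> ring
      rcases ha' with ⟨_, _, _, _, h | h⟩
      · exact absurd h hne
      · omega

theorem image_fst_const {n : ℕ} (T : Finset Cell) :
    (E.const T : Finset (Cell × Label n)).image Prod.fst = T := by
  rw [E.const, Finset.image_image]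
  exact Finset.image_id

theorem lay_hang {n : ℕ} (e : E n) : ∀ o v : Cell, (v = o + (-1, 0) ∨ v = o + (0, -1)) →
    Hang v ((e.lay o).image Prod.fst) := by
  induction e with
  | lit i b =>
    intro o v hv
    have h1 : ((E.lit i b).lay o).image Prod.fst = at' (litS false) o := by
      simp only [E.lay, Finset.image_union, image_fst_const, Finset.image_singleton]
      have h2 : litS false = litS true ∪ {(8, 0)} := by decide
      rw [h2, at'_union]
      congr 1
      ext c
      rw [mem_at']
      simp only [Finset.mem_singleton]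
      constructor
      · rintro rfl; simp
      · intro h; rw [← h]; simp
    rw [h1]
    rcases hv with rfl | rfl
    · have := (hang_lit (v := (-1, 0)) (Or.inl rfl) false).at' o
      rwa [add_comm] at this
    · have := (hang_lit (v := (0, -1)) (Or.inr rfl) false).at' o
      rwa [add_comm] at this
  | inv a ih =>
    intro o v hv
    simp only [E.lay, Finset.image_union, image_fst_const]
    have h1 : Hang v (at' invS o) := by
      rcases hv with rfl | rfl
      · have := (hang_inv (v := (-1, 0)) (Or.inl rfl)).at' o
        rwa [add_comm] at this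
      · have := (hang_inv (v := (0, -1)) (Or.inr rfl)).at' o
        rwa [add_comm] at this
    refine hang_glue (u := o + (7, 0) + (-1, 0)) h1 (ih _ _ (Or.inl rfl)) ?_
    intro b hb a' ha hau
    obtain ⟨q, hq, rfl⟩ := Finset.mem_image.1 hb
    have hb' := lay_box a _ q hq
    simp only [Box, Prod.fst_add, Prod.snd_add] at hb'
    apply not_adj_of
    rcases Finset.mem_insert.1 ha with rfl | ha
    · rcases hv with h | h <;> rw [h] <;> simp only [Prod.fst_add, Prod.snd_add] <;> omega
    · rw [mem_at'] at ha
      have ha' := invS_box _ ha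
      simp only [Prod.fst_sub, Prod.snd_sub] at ha'
      have hne : a' - o ≠ (6, 0) := by
        intro h; apply hau
        have : a' = (6, 0) + o := by rw [← h]; simp
        rw [this]
        ext <;> simp <;> ring
      rcases ha' with ⟨_, _, _, _, h | h⟩
      · exact absurd h hne
      · omega
  | nand a b iha ihb =>
    intro o v hv
    simp only [E.lay, Finset.image_union, image_fst_const]
    set j : ℕ := E.W a / 14 + 1 with hj
    have hWa : (E.W a : ℤ) < 14 * j := by omega
    have h1 : Hang v (at' gateS o) := by
      rcases hv with rfl | rfl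
      · have := (hang_gate (v := (-1, 0)) (Or.inl rfl)).at' o
        rwa [add_comm] at this
      · have := (hang_gate (v := (0, -1)) (Or.inr rfl)).at' o
        rwa [add_comm] at this
    have hgate : ∀ c ∈ insert v (at' gateS o), (c.1 ≤ o.1 + 6 ∧ c.2 ≤ o.2 + 3) ∧
        (c = o + (6, 0) ∨ c.1 ≤ o.1 + 5) ∧ (c = o + (0, 3) ∨ c.2 ≤ o.2 + 2) := by
      intro c hc
      rcases Finset.mem_insert.1 hc with rfl | hc
      · rcases hv with h | h <;> rw [h] <;> simp only [Prod.fst_add, Prod.snd_add] <;>
          refine ⟨by omega, Or.inr (by omega), Or.inr (by omega)⟩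
      · rw [mem_at'] at hc
        obtain ⟨h1, h2, h3, h4, h5, h6⟩ := gateS_box _ hc
        simp only [Prod.fst_sub, Prod.snd_sub] at h1 h2 h3 h4 h5 h6
        refine ⟨by omega, ?_, ?_⟩
        · rcases h5 with h | h
          · left; rw [← h]; simp
          · right; omega
        · rcases h6 with h | h
          · left; rw [← h]; simp
          · right; omega
    have ha1 : Hang v (at' gateS o ∪ (a.lay (o + (0, 4))).image Prod.fst) := by
      refine hang_glue (u := o + (0, 4) + (0, -1)) h1 (iha _ _ (Or.inr rfl)) ?_
      intro b' hb' c hc hcu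
      obtain ⟨q, hq, rfl⟩ := Finset.mem_image.1 hb'
      have hb'' := lay_box a _ q hq
      simp only [Box, Prod.fst_add, Prod.snd_add] at hb''
      apply not_adj_of
      rcases (hgate c hc).2.2 with h | h
      · exact absurd (by rw [h]; ext <;> simp <;> ring) hcu
      · omega
    have ha2 : Hang v (at' gateS o ∪ (a.lay (o + (0, 4))).image Prod.fst ∪
        wires (2 * j) (o + (7, 0))) := by
      refine hang_glue (u := o + (7, 0) + (-1, 0)) ha1 (hang_wires _ _) ?_
      intro b' hb' c hc hcu
      have hb'' := wires_box _ _ b' hb'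
      simp only [Prod.fst_add, Prod.snd_add] at hb''
      apply not_adj_of
      rw [Finset.mem_insert, Finset.mem_union, ← or_assoc, ← Finset.mem_insert] at hc
      rcases hc with hc | hc
      · rcases (hgate c hc).2.1 with h | h
        · exact absurd (by rw [h]; ext <;> simp <;> ring) hcu
        · omega
      · obtain ⟨q, hq, rfl⟩ := Finset.mem_image.1 hc
        have hq' := lay_box a _ q hq
        simp only [Box, Prod.fst_add, Prod.snd_add] at hq'
        omega
    refine hang_glue (u := o + ((7 + 14 * (j : ℤ) : ℤ), (0 : ℤ)) + (-1, 0)) ha2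
      (ihb _ _ (Or.inl rfl)) ?_
    intro b' hb' c hc hcu
    obtain ⟨q, hq, rfl⟩ := Finset.mem_image.1 hb'
    have hb'' := lay_box b _ q hq
    simp only [Box, Prod.fst_add, Prod.snd_add] at hb''
    apply not_adj_of
    rw [Finset.mem_insert, Finset.mem_union, ← or_assoc, Finset.mem_union, ← or_assoc,
      ← Finset.mem_insert] at hc
    rcases hc with (hc | hc) | hc
    · have := (hgate c hc).1
      omega
    · obtain ⟨q', hq', rfl⟩ := Finset.mem_image.1 hc
      have hq'' := lay_box a _ q' hq'
      simp only [Box, Prod.fst_add, Prod.snd_add] at hq''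
      omega
    · have hc' := wires_box _ _ c hc
      simp only [Prod.fst_add, Prod.snd_add] at hc'
      rcases hc' with ⟨_, _, _, h | h⟩
      · refine absurd ?_ hcu
        rw [h]
        ext
        · simp only [Prod.fst_add]; push_cast; ring
        · simp
      · push_cast at h; omega

private def l'' (r : Cell) : PF := PF.up r PF.nil

private def n1'' (r : Cell) (x : PF) : PF := PF.up r x

private def handlePF : PF := n1'' (-4, 0) (n1'' (-3, 0) (n1'' (-2, 0) (l'' (-1, 0))))

private def dominoPF : PF := n1'' (-6, 0) (l'' (-7, 0))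

theorem hang_handle : Hang (-5, 0) handleS := by
  have h1 : handlePF.cells = handleS := by decide +kernel
  rw [← h1]
  exact real_hang (PF.ok_real (by decide +kernel))

theorem hang_domino : Hang (-5, 0) {(-6, 0), (-7, 0)} := by
  have h1 : dominoPF.cells = {(-6, 0), (-7, 0)} := by decide +kernel
  rw [← h1]
  exact real_hang (PF.ok_real (by decide +kernel))

/-- the whole board (at the origin) is a forest -/
theorem forest_board {n : ℕ} (e : E n) (p : ℕ) :
    IsForest ((e.lay (0, 0)).image Prod.fst ∪ extra p) := by
  have h1 : Hang (-5, 0) (handleS ∪ (e.lay (0, 0)).image Prod.fst) := by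
    refine hang_glue (u := (-1, 0)) hang_handle (lay_hang e (0, 0) (-1, 0) (Or.inl rfl)) ?_
    intro b hb a ha hau
    obtain ⟨q, hq, rfl⟩ := Finset.mem_image.1 hb
    have hb' := lay_box e _ q hq
    simp only [Box] at hb'
    apply not_adj_of
    have h3 : ∀ a ∈ insert (-5, 0) handleS, a ≠ (-1, 0) → a.1 ≤ -2 := by decide
    have := h3 a ha hau
    omega
  have h2 : Hang (-5, 0) (handleS ∪ (e.lay (0, 0)).image Prod.fst ∪ {(-6, 0), (-7, 0)}) := by
    refine hang_glue (u := (-5, 0)) h1 hang_domino ?_
    intro b hb a ha hau
    have h3 : ∀ b ∈ ({(-6, 0), (-7, 0)} : Finset Cell), b.1 ≤ -6 := by decide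
    have h4 := h3 b hb
    apply not_adj_of
    rcases Finset.mem_insert.1 ha with h | h
    · exact absurd h hau
    · rcases Finset.mem_union.1 h with h | h
      · have h5 : ∀ a ∈ handleS, -4 ≤ a.1 := by decide
        have := h5 a h
        omega
      · obtain ⟨q, hq, rfl⟩ := Finset.mem_image.1 h
        have hb' := lay_box e _ q hq
        simp only [Box] at hb'
        omega
  have h3 := h2.forest
  intro T hT hne
  refine h3 T (hT.trans ?_) hne
  intro c hc
  unfold extra at hc
  split_ifs at hc
  · simp only [Finset.mem_union, Finset.notMem_empty, or_false] at hc ⊢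
    tauto
  · simp only [Finset.mem_union] at hc ⊢
    tauto

end Pool.Agent.CramNC
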