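import Pool.Agent.CramNC.LayGood
import Pool.Agent.CramNC.LayBox
import Pool.Agent.CramNC.LayHang

/-!
# The outcome problem of Cram is NC¹-hard under projections
-/

namespace Pool.Agent.CramNC

/-- **The labelled board of a Boolean formula.** -/
def board {n : ℕ} (φ : Formula n) : Finset (Cell × Label n) :=
  ((E.ofFormula φ).lay (0, 0) ∪ E.const (extra (E.ofFormula φ).par)).image
    (fun p => (p.1 + (7, 0), p.2))

theorem extra_box (p : ℕ) (c : Cell) (h : c ∈ extra p) : -7 ≤ c.1 ∧ c.1 ≤ -1 ∧ c.2 = 0 := by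
  unfold extra handleS at h
  split_ifs at h
  · revert c; decide
  · revert c; decide

theorem sel_board {n : ℕ} (φ : Formula n) (x : Fin n → Bool) :
    sel x (board φ) =
      at' (extra (E.ofFormula φ).par ∪ sel x ((E.ofFormula φ).lay (0, 0))) (7, 0) := by
  have h1 : ∀ L : Finset (Cell × Label n),
      sel x (L.image (fun p => (p.1 + (7, 0), p.2))) = at' (sel x L) (7, 0) := by
    intro L
    ext c
    simp only [sel, at', Finset.mem_image, Finset.mem_filter]
    constructor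
    · rintro ⟨p, ⟨⟨q, hq, rfl⟩, hl⟩, rfl⟩
      exact ⟨q.1, ⟨q, ⟨hq, hl⟩, rfl⟩, rfl⟩
    · rintro ⟨a, ⟨q, ⟨hq, hl⟩, rfl⟩, rfl⟩
      exact ⟨(q.1 + (7, 0), q.2), ⟨⟨q, hq, rfl⟩, hl⟩, rfl⟩
  rw [board, h1, sel_union, sel_const, Finset.union_comm]

theorem board_outcome {n : ℕ} (φ : Formula n) (x : Fin n → Bool) :
    FirstWins (sel x (board φ)) ↔ φ.eval x = true := by
  rw [sel_board, firstWins_at', ← eval_ofFormula]
  exact firstWins_extra _ (par_lt _) (good_lay x (E.ofFormula φ))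

theorem mem_board {n : ℕ} {φ : Formula n} {p : Cell × Label n} (hp : p ∈ board φ) :
    (∃ q ∈ (E.ofFormula φ).lay (0, 0), p = (q.1 + (7, 0), q.2)) ∨
    (∃ c ∈ extra (E.ofFormula φ).par, p = (c + (7, 0), none)) := by
  simp only [board, Finset.mem_image, Finset.mem_union, E.const] at hp
  obtain ⟨q, h | ⟨c, hc, rfl⟩, rfl⟩ := hp
  · exact Or.inl ⟨q, h, rfl⟩
  · exact Or.inr ⟨c, hc, rfl⟩

theorem Formula.size_pos {n : ℕ} (φ : Formula n) : 1 ≤ φ.size := by
  cases φ <;> simp [Formula.size]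

theorem board_box {n : ℕ} (φ : Formula n) : ∀ p ∈ board φ,
    0 ≤ p.1.1 ∧ p.1.1 ≤ 107 * φ.size ∧ 0 ≤ p.1.2 ∧ p.1.2 ≤ 107 * φ.size := by
  intro p hp
  have hs := φ.size_pos
  rcases mem_board hp with ⟨q, hq, rfl⟩ | ⟨c, hc, rfl⟩
  · have hb := lay_box _ _ q hq
    have hW := W_le φ
    have hH := H_le φ
    simp only [Box] at hb
    simp only [Prod.fst_add, Prod.snd_add]
    omega
  · have hb := extra_box _ c hc
    simp only [Prod.fst_add, Prod.snd_add]
    omega

theorem board_unique {n : ℕ} (φ : Formula n) : ∀ p ∈ board φ, ∀ q ∈ board φ, p.1 = q.1 → p = q := by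
  intro p hp q hq h
  rcases mem_board hp with ⟨p', hp', rfl⟩ | ⟨c, hc, rfl⟩ <;>
    rcases mem_board hq with ⟨q', hq', rfl⟩ | ⟨d, hd, rfl⟩
  · have h' : p'.1 = q'.1 := by simpa using h
    rw [lay_unique _ _ p' hp' q' hq' h']
  · exfalso
    have h1 := lay_box _ _ p' hp'
    have h2 := extra_box _ d hd
    have h3 : p'.1 = d := by simpa using h
    simp only [Box] at h1
    rw [h3] at h1
    omega
  · exfalso
    have h1 := lay_box _ _ q' hq'
    have h2 := extra_box _ c hc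
    have h3 : c = q'.1 := by simpa using h
    simp only [Box] at h1
    rw [← h3] at h1
    omega
  · have h' : c = d := by simpa using h
    rw [h']

theorem board_forest {n : ℕ} (φ : Formula n) : IsForest ((board φ).image Prod.fst) := by
  have h1 : (board φ).image Prod.fst =
      at' (((E.ofFormula φ).lay (0, 0)).image Prod.fst ∪ extra (E.ofFormula φ).par) (7, 0) := by
    ext c
    simp only [board, at', Finset.mem_image, Finset.mem_union, E.const]
    constructor
    · rintro ⟨p, ⟨q, hq, rfl⟩, rfl⟩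
      rcases hq with h | ⟨d, hd, rfl⟩
      · exact ⟨q.1, Or.inl ⟨q, h, rfl⟩, rfl⟩
      · exact ⟨d, Or.inr hd, rfl⟩
    · rintro ⟨a, ⟨q, hq, rfl⟩ | h, rfl⟩
      · exact ⟨(q.1 + (7, 0), q.2), ⟨q, Or.inl hq, rfl⟩, rfl⟩
      · exact ⟨(a + (7, 0), none), ⟨(a, none), Or.inr ⟨a, h, rfl⟩, rfl⟩, rfl⟩
  rw [h1]
  exact (forest_board _ _).at' _

end Pool.Agent.CramNC
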