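import Pool.Agent.CramNC.Wires

/-!
# The NAND board

Plan for `good_nand` (coordinates relative to `o`; `w = wires (2j) (o+(7,0))`).
`box`: omega from `gateS_box`, `ha.box`, `hb.box`, `wires_box`, `Wa < 14 j`.
`eq`: four steps, all with `Finset.union_assoc/comm/left_comm` (`ac_rfl` or `ext; simp; tauto`).
(1) replace `fb (o+(7+14j,0))` by the literal β: `hb.eq (o+(7+14j,0)) (o+(6+14j,0))` with context
    `C ∪ gate ∪ fa ∪ w`; `Sep`: `o+(6+14j,0)` is in the gate (`j = 0`) or the last cell of `w`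
    (`mem_wires_last`), other wire cells have `c.1 ≤ o.1 + 5 + 14j`, gate cells `c.1 ≤ 6` (and
    `c.1 ≤ 5` or the port), cells of `fa` have `c.1 ≤ Wa < 14 j`, cells of `C` are far.
    (`j ≥ 1` since `8 ≤ Wa < 14 j`.)
(2) replace `fa (o+(0,4))` by the literal α: `ha.eq (o+(0,4)) (o+(0,3))`, context `C ∪ gate ∪ w ∪ lit β`:
    gate cells other than (0,3) have `c.2 ≤ 2`, wires and `lit β` have `c.2 ≤ 2`: `Far` by `c.2 < 4 - 1`.
(3) `(good_wires j β).eq (o+(7,0)) (o+(6,0))`, context `C ∪ gate ∪ lit α (o+(0,4))`: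
    `lit α` cells have `c.2 ≥ 4 > 2 + 1`, gate cells other than (6,0) have `c.1 ≤ 5`.
(4) `nand_phys α β`.
Then xor algebra.
-/

namespace Pool.Agent.CramNC

/-- component form of the box -/
private theorem box_comp {o c : Cell} {a b W H : ℤ} (h : Box (o + (a, b)) W H c) :
    o.1 + a ≤ c.1 ∧ c.1 ≤ o.1 + a + W ∧ o.2 + b ≤ c.2 ∧ c.2 ≤ o.2 + b + H := h

/-- component form of far cells -/
private theorem far_comp {o c : Cell} {a b W H : ℤ}
    (h : c.1 < o.1 + a - 1 ∨ o.1 + a + W + 1 < c.1 ∨ c.2 < o.2 + b - 1 ∨ o.2 + b + H + 1 < c.2) :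
    Far (o + (a, b)) W H c := h

/-- the cells of the context of a tile at `o`: the port or far -/
private theorem sep_cases {o v : Cell} {C : Finset Cell} {W H : ℤ} (hs : Sep o v C W H) {c : Cell}
    (hc : c ∈ C) : (c.1 ≤ o.1 ∧ c.2 ≤ o.2) ∨
      (c.1 < o.1 - 1 ∨ o.1 + W + 1 < c.1 ∨ c.2 < o.2 - 1 ∨ o.2 + H + 1 < c.2) := by
  obtain ⟨_, h2, h3⟩ := hs
  by_cases h : c = v
  · left
    rcases h2 with h2 | h2
    · rw [h, h2]
      change o.1 + (-1) ≤ o.1 ∧ o.2 + 0 ≤ o.2
      omega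
    · rw [h, h2]
      change o.1 + 0 ≤ o.1 ∧ o.2 + (-1) ≤ o.2
      omega
  · exact Or.inr (h3 c hc h)

private theorem cell_eq {o : Cell} {c : Cell} {a b : ℤ} (h1 : c.1 = o.1 + a)
    (h2 : c.2 = o.2 + b) : c = o + (a, b) := Prod.ext h1 h2

private theorem at_lit_comp {β : Bool} {o c : Cell} {a b : ℤ}
    (h : c ∈ at' (litS β) (o + (a, b))) :
    o.1 + a ≤ c.1 ∧ c.1 ≤ o.1 + a + 8 ∧ o.2 + b ≤ c.2 ∧ c.2 ≤ o.2 + b + 2 := by
  have h1 := litS_box β _ (mem_at'.1 h)
  have h2 : (c - (o + (a, b))).1 = c.1 - (o.1 + a) := rfl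
  have h3 : (c - (o + (a, b))).2 = c.2 - (o.2 + b) := rfl
  rw [h2, h3] at h1
  omega

private theorem at_gate_comp {o c : Cell} (h : c ∈ at' gateS o) :
    o.1 ≤ c.1 ∧ c.1 ≤ o.1 + 6 ∧ o.2 ≤ c.2 ∧ c.2 ≤ o.2 + 3 ∧
      (c = o + (6, 0) ∨ c.1 ≤ o.1 + 5) ∧ (c = o + (0, 3) ∨ c.2 ≤ o.2 + 2) := by
  obtain ⟨h1, h2, h3, h4, h5, h6⟩ := gateS_box _ (mem_at'.1 h)
  have e1 : (c - o).1 = c.1 - o.1 := rfl
  have e2 : (c - o).2 = c.2 - o.2 := rfl
  rw [e1] at h1 h2 h5
  rw [e2] at h3 h4 h6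
  refine ⟨by omega, by omega, by omega, by omega, ?_, ?_⟩
  · rcases h5 with h5 | h5
    · left
      rw [← h5]
      abel
    · right
      omega
  · rcases h6 with h6 | h6
    · left
      rw [← h6]
      abel
    · right
      omega

theorem good_nand {fa fb : Cell → Finset Cell} {Wa Ha Wb Hb : ℤ} {α β : Bool} {m n : ℕ}
    (ha : Good fa Wa Ha α m) (hb : Good fb Wb Hb β n) {j : ℕ} (hj : Wa < 14 * j) :
    Good (fun o => at' gateS o ∪ fa (o + (0, 4)) ∪ wires (2 * j) (o + (7, 0)) ∪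
      fb (o + ((7 + 14 * j : ℤ), (0 : ℤ)))) (7 + 14 * j + Wb) (max (Ha + 4) Hb) (!(α && β))
      (m ^^^ n ^^^ 1) := by
  have hWa := ha.hW
  have hHa := ha.hH
  have hWb := hb.hW
  have hHb := hb.hH
  have hmax1 : Ha + 4 ≤ max (Ha + 4) Hb := le_max_left _ _
  have hmax2 : Hb ≤ max (Ha + 4) Hb := le_max_right _ _
  obtain ⟨H, hH⟩ : ∃ H, max (Ha + 4) Hb = H := ⟨_, rfl⟩
  rw [hH] at hmax1 hmax2 ⊢
  -- the cells of the wire
  have hwire : ∀ (o c : Cell), c ∈ wires (2 * j) (o + (7, 0)) →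
      o.1 + 7 ≤ c.1 ∧ o.2 ≤ c.2 ∧ c.2 ≤ o.2 + 2 ∧
        (c = o + ((6 + 14 * j : ℤ), (0 : ℤ)) ∨ c.1 ≤ o.1 + 5 + 14 * j) := by
    intro o c hc
    obtain ⟨h1, h2, h3, h4⟩ := wires_box (2 * j) (o + (7, 0)) c hc
    have e1 : (o + ((7 : ℤ), (0 : ℤ))).1 = o.1 + 7 := rfl
    have e2 : (o + ((7 : ℤ), (0 : ℤ))).2 = o.2 + 0 := rfl
    rw [e1] at h1 h4
    rw [e2] at h2 h3
    push_cast at h4
    refine ⟨by omega, by omega, by omega, ?_⟩
    rcases h4 with h4 | h4
    · left
      rw [h4]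
      apply cell_eq
      · change o.1 + 7 + (7 * (2 * (j : ℤ)) - 1) = o.1 + (6 + 14 * j)
        ring
      · change o.2 + 0 + 0 = o.2 + 0
        ring
    · right
      omega
  refine ⟨by omega, by omega, ?_, ?_⟩
  · intro o c hc
    simp only [Finset.mem_union] at hc
    rcases hc with ((hc | hc) | hc) | hc
    · have := at_gate_comp hc
      refine ⟨?_, ?_, ?_, ?_⟩ <;> omega
    · have := box_comp (ha.box _ c hc)
      refine ⟨?_, ?_, ?_, ?_⟩ <;> omega
    · have := hwire o c hc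
      obtain ⟨h1, h2, h3, h4⟩ := this
      have h5 : c.1 ≤ o.1 + 6 + 14 * j := by
        rcases h4 with h4 | h4
        · rw [h4]
          change o.1 + (6 + 14 * (j : ℤ)) ≤ _
          omega
        · omega
      refine ⟨?_, ?_, ?_, ?_⟩ <;> omega
    · have := box_comp (hb.box _ c hc)
      refine ⟨?_, ?_, ?_, ?_⟩ <;> omega
  · intro o v C hs
    have hjpos : 1 ≤ j := by omega
    -- step 1
    have s1 : g ((C ∪ at' gateS o ∪ fa (o + (0, 4)) ∪ wires (2 * j) (o + (7, 0))) ∪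
        fb (o + ((7 + 14 * j : ℤ), (0 : ℤ)))) =
        g ((C ∪ at' gateS o ∪ fa (o + (0, 4)) ∪ wires (2 * j) (o + (7, 0))) ∪
        at' (litS β) (o + ((7 + 14 * j : ℤ), (0 : ℤ)))) ^^^ n := by
      apply hb.eq _ (o + ((6 + 14 * j : ℤ), (0 : ℤ)))
      refine ⟨?_, ?_, ?_⟩
      · apply Finset.mem_union_right
        obtain ⟨k, hk⟩ : ∃ k, 2 * j = k + 1 := ⟨2 * j - 1, by omega⟩
        have h := mem_wires_last k (o + (7, 0))
        rw [hk]
        convert h using 1
        apply (cell_eq _ _).symm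
        · change o.1 + 7 + (7 * ((k : ℤ) + 1) - 1) = o.1 + (6 + 14 * j)
          have : (k : ℤ) + 1 = 2 * j := by exact_mod_cast hk.symm
          rw [this]
          ring
        · change o.2 + 0 + 0 = o.2 + 0
          ring
      · left
        apply Prod.ext
        · change o.1 + (6 + 14 * (j : ℤ)) = o.1 + (7 + 14 * j) + (-1)
          ring
        · change o.2 + 0 = o.2 + 0 + 0
          ring
      · intro c hc hcv
        apply far_comp
        simp only [Finset.mem_union] at hc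
        rcases hc with ((hc | hc) | hc) | hc
        · have := sep_cases hs hc
          omega
        · have := at_gate_comp hc
          omega
        · have := box_comp (ha.box _ c hc)
          omega
        · obtain ⟨h1, h2, h3, h4⟩ := hwire o c hc
          rcases h4 with h4 | h4
          · exact absurd h4 hcv
          · omega
    -- step 2
    have s2 : g ((C ∪ at' gateS o ∪ wires (2 * j) (o + (7, 0)) ∪
        at' (litS β) (o + ((7 + 14 * j : ℤ), (0 : ℤ)))) ∪ fa (o + (0, 4))) =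
        g ((C ∪ at' gateS o ∪ wires (2 * j) (o + (7, 0)) ∪
        at' (litS β) (o + ((7 + 14 * j : ℤ), (0 : ℤ)))) ∪ at' (litS α) (o + (0, 4))) ^^^ m := by
      apply ha.eq _ (o + (0, 3))
      refine ⟨?_, ?_, ?_⟩
      · apply Finset.mem_union_left
        apply Finset.mem_union_left
        apply Finset.mem_union_right
        rw [mem_at']
        have : o + ((0 : ℤ), (3 : ℤ)) - o = (0, 3) := by abel
        rw [this]
        decide
      · right
        apply Prod.ext
        · change o.1 + 0 = o.1 + 0 + 0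
          ring
        · change o.2 + 3 = o.2 + 4 + (-1)
          ring
      · intro c hc hcv
        apply far_comp
        simp only [Finset.mem_union] at hc
        rcases hc with ((hc | hc) | hc) | hc
        · have := sep_cases hs hc
          omega
        · obtain ⟨h1, h2, h3, h4, h5, h6⟩ := at_gate_comp hc
          rcases h6 with h6 | h6
          · exact absurd h6 hcv
          · omega
        · obtain ⟨h1, h2, h3, h4⟩ := hwire o c hc
          omega
        · have := at_lit_comp hc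
          omega
    -- step 3
    have e3 : o + ((7 : ℤ), (0 : ℤ)) + ((14 * j : ℤ), (0 : ℤ)) = o + ((7 + 14 * j : ℤ), (0 : ℤ)) := by
      apply Prod.ext
      · change o.1 + 7 + 14 * (j : ℤ) = o.1 + (7 + 14 * j)
        ring
      · change o.2 + 0 + 0 = o.2 + 0
        ring
    have s3 : g ((C ∪ at' gateS o ∪ at' (litS α) (o + (0, 4))) ∪
        (wires (2 * j) (o + (7, 0)) ∪ at' (litS β) (o + ((7 + 14 * j : ℤ), (0 : ℤ))))) =
        g ((C ∪ at' gateS o ∪ at' (litS α) (o + (0, 4))) ∪ at' (litS β) (o + (7, 0))) ^^^ 0 := by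
      rw [← e3]
      apply (good_wires j β).eq (o + (7, 0)) (o + (6, 0))
      refine ⟨?_, ?_, ?_⟩
      · apply Finset.mem_union_left
        apply Finset.mem_union_right
        rw [mem_at']
        have : o + ((6 : ℤ), (0 : ℤ)) - o = (6, 0) := by abel
        rw [this]
        decide
      · left
        apply Prod.ext
        · change o.1 + 6 = o.1 + 7 + (-1)
          ring
        · change o.2 + 0 = o.2 + 0 + 0
          ring
      · intro c hc hcv
        apply far_comp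
        simp only [Finset.mem_union] at hc
        rcases hc with (hc | hc) | hc
        · have := sep_cases hs hc
          omega
        · obtain ⟨h1, h2, h3, h4, h5, h6⟩ := at_gate_comp hc
          rcases h5 with h5 | h5
          · exact absurd h5 hcv
          · omega
        · have := at_lit_comp hc
          omega
    -- step 4
    have s4 := nand_phys α β (o := o) (v := v) (C := C) (W := 7 + 14 * j + Wb) (H := H)
      (by omega) (by omega) hs
    -- combination
    have c1 : C ∪ (at' gateS o ∪ fa (o + (0, 4)) ∪ wires (2 * j) (o + (7, 0)) ∪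
        fb (o + ((7 + 14 * j : ℤ), (0 : ℤ)))) =
        (C ∪ at' gateS o ∪ fa (o + (0, 4)) ∪ wires (2 * j) (o + (7, 0))) ∪
        fb (o + ((7 + 14 * j : ℤ), (0 : ℤ))) := by
      simp only [Finset.union_assoc]
    have c2 : (C ∪ at' gateS o ∪ fa (o + (0, 4)) ∪ wires (2 * j) (o + (7, 0))) ∪
        at' (litS β) (o + ((7 + 14 * j : ℤ), (0 : ℤ))) =
        (C ∪ at' gateS o ∪ wires (2 * j) (o + (7, 0)) ∪
        at' (litS β) (o + ((7 + 14 * j : ℤ), (0 : ℤ)))) ∪ fa (o + (0, 4)) := by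
      ac_rfl
    have c3 : (C ∪ at' gateS o ∪ wires (2 * j) (o + (7, 0)) ∪
        at' (litS β) (o + ((7 + 14 * j : ℤ), (0 : ℤ)))) ∪ at' (litS α) (o + (0, 4)) =
        (C ∪ at' gateS o ∪ at' (litS α) (o + (0, 4))) ∪
        (wires (2 * j) (o + (7, 0)) ∪ at' (litS β) (o + ((7 + 14 * j : ℤ), (0 : ℤ)))) := by
      ac_rfl
    have c4 : (C ∪ at' gateS o ∪ at' (litS α) (o + (0, 4))) ∪ at' (litS β) (o + (7, 0)) =
        C ∪ (at' gateS o ∪ at' (litS α) (o + (0, 4)) ∪ at' (litS β) (o + (7, 0))) := by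
      simp only [Finset.union_assoc]
    change g (C ∪ (at' gateS o ∪ fa (o + (0, 4)) ∪ wires (2 * j) (o + (7, 0)) ∪
        fb (o + ((7 + 14 * j : ℤ), (0 : ℤ))))) = _
    rw [c1, s1, c2, s2, c3, s3, c4, s4, Nat.xor_zero]
    simp only [Nat.xor_assoc]
    congr 1
    rw [Nat.xor_comm 1 (m ^^^ n), Nat.xor_assoc]

end Pool.Agent.CramNC
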