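import Pool.Agent.CramNC.Cram

/-!
# Realisation of forests by cells

Plan for `real_all`: strong induction on `F.w f` (`∀ f' , w f' < w f → ...`), then `cases` on `f` and
`Real` inversion (`cases h`).
* `nil`: `S = ∅`, `g_empty`, `gF_nil`, `vm_nil`, `opt_nil`.
* `app a b`, `S = S₁ ∪ S₂`: `g` part `g_union`; vm part: `vm_app`; for `s ∈ S₁`,
  `(S₁ ∪ S₂).erase s = (S₁.erase s) ∪ S₂`, `g_union`; opt part: `opt_app`; `p, q` are both in `S₁` or both
  in `S₂` (no cross adjacency); from `Split v S₁ p q o` with `S', S''` get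
  `Split v (S₁ ∪ S₂) p q (app o.1 b, o.2)` with `S' ∪ S₂, S''` (`Real.app`).
* `up a`, `S = insert r S₁`, `Real r S₁ a`: vm part: `vm_up`, the only `s ∈ S` adjacent to `v` is `r`,
  `(insert r S₁).erase r = S₁`, IH: `g S₁ = gF a`.
  opt part: moves `r, s` or `s, r` with `s ∈ S₁` adjacent to `r`: `Split` with `S' = ∅`,
  `S'' = S₁.erase s`, `o = (nil, m)`, `m = g (S₁.erase s) ∈ vm a` (IH); moves `p, q ∈ S₁`: from
  `Split r S₁ p q o` (sets `S', S''`) get `Split v S p q (up o.1, o.2)` with `insert r S', S''`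
  (`∀ y ∈ S'', ¬ Adj r y` is the 4th clause of Split; `y ∈ S₁` not adjacent to `v`, from `Real.up`).
  `g` part: `IsMex.unique (g_isMex S) ` against `gF_up a`: options of `S`: value `m ∈ vm a`, or
  `g (insert r S' ∪ S'') = g (insert r S') ^^^ g S'' = gF (up o.1) ^^^ o.2` by `g_union` and the IH for
  `up o.1` (`w (up o.1) < w (up a)` by `w_opt`, `Real.up`), `o ∈ opt a`.
Subset facts (`S' ⊆ S₁`) follow from `(S.erase p).erase q = S' ∪ S''`.
-/

namespace Pool.Agent.CramNC

/-- `Real v S f`: the cells `S` form the forest `f` hanging at the cell `v`. -/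
inductive Real : Cell → Finset Cell → F → Prop
  | nil (v : Cell) : Real v ∅ F.nil
  | up (v r : Cell) (S : Finset Cell) (f : F) (hvr : Adj v r) (hr : r ∉ S) (hv : v ∉ S)
      (hS : ∀ x ∈ S, ¬ Adj v x) (h : Real r S f) : Real v (insert r S) (F.up f)
  | app (v : Cell) (S₁ S₂ : Finset Cell) (a b : F) (hd : Disjoint S₁ S₂)
      (hn : ∀ x ∈ S₁, ∀ y ∈ S₂, ¬ Adj x y) (h₁ : Real v S₁ a) (h₂ : Real v S₂ b) :
      Real v (S₁ ∪ S₂) (F.app a b)

/-- After the move `p, q` in `S`, what remains is a forest `o.1` hanging at `v` and a separated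
part of value `o.2`. -/
def Split (v : Cell) (S : Finset Cell) (p q : Cell) (o : F × ℕ) : Prop :=
  ∃ S' S'' : Finset Cell, (S.erase p).erase q = S' ∪ S'' ∧ Disjoint S' S'' ∧
    (∀ x ∈ S', ∀ y ∈ S'', ¬ Adj x y) ∧ (∀ y ∈ S'', ¬ Adj v y) ∧ Real v S' o.1 ∧ g S'' = o.2

private theorem real_er1 {A B : Finset Cell} {p : Cell} (hd : Disjoint A B) (hp : p ∈ A) :
    (A ∪ B).erase p = A.erase p ∪ B := by
  have h1 : p ∉ B := Finset.disjoint_left.1 hd hp
  ext x
  simp only [Finset.mem_erase, Finset.mem_union]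
  constructor
  · rintro ⟨h2, h3 | h3⟩
    · exact Or.inl ⟨h2, h3⟩
    · exact Or.inr h3
  · rintro (⟨h2, h3⟩ | h3)
    · exact ⟨h2, Or.inl h3⟩
    · refine ⟨?_, Or.inr h3⟩
      rintro rfl
      exact h1 h3

private theorem real_er2 {A B : Finset Cell} {p q : Cell} (hd : Disjoint A B) (hp : p ∈ A)
    (hq : q ∈ A) (hpq : p ≠ q) : ((A ∪ B).erase p).erase q = (A.erase p).erase q ∪ B := by
  rw [real_er1 hd hp]
  refine real_er1 ?_ (Finset.mem_erase.2 ⟨hpq.symm, hq⟩)
  exact Finset.disjoint_of_subset_left (Finset.erase_subset _ _) hd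

private theorem real_sub {S S' S'' : Finset Cell} {p q : Cell}
    (h : (S.erase p).erase q = S' ∪ S'') : S' ⊆ S ∧ S'' ⊆ S := by
  have h1 : (S.erase p).erase q ⊆ S := (Finset.erase_subset _ _).trans (Finset.erase_subset _ _)
  rw [h] at h1
  exact ⟨Finset.subset_union_left.trans h1, Finset.subset_union_right.trans h1⟩

private theorem real_not_mem {v : Cell} {S : Finset Cell} {f : F} (h : Real v S f) : v ∉ S := by
  induction h with
  | nil v => simp
  | up v r S f hvr hr hv hS h ih =>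
    rw [Finset.mem_insert]
    rintro (h1 | h1)
    · exact hvr.ne h1
    · exact hv h1
  | app v S₁ S₂ a b hd hn h₁ h₂ ih₁ ih₂ =>
    rw [Finset.mem_union]
    rintro (h1 | h1)
    · exact ih₁ h1
    · exact ih₂ h1

/-- the left half of a split in a union -/
private theorem real_split_left {v : Cell} {S₁ S₂ : Finset Cell} {b : F} {p q : Cell} {o : F × ℕ}
    (hd : Disjoint S₁ S₂) (hn : ∀ x ∈ S₁, ∀ y ∈ S₂, ¬ Adj x y) (h₂ : Real v S₂ b)
    (hp : p ∈ S₁) (hq : q ∈ S₁) (hpq : Adj p q) (h : Split v S₁ p q o) :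
    Split v (S₁ ∪ S₂) p q (F.app o.1 b, o.2) := by
  obtain ⟨S', S'', h1, h2, h3, h4, h5, h6⟩ := h
  obtain ⟨hs', hs''⟩ := real_sub h1
  refine ⟨S' ∪ S₂, S'', ?_, ?_, ?_, h4, ?_, h6⟩
  · rw [real_er2 hd hp hq hpq.ne, h1, Finset.union_assoc, Finset.union_assoc,
      Finset.union_comm S'' S₂]
  · rw [Finset.disjoint_union_left]
    exact ⟨h2, (Finset.disjoint_of_subset_left hs'' hd).symm⟩
  · intro x hx y hy
    rcases Finset.mem_union.1 hx with hx | hx
    · exact h3 x hx y hy
    · exact fun ha => hn y (hs'' hy) x hx ha.symm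
  · exact Real.app v S' S₂ o.1 b (Finset.disjoint_of_subset_left hs' hd)
      (fun x hx y hy => hn x (hs' hx) y hy) h5 h₂

private theorem real_split_right {v : Cell} {S₁ S₂ : Finset Cell} {a : F} {p q : Cell} {o : F × ℕ}
    (hd : Disjoint S₁ S₂) (hn : ∀ x ∈ S₁, ∀ y ∈ S₂, ¬ Adj x y) (h₁ : Real v S₁ a)
    (hp : p ∈ S₂) (hq : q ∈ S₂) (hpq : Adj p q) (h : Split v S₂ p q o) :
    Split v (S₁ ∪ S₂) p q (F.app a o.1, o.2) := by
  obtain ⟨S', S'', h1, h2, h3, h4, h5, h6⟩ := h
  obtain ⟨hs', hs''⟩ := real_sub h1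
  refine ⟨S₁ ∪ S', S'', ?_, ?_, ?_, h4, ?_, h6⟩
  · rw [Finset.union_comm S₁ S₂, real_er2 hd.symm hp hq hpq.ne, h1, Finset.union_comm,
      Finset.union_assoc]
  · rw [Finset.disjoint_union_left]
    exact ⟨Finset.disjoint_of_subset_right hs'' hd, h2⟩
  · intro x hx y hy
    rcases Finset.mem_union.1 hx with hx | hx
    · exact hn x hx y (hs'' hy)
    · exact h3 x hx y hy
  · exact Real.app v S₁ S' a o.1 (Finset.disjoint_of_subset_right hs' hd)
      (fun x hx y hy => hn x hx y (hs' hy)) h₁ h5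

private theorem real_er_up {r p q : Cell} {S S' S'' : Finset Cell} (hr : r ∉ S) (hp : p ∈ S)
    (hq : q ∈ S) (h : (S.erase p).erase q = S' ∪ S'') :
    ((insert r S).erase p).erase q = insert r S' ∪ S'' := by
  have hrp : r ≠ p := by
    rintro rfl
    exact hr hp
  have hrq : r ≠ q := by
    rintro rfl
    exact hr hq
  rw [Finset.erase_insert_of_ne hrp, Finset.erase_insert_of_ne hrq, h, Finset.insert_union]

private theorem real_split_up {v r : Cell} {S : Finset Cell} {p q : Cell} {o : F × ℕ}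
    (hvr : Adj v r) (hr : r ∉ S) (hv : v ∉ S) (hS : ∀ x ∈ S, ¬ Adj v x)
    (hp : p ∈ S) (hq : q ∈ S) (h : Split r S p q o) :
    Split v (insert r S) p q (F.up o.1, o.2) := by
  obtain ⟨S', S'', h1, h2, h3, h4, h5, h6⟩ := h
  obtain ⟨hs', hs''⟩ := real_sub h1
  refine ⟨insert r S', S'', real_er_up hr hp hq h1, ?_, ?_, fun y hy => hS y (hs'' hy), ?_, h6⟩
  · rw [Finset.disjoint_insert_left]
    exact ⟨fun h => hr (hs'' h), h2⟩
  · intro x hx y hy
    rcases Finset.mem_insert.1 hx with hx | hx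
    · rw [hx]
      exact h4 y hy
    · exact h3 x hx y hy
  · exact Real.up v r S' o.1 hvr (fun h => hr (hs' h)) (fun h => hv (hs' h))
      (fun x hx => hS x (hs' hx)) h5

private theorem real_split_nil {v r s : Cell} {S : Finset Cell} {p q : Cell}
    (hS : ∀ x ∈ S, ¬ Adj v x) (h : ((insert r S).erase p).erase q = S.erase s) :
    Split v (insert r S) p q (F.nil, g (S.erase s)) := by
  refine ⟨∅, S.erase s, ?_, Finset.disjoint_empty_left _, ?_, ?_, Real.nil v, rfl⟩
  · rw [h, Finset.empty_union]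
  · intro x hx
    simp at hx
  · intro y hy
    exact hS y (Finset.mem_of_mem_erase hy)

/-- everything about a realisation, by strong induction on the weight -/
theorem real_all (f : F) : ∀ (v : Cell) (S : Finset Cell), Real v S f →
    g S = gF f ∧
    (∀ x, x ∈ vm f ↔ ∃ s ∈ S, Adj v s ∧ x = g (S.erase s)) ∧
    (∀ p ∈ S, ∀ q ∈ S, Adj p q → ∃ o ∈ opt f, Split v S p q o) ∧
    (∀ o ∈ opt f, ∃ p ∈ S, ∃ q ∈ S, Adj p q ∧ Split v S p q o) := by
  induction hw : F.w f using Nat.strong_induction_on generalizing f with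
  | _ n ih =>
  subst hw
  intro v S hReal
  cases hReal with
  | nil =>
    refine ⟨by rw [g_empty, gF_nil], ?_, ?_, ?_⟩
    · intro x
      simp
    · intro p hp
      simp at hp
    · intro o ho
      simp at ho
  | app _ S₁ S₂ a b hd hn h₁ h₂ =>
    obtain ⟨ga, va, oa, oa'⟩ := ih (F.w a) (by simp only [F.w]; omega) a rfl v S₁ h₁
    obtain ⟨gb, vb, ob, ob'⟩ := ih (F.w b) (by simp only [F.w]; omega) b rfl v S₂ h₂
    have hd' : Disjoint S₂ S₁ := hd.symm
    have hn' : ∀ x ∈ S₂, ∀ y ∈ S₁, ¬ Adj x y := fun x hx y hy h => hn y hy x hx h.symm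
    have e1 : ∀ s ∈ S₁, g ((S₁ ∪ S₂).erase s) = g (S₁.erase s) ^^^ gF b := by
      intro s hs
      rw [real_er1 hd hs, g_union (Finset.disjoint_of_subset_left (Finset.erase_subset _ _) hd)
        (fun x hx y hy => hn x (Finset.mem_of_mem_erase hx) y hy), gb]
    have e2 : ∀ s ∈ S₂, g ((S₁ ∪ S₂).erase s) = gF a ^^^ g (S₂.erase s) := by
      intro s hs
      rw [Finset.union_comm, real_er1 hd' hs, Finset.union_comm,
        g_union (Finset.disjoint_of_subset_right (Finset.erase_subset _ _) hd)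
        (fun x hx y hy => hn x hx y (Finset.mem_of_mem_erase hy)), ga]
    refine ⟨?_, ?_, ?_, ?_⟩
    · rw [g_union hd hn, ga, gb, gF_app]
    · intro x
      rw [vm_app]
      constructor
      · rintro (⟨m, hm, rfl⟩ | ⟨m, hm, rfl⟩)
        · obtain ⟨s, hs, hvs, rfl⟩ := (va m).1 hm
          exact ⟨s, Finset.mem_union_left _ hs, hvs, (e1 s hs).symm⟩
        · obtain ⟨s, hs, hvs, rfl⟩ := (vb m).1 hm
          exact ⟨s, Finset.mem_union_right _ hs, hvs, (e2 s hs).symm⟩
      · rintro ⟨s, hs, hvs, rfl⟩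
        rcases Finset.mem_union.1 hs with hs | hs
        · exact Or.inl ⟨_, (va _).2 ⟨s, hs, hvs, rfl⟩, e1 s hs⟩
        · exact Or.inr ⟨_, (vb _).2 ⟨s, hs, hvs, rfl⟩, e2 s hs⟩
    · intro p hp q hq hpq
      rcases Finset.mem_union.1 hp with hp | hp
      · rcases Finset.mem_union.1 hq with hq | hq
        · obtain ⟨o, ho, hs⟩ := oa p hp q hq hpq
          exact ⟨_, (opt_app a b _).2 (Or.inl ⟨o, ho, rfl⟩), real_split_left hd hn h₂ hp hq hpq hs⟩
        · exact (hn p hp q hq hpq).elim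
      · rcases Finset.mem_union.1 hq with hq | hq
        · exact (hn' p hp q hq hpq).elim
        · obtain ⟨o, ho, hs⟩ := ob p hp q hq hpq
          exact ⟨_, (opt_app a b _).2 (Or.inr ⟨o, ho, rfl⟩), real_split_right hd hn h₁ hp hq hpq hs⟩
    · intro o ho
      rcases (opt_app a b o).1 ho with ⟨o', ho', rfl⟩ | ⟨o', ho', rfl⟩
      · obtain ⟨p, hp, q, hq, hpq, hs⟩ := oa' o' ho'
        exact ⟨p, Finset.mem_union_left _ hp, q, Finset.mem_union_left _ hq, hpq,
          real_split_left hd hn h₂ hp hq hpq hs⟩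
      · obtain ⟨p, hp, q, hq, hpq, hs⟩ := ob' o' ho'
        exact ⟨p, Finset.mem_union_right _ hp, q, Finset.mem_union_right _ hq, hpq,
          real_split_right hd hn h₁ hp hq hpq hs⟩
  | up _ r S₁ a hvr hr hv hS h =>
    obtain ⟨ga, va, oa, oa'⟩ := ih (F.w a) (by simp only [F.w]; omega) a rfl r S₁ h
    have key : ∀ p ∈ S₁, ∀ q ∈ S₁, ∀ o ∈ opt a, Split r S₁ p q o →
        g (((insert r S₁).erase p).erase q) = gF (F.up o.1) ^^^ o.2 := by
      intro p hp q hq o ho hs
      obtain ⟨S', S'', h1, h2, h3, h4, h5, h6⟩ := hs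
      obtain ⟨hs', hs''⟩ := real_sub h1
      have hR : Real v (insert r S') (F.up o.1) :=
        Real.up v r S' o.1 hvr (fun h => hr (hs' h)) (fun h => hv (hs' h))
          (fun x hx => hS x (hs' hx)) h5
      have hlt := w_opt ho
      have hg := (ih (F.w (F.up o.1)) (by simp only [F.w]; omega) (F.up o.1) rfl v _ hR).1
      rw [real_er_up hr hp hq h1, g_union, hg, h6]
      · rw [Finset.disjoint_insert_left]
        exact ⟨fun h => hr (hs'' h), h2⟩
      · intro x hx y hy
        rcases Finset.mem_insert.1 hx with hx | hx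
        · rw [hx]
          exact h4 y hy
        · exact h3 x hx y hy
    have er1 : ∀ q, ((insert r S₁).erase r).erase q = S₁.erase q := by
      intro q
      rw [Finset.erase_insert hr]
    have er2 : ∀ p, ((insert r S₁).erase p).erase r = S₁.erase p := by
      intro p
      rw [Finset.erase_right_comm, Finset.erase_insert hr]
    refine ⟨?_, ?_, ?_, ?_⟩
    · refine IsMex.unique' (g_isMex _) (gF_up a) ?_
      intro x
      constructor
      · rintro ⟨p, hp, q, hq, hpq, rfl⟩
        rcases Finset.mem_insert.1 hp with rfl | hp'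
        · rcases Finset.mem_insert.1 hq with rfl | hq'
          · exact (hpq.ne rfl).elim
          · left
            rw [er1]
            exact (va _).2 ⟨q, hq', hpq, rfl⟩
        · rcases Finset.mem_insert.1 hq with rfl | hq'
          · left
            rw [er2]
            exact (va _).2 ⟨p, hp', hpq.symm, rfl⟩
          · right
            obtain ⟨o, ho, hs⟩ := oa p hp' q hq' hpq
            exact ⟨o, ho, key p hp' q hq' o ho hs⟩
      · rintro (hx | ⟨o, ho, rfl⟩)
        · obtain ⟨s, hs, hrs, rfl⟩ := (va x).1 hx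
          exact ⟨r, Finset.mem_insert_self _ _, s, Finset.mem_insert_of_mem hs, hrs, by rw [er1]⟩
        · obtain ⟨p, hp, q, hq, hpq, hs⟩ := oa' o ho
          exact ⟨p, Finset.mem_insert_of_mem hp, q, Finset.mem_insert_of_mem hq, hpq,
            (key p hp q hq o ho hs).symm⟩
    · intro x
      rw [vm_up]
      constructor
      · rintro rfl
        exact ⟨r, Finset.mem_insert_self _ _, hvr, by rw [Finset.erase_insert hr, ga]⟩
      · rintro ⟨s, hs, hvs, rfl⟩
        rcases Finset.mem_insert.1 hs with rfl | hs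
        · rw [Finset.erase_insert hr, ga]
        · exact (hS s hs hvs).elim
    · intro p hp q hq hpq
      rcases Finset.mem_insert.1 hp with rfl | hp'
      · rcases Finset.mem_insert.1 hq with rfl | hq'
        · exact (hpq.ne rfl).elim
        · exact ⟨_, (opt_up a _).2 (Or.inl ⟨_, (va _).2 ⟨q, hq', hpq, rfl⟩, rfl⟩),
            real_split_nil hS (er1 q)⟩
      · rcases Finset.mem_insert.1 hq with rfl | hq'
        · exact ⟨_, (opt_up a _).2 (Or.inl ⟨_, (va _).2 ⟨p, hp', hpq.symm, rfl⟩, rfl⟩),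
            real_split_nil hS (er2 p)⟩
        · obtain ⟨o, ho, hs⟩ := oa p hp' q hq' hpq
          exact ⟨_, (opt_up a _).2 (Or.inr ⟨o, ho, rfl⟩),
            real_split_up hvr hr hv hS hp' hq' hs⟩
    · intro o ho
      rcases (opt_up a o).1 ho with ⟨m, hm, rfl⟩ | ⟨o', ho', rfl⟩
      · obtain ⟨s, hs, hrs, rfl⟩ := (va m).1 hm
        exact ⟨r, Finset.mem_insert_self _ _, s, Finset.mem_insert_of_mem hs, hrs,
          real_split_nil hS (er1 s)⟩
      · obtain ⟨p, hp, q, hq, hpq, hs⟩ := oa' o' ho'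
        exact ⟨p, Finset.mem_insert_of_mem hp, q, Finset.mem_insert_of_mem hq, hpq,
          real_split_up hvr hr hv hS hp hq hs⟩

end Pool.Agent.CramNC
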