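import Pool.Agent.CramNC.Real

/-!
# Translation of realisations, positioned forests
-/

namespace Pool.Agent.CramNC

/-- translate of a set of cells -/
def at' (T : Finset Cell) (o : Cell) : Finset Cell := T.image (fun c => c + o)

theorem mem_at' {T : Finset Cell} {o c : Cell} : c ∈ at' T o ↔ c - o ∈ T := by
  simp only [at', Finset.mem_image]
  constructor
  · rintro ⟨a, ha, rfl⟩; simpa using ha
  · intro h; exact ⟨c - o, h, by simp⟩

theorem adj_add (p q o : Cell) : Adj (p + o) (q + o) ↔ Adj p q := by
  simp [Adj]

theorem Real.translate {v : Cell} {S : Finset Cell} {f : F} (h : Real v S f) (o : Cell) :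
    Real (v + o) (at' S o) f := by
  induction h with
  | nil v =>
    rw [show at' ∅ o = ∅ from Finset.image_empty _]
    exact Real.nil _
  | up v r S f hvr hr hv hS h ih =>
    rw [show at' (insert r S) o = insert (r + o) (at' S o) from Finset.image_insert _ _ _]
    refine Real.up _ _ _ _ ((adj_add _ _ _).2 hvr) ?_ ?_ ?_ ih
    · rw [mem_at', add_sub_cancel_right]
      exact hr
    · rw [mem_at', add_sub_cancel_right]
      exact hv
    · intro x hx h1
      rw [mem_at'] at hx
      refine hS _ hx ?_
      rw [← adj_add _ _ o, sub_add_cancel]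
      exact h1
  | app v S₁ S₂ a b hd hn h₁ h₂ ih₁ ih₂ =>
    rw [show at' (S₁ ∪ S₂) o = at' S₁ o ∪ at' S₂ o from Finset.image_union _ _]
    refine Real.app _ _ _ _ _ ?_ ?_ ih₁ ih₂
    · rw [Finset.disjoint_left] at hd ⊢
      intro x h1 h2
      rw [mem_at'] at h1 h2
      exact hd h1 h2
    · intro x hx y hy h1
      rw [mem_at'] at hx hy
      refine hn _ hx _ hy ?_
      rw [← adj_add _ _ o, sub_add_cancel, sub_add_cancel]
      exact h1

/-- Positioned forests. -/
inductive PF : Type
  | nil : PF
  | up : Cell → PF → PF
  | app : PF → PF → PF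

namespace PF

def cells : PF → Finset Cell
  | nil => ∅
  | up r a => insert r (cells a)
  | app a b => cells a ∪ cells b

def shape : PF → F
  | nil => F.nil
  | up _ a => F.up (shape a)
  | app a b => F.app (shape a) (shape b)

/-- the check that a positioned forest is a realisation -/
def ok : Cell → PF → Prop
  | _, nil => True
  | v, up r a => Adj v r ∧ r ∉ cells a ∧ v ∉ cells a ∧ (∀ x ∈ cells a, ¬ Adj v x) ∧ ok r a
  | v, app a b => (∀ x ∈ cells a, ∀ y ∈ cells b, x ≠ y ∧ ¬ Adj x y) ∧ ok v a ∧ ok v b

instance decOk : ∀ (v : Cell) (p : PF), Decidable (ok v p)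
  | _, nil => isTrue trivial
  | v, up r a => by
      have := decOk r a
      unfold ok; infer_instance
  | v, app a b => by
      have := decOk v a
      have := decOk v b
      unfold ok; infer_instance

theorem ok_real {v : Cell} {p : PF} (h : ok v p) : Real v p.cells p.shape := by
  induction p generalizing v with
  | nil => exact Real.nil v
  | up r a ih =>
    obtain ⟨h1, h2, h3, h4, h5⟩ := h
    exact Real.up v r a.cells a.shape h1 h2 h3 h4 (ih h5)
  | app a b iha ihb =>
    obtain ⟨h1, h2, h3⟩ := h
    refine Real.app v a.cells b.cells a.shape b.shape ?_ (fun x hx y hy => (h1 x hx y hy).2)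
      (iha h2) (ihb h3)
    rw [Finset.disjoint_left]
    intro x hx hy
    exact (h1 x hx x hy).1 rfl

end PF

end Pool.Agent.CramNC
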