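import Pool.Agent.CramNC.Base

/-!
# The one-step criterion

Plan.  `gF`-part is `h1`.  For `φ`: `induction h with | mk φ stay rem alone hs hφ ih`.
Let `y = φ f'`.  Show `IsMex (y ^^^ n) (P f)` and use `IsMex.unique (hφ f)`, where `P f` is the
predicate in `hφ f`.
(1) `¬ P f (y ^^^ n)`: each disjunct, xored with `n`, gives `P f' y`, contradiction with `(hφ f').1`:
 stay: `p.1 f = p.1 f' ^^^ n` (ih); rem: h1; vm: h2; opt: h5 for `q`:
   first alternative: `φ q.1 ^^^ q.2 = φ p.1 ^^^ p.2 ^^^ n` so `φ p.1 ^^^ p.2 = y`;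
   second: `φ q.1 ^^^ q.2 = φ f' ^^^ j`, so `j = n`;
   third: `φ p.1 ^^^ p.2 = φ f' ^^^ n ^^^ q.2 = φ q.1` where `p ∈ opt q.1`, contradiction with
   `(hφ q.1).1` (4th disjunct).
(2) `i < y ^^^ n → P f i`: `Nat.lt_xor_cases : a < b ^^^ c → a ^^^ c < b ∨ a ^^^ b < c`.
 If `i ^^^ n < y`: `(hφ f').2 _ this` gives `P f' (i ^^^ n)`; xor with `n` (ih, h1, h2, h3).
 If `i ^^^ y < n`: h4 with `i ^^^ y` : `φ q.1 ^^^ q.2 = φ f' ^^^ (i ^^^ y) = i`.
-/

namespace Pool.Agent.CramNC

private theorem st_x {a b c : ℕ} (h : a = b ^^^ c) : b = a ^^^ c := by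
  rw [h, Nat.xor_assoc, Nat.xor_self, Nat.xor_zero]

private theorem st_c (a b : ℕ) : a ^^^ b ^^^ b = a := by
  rw [Nat.xor_assoc, Nat.xor_self, Nat.xor_zero]

/-- One-step criterion for `Eqv`. -/
theorem step {f f' : F} {n : ℕ} (h1 : gF f = gF f' ^^^ n)
    (h2 : ∀ m, m ∈ vm f ↔ m ^^^ n ∈ vm f')
    (h3 : ∀ p ∈ opt f', ∃ q ∈ opt f, Eqv q.1 p.1 (p.2 ^^^ q.2 ^^^ n))
    (h4 : ∀ i < n, ∃ q ∈ opt f, Eqv q.1 f' (i ^^^ q.2))
    (h5 : ∀ q ∈ opt f, (∃ p ∈ opt f', Eqv q.1 p.1 (p.2 ^^^ q.2 ^^^ n)) ∨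
      (∃ j, j ≠ n ∧ Eqv q.1 f' (j ^^^ q.2)) ∨
      (∃ p ∈ opt q.1, Eqv p.1 f' (p.2 ^^^ q.2 ^^^ n))) :
    Eqv f f' n := by
  refine ⟨h1, fun φ h => ?_⟩
  induction h with
  | mk φ stay rem alone hs hφ ih =>
    have hc : IsCtx φ := IsCtx.mk φ stay rem alone hs hφ
    have e2 : ∀ {u v : F} {k : ℕ}, Eqv u v k → φ u = φ v ^^^ k := fun hE => hE.2 φ hc
    obtain ⟨hno, hyes⟩ := hφ f'
    refine IsMex.unique (hφ f) ⟨?_, ?_⟩
    · rintro (⟨p, hp, hx⟩ | ⟨r, hr, hx⟩ | ⟨m, hm, hx⟩ | ⟨q, hq, hx⟩)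
      · refine hno (Or.inl ⟨p, hp, ?_⟩)
        rw [ih p hp] at hx
        apply Nat.eq_of_testBit_eq
        intro i
        have h7 := congrArg (fun t => t.testBit i) hx
        simp only [Nat.testBit_xor] at h7 ⊢
        revert h7
        cases (φ f').testBit i <;> cases (p.1 f').testBit i <;> cases p.2.testBit i <;>
          cases n.testBit i <;> simp
      · refine hno (Or.inr (Or.inl ⟨r, hr, ?_⟩))
        rw [h1, ← Nat.xor_assoc] at hx
        rw [st_x hx, st_c]
      · refine hno (Or.inr (Or.inr (Or.inl ⟨m ^^^ n, (h2 m).1 hm, ?_⟩)))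
        apply Nat.eq_of_testBit_eq
        intro i
        have h7 := congrArg (fun t => t.testBit i) hx
        simp only [Nat.testBit_xor] at h7 ⊢
        revert h7
        cases (φ f').testBit i <;> cases alone.testBit i <;> cases m.testBit i <;>
          cases n.testBit i <;> simp
      · rcases h5 q hq with ⟨p, hp, hE⟩ | ⟨j, hj, hE⟩ | ⟨p, hp, hE⟩
        · refine hno (Or.inr (Or.inr (Or.inr ⟨p, hp, ?_⟩)))
          rw [e2 hE] at hx
          apply Nat.eq_of_testBit_eq
          intro i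
          have h7 := congrArg (fun t => t.testBit i) hx
          simp only [Nat.testBit_xor] at h7 ⊢
          revert h7
          cases (φ f').testBit i <;> cases (φ p.1).testBit i <;> cases p.2.testBit i <;>
            cases q.2.testBit i <;> cases n.testBit i <;> simp
        · rw [e2 hE] at hx
          refine hj ?_
          have h6 := st_x hx
          apply Nat.eq_of_testBit_eq
          intro i
          have h7 := congrArg (fun t => t.testBit i) h6
          simp only [Nat.testBit_xor] at h7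
          revert h7
          cases (φ f').testBit i <;> cases j.testBit i <;> cases q.2.testBit i <;> cases n.testBit i <;> simp
        · have h8 := (hφ q.1).1
          refine h8 (Or.inr (Or.inr (Or.inr ⟨p, hp, ?_⟩)))
          rw [e2 hE]
          apply Nat.eq_of_testBit_eq
          intro i
          have h7 := congrArg (fun t => t.testBit i) hx
          simp only [Nat.testBit_xor] at h7 ⊢
          revert h7
          cases (φ f').testBit i <;> cases (φ q.1).testBit i <;> cases p.2.testBit i <;> cases q.2.testBit i <;>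
            cases n.testBit i <;> simp
    · intro i hi
      rcases Nat.lt_xor_cases hi with h | h
      · rcases hyes _ h with ⟨p, hp, hx⟩ | ⟨r, hr, hx⟩ | ⟨m, hm, hx⟩ | ⟨q, hq, hx⟩
        · refine Or.inl ⟨p, hp, ?_⟩
          rw [ih p hp, Nat.xor_assoc, Nat.xor_comm n p.2, ← Nat.xor_assoc, ← hx, st_c]
        · refine Or.inr (Or.inl ⟨r, hr, ?_⟩)
          rw [h1, ← Nat.xor_assoc, ← hx, st_c]
        · refine Or.inr (Or.inr (Or.inl ⟨m ^^^ n, ?_, ?_⟩))
          · rw [h2, st_c]; exact hm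
          · rw [← Nat.xor_assoc, ← hx, st_c]
        · obtain ⟨q', hq', hE⟩ := h3 q hq
          refine Or.inr (Or.inr (Or.inr ⟨q', hq', ?_⟩))
          rw [e2 hE]
          apply Nat.eq_of_testBit_eq
          intro k
          have h7 := congrArg (fun t => t.testBit k) hx
          simp only [Nat.testBit_xor] at h7 ⊢
          revert h7
          cases i.testBit k <;> cases (φ q.1).testBit k <;> cases q.2.testBit k <;> cases q'.2.testBit k <;>
            cases n.testBit k <;> simp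
      · obtain ⟨q, hq, hE⟩ := h4 _ h
        refine Or.inr (Or.inr (Or.inr ⟨q, hq, ?_⟩))
        rw [e2 hE]
        apply Nat.eq_of_testBit_eq
        intro k
        simp only [Nat.testBit_xor]
        cases i.testBit k <;> cases (φ f').testBit k <;> cases q.2.testBit k <;> rfl

end Pool.Agent.CramNC
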