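import Pool.Agent.CramNC.CtxLemmas
import Pool.Agent.CramNC.Step

/-!
# A certified table of classes of trees

Class `X` is represented by the tree `T X = up (fl T (rep X))`, where `rep X` lists the classes of
the children.  An entry `(ch, X, n)` of a table says: the tree whose children are the
representatives of the classes `ch` is equivalent to `T X` with offset `n`.
-/

namespace Pool.Agent.CramNC

/-- the data of a class: `a` the value of the tree, `s` the value of the forest of children, `M` the
values after matching the root, `O` the options (class, offset), `rep` the children -/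
structure Dsc where
  a : ℕ
  s : ℕ
  M : List ℕ
  O : List (ℕ × ℕ)
  rep : List ℕ

/-- the forest of the representatives of a list of classes -/
def fl (T : ℕ → F) : List ℕ → F
  | [] => F.nil
  | c :: cs => F.app (T c) (fl T cs)

/-- value of the forest -/
def sL (cls : ℕ → Dsc) : List ℕ → ℕ
  | [] => 0
  | c :: cs => (cls c).a ^^^ sL cls cs

/-- values after matching `v` with a root -/
def mL (cls : ℕ → Dsc) : List ℕ → List ℕ
  | [] => []
  | c :: cs => ((cls c).s ^^^ sL cls cs) :: (mL cls cs).map (fun m => (cls c).a ^^^ m)

/-- moves inside the forest, as lists of classes with offsets -/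
def oL (cls : ℕ → Dsc) : List ℕ → List (List ℕ × ℕ)
  | [] => []
  | c :: cs => (cls c).M.map (fun m => (cs, m)) ++ (cls c).O.map (fun p => (p.1 :: cs, p.2)) ++
      (oL cls cs).map (fun p => (c :: p.1, p.2))

/-- table look-up -/
def lookup (tbl : List (List ℕ × ℕ × ℕ)) (ch : List ℕ) : Option (ℕ × ℕ) :=
  match tbl with
  | [] => none
  | e :: t => if e.1 = ch then some e.2 else lookup t ch

/-- the options of the tree with children `ch`, as (class, offset) -/
def rO (cls : ℕ → Dsc) (tbl : List (List ℕ × ℕ × ℕ)) (ch : List ℕ) : Option (List (ℕ × ℕ)) :=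
  (oL cls ch).mapM (fun p => (lookup tbl p.1).map (fun r => (r.1, r.2 ^^^ p.2)))

/-- `a` is the mex of the list -/
def mexB (a : ℕ) (l : List ℕ) : Bool := !(l.contains a) && (List.range a).all (fun i => l.contains i)

/-- check of an entry whose class is old; `O` are the resolved options of `ch` -/
def chkOld (cls : ℕ → Dsc) (O : List (ℕ × ℕ)) (ch : List ℕ) (X n : ℕ) : Bool :=
  (sL cls ch == ((cls X).s ^^^ n)) &&
  (mL cls ch).all (fun m => (cls X).M.contains (m ^^^ n)) &&
  (cls X).M.all (fun m => (mL cls ch).contains (m ^^^ n)) &&
  (List.range n).all (fun i => O.contains (X, i)) &&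
  (cls X).O.all (fun q => O.contains (q.1, q.2 ^^^ n)) &&
  O.all (fun r => (cls X).O.contains (r.1, r.2 ^^^ n) || (r.1 == X && r.2 != n) ||
    (cls r.1).O.contains (X, r.2 ^^^ n))

/-- check of the entry of a new class -/
def chkNew (cls : ℕ → Dsc) (O : List (ℕ × ℕ)) (ch : List ℕ) (X : ℕ) : Bool :=
  (ch == (cls X).rep) && (sL cls ch == (cls X).s) &&
  (mL cls ch).all (fun m => (cls X).M.contains m) &&
  (cls X).M.all (fun m => (mL cls ch).contains m) &&
  O.all (fun r => (cls X).O.contains r) && (cls X).O.all (fun r => O.contains r)

/-- check of one entry, `k` = number of classes so far; returns the new number of classes -/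
def chkE (cls : ℕ → Dsc) (tbl : List (List ℕ × ℕ × ℕ)) (k : ℕ) (e : List ℕ × ℕ × ℕ) : Option ℕ :=
  match rO cls tbl e.1 with
  | none => none
  | some O =>
    if e.1.all (fun c => decide (c < k)) &&
        mexB ((cls e.2.1).a ^^^ e.2.2) (mL cls e.1 ++ O.map (fun r => (cls r.1).a ^^^ r.2)) then
      if decide (e.2.1 < k) && chkOld cls O e.1 e.2.1 e.2.2 then some k
      else if e.2.1 == k && e.2.2 == 0 && chkNew cls O e.1 e.2.1 then some (k + 1)
      else none
    else none

/-- check of a table from the verified part `tbl` on -/
def chkT (cls : ℕ → Dsc) : List (List ℕ × ℕ × ℕ) → ℕ → List (List ℕ × ℕ × ℕ) → Bool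
  | _, _, [] => true
  | tbl, k, e :: es => match chkE cls tbl k e with
    | none => false
    | some k' => chkT cls (e :: tbl) k' es

end Pool.Agent.CramNC
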