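import Pool.Agent.CramNC.TableSound

/-!
# Evaluation of tree expressions with the table

Plan.  `exists_T`: `Tf : ℕ → ℕ → F`, `Tf 0 X = up nil`, `Tf (k+1) X = up (fl (Tf k) (cls X).rep)`, and
`T X = Tf (X+1) X`; stability: `c < k → Tf k c = Tf (c+1) c` by strong induction on `c`
(`fl` depends only on the values at the members of the list).
`ev_sound`: induction on `x`; `lookup ents ch = some r → (ch, r) ∈ ents` (own induction), then
`table_sound`; `n1`: `Eqv x.toF (T a.1) a.2` gives with `appL`, `up`:
`Eqv (up (app x.toF nil)) (up (fl T [a.1])) a.2`, then `trans`; `n2` alike with `appR`.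
(`fl T [c] = app (T c) nil`, `fl T [c, d] = app (T c) (app (T d) nil)` hold by `rfl`.)
-/

namespace Pool.Agent.CramNC

/-- Tree expressions. -/
inductive X : Type
  | n0 : X
  | n1 : X → X
  | n2 : X → X → X

namespace X

/-- the tree -/
def toF : X → F
  | n0 => F.up F.nil
  | n1 x => F.up (F.app (toF x) F.nil)
  | n2 x y => F.up (F.app (toF x) (F.app (toF y) F.nil))

/-- its class and offset -/
def ev (tbl : List (List ℕ × ℕ × ℕ)) : X → Option (ℕ × ℕ)
  | n0 => lookup tbl []
  | n1 x => match ev tbl x with
    | none => none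
    | some a => match lookup tbl [a.1] with
      | none => none
      | some r => some (r.1, r.2 ^^^ a.2)
  | n2 x y => match ev tbl x, ev tbl y with
    | some a, some b => match lookup tbl [a.1, b.1] with
      | none => none
      | some r => some (r.1, r.2 ^^^ a.2 ^^^ b.2)
    | _, _ => none

end X

private theorem fl_congr {T T' : ℕ → F} : ∀ {l : List ℕ}, (∀ c ∈ l, T c = T' c) → fl T l = fl T' l
  | [], _ => rfl
  | c :: cs, h => by
    have h1 : T c = T' c := h c (List.mem_cons_self)
    have h2 : fl T cs = fl T' cs := fl_congr (fun d hd => h d (List.mem_cons_of_mem _ hd))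
    show F.app (T c) (fl T cs) = F.app (T' c) (fl T' cs)
    rw [h1, h2]

/-- approximations of the representatives -/
private def Tf (cls : ℕ → Dsc) : ℕ → ℕ → F
  | 0, _ => F.up F.nil
  | k + 1, X => F.up (fl (Tf cls k) (cls X).rep)

private theorem Tf_stable (cls : ℕ → Dsc) (hrep : ∀ X, ∀ c ∈ (cls X).rep, c < X) :
    ∀ X k, X < k → Tf cls k X = Tf cls (X + 1) X := by
  intro X
  induction X using Nat.strong_induction_on with
  | _ X ih =>
    intro k hk
    obtain ⟨k', rfl⟩ : ∃ k', k = k' + 1 := ⟨k - 1, by omega⟩
    show F.up (fl (Tf cls k') (cls X).rep) = F.up (fl (Tf cls X) (cls X).rep)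
    congr 1
    apply fl_congr
    intro c hc
    have hcX := hrep X c hc
    rw [ih c hcX k' (by omega), ih c hcX X hcX]

/-- the representatives exist -/
theorem exists_T (cls : ℕ → Dsc) (hrep : ∀ X, ∀ c ∈ (cls X).rep, c < X) :
    ∃ T : ℕ → F, ∀ X, T X = F.up (fl T (cls X).rep) := by
  refine ⟨fun X => Tf cls (X + 1) X, fun X => ?_⟩
  show F.up (fl (Tf cls X) (cls X).rep) = _
  congr 1
  apply fl_congr
  intro c hc
  exact Tf_stable cls hrep c X (hrep X c hc)

private theorem lookup_mem {ents : List (List ℕ × ℕ × ℕ)} {ch : List ℕ} {r : ℕ × ℕ}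
    (h : lookup ents ch = some r) : (ch, r) ∈ ents := by
  induction ents with
  | nil => simp [lookup] at h
  | cons e t ih =>
    unfold lookup at h
    by_cases he : e.1 = ch
    · rw [if_pos he] at h
      have h2 : e.2 = r := Option.some.inj h
      have : (ch, r) = e := by rw [← he, ← h2]
      rw [this]
      exact List.mem_cons_self
    · rw [if_neg he] at h
      exact List.mem_cons_of_mem _ (ih h)

theorem ev_sound {cls : ℕ → Dsc} {T : ℕ → F} (hT : ∀ X, T X = F.up (fl T (cls X).rep))
    {ents : List (List ℕ × ℕ × ℕ)} (h : chkT cls [] 0 ents = true) {x : X} {r : ℕ × ℕ}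
    (hx : x.ev ents = some r) :
    Eqv x.toF (T r.1) r.2 ∧ gF (T r.1) = (cls r.1).a := by
  induction x generalizing r with
  | n0 => exact table_sound hT h _ (lookup_mem hx)
  | n1 x ih =>
    rw [X.ev] at hx
    cases ha : x.ev ents with
    | none => rw [ha] at hx; simp at hx
    | some a =>
      rw [ha] at hx
      simp only at hx
      cases hl : lookup ents [a.1] with
      | none => rw [hl] at hx; simp at hx
      | some r0 =>
        rw [hl] at hx
        simp only [Option.some.injEq] at hx
        subst hx
        have h1 := (ih ha).1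
        have h2 := table_sound hT h _ (lookup_mem hl)
        refine ⟨?_, h2.2⟩
        have h3 := ((h1.appL F.nil).up).trans h2.1
        rw [Nat.xor_comm] at h3
        exact h3
  | n2 x y ihx ihy =>
    rw [X.ev] at hx
    cases ha : x.ev ents with
    | none => rw [ha] at hx; simp at hx
    | some a =>
      cases hb : y.ev ents with
      | none => rw [ha, hb] at hx; simp at hx
      | some b =>
        rw [ha, hb] at hx
        simp only at hx
        cases hl : lookup ents [a.1, b.1] with
        | none => rw [hl] at hx; simp at hx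
        | some r0 =>
          rw [hl] at hx
          simp only [Option.some.injEq] at hx
          subst hx
          have h1 := (ihx ha).1
          have h1' := (ihy hb).1
          have h2 := table_sound hT h _ (lookup_mem hl)
          refine ⟨?_, h2.2⟩
          have h3 := ((h1.appL (F.app y.toF F.nil)).trans ((h1'.appL F.nil).appR (T a.1))).up.trans
            h2.1
          have e : r0.2 ^^^ a.2 ^^^ b.2 = a.2 ^^^ b.2 ^^^ r0.2 := by
            rw [Nat.xor_assoc, Nat.xor_comm]
          show Eqv _ (T r0.1) (r0.2 ^^^ a.2 ^^^ b.2)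
          rw [e]
          exact h3

theorem ev_gF {cls : ℕ → Dsc} (hrep : ∀ X, ∀ c ∈ (cls X).rep, c < X)
    {ents : List (List ℕ × ℕ × ℕ)} (h : chkT cls [] 0 ents = true) {x : X} {r : ℕ × ℕ}
    (hx : x.ev ents = some r) : gF x.toF = (cls r.1).a ^^^ r.2 := by
  obtain ⟨T, hT⟩ := exists_T cls hrep
  have h1 := ev_sound hT h hx
  rw [h1.1.1, h1.2]

theorem ev_eqv {cls : ℕ → Dsc} (hrep : ∀ X, ∀ c ∈ (cls X).rep, c < X)
    {ents : List (List ℕ × ℕ × ℕ)} (h : chkT cls [] 0 ents = true) {x y : X} {r i j : ℕ}
    (hx : x.ev ents = some (r, i)) (hy : y.ev ents = some (r, j)) :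
    Eqv x.toF y.toF (i ^^^ j) := by
  obtain ⟨T, hT⟩ := exists_T cls hrep
  exact (ev_sound hT h hx).1.trans (ev_sound hT h hy).1.symm

end Pool.Agent.CramNC
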