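import Pool.Agent.CramNC.TableDef

/-!
# Soundness of the table

Plan (`T X = up (fl T (rep X))`).  For a class `X` let `GoodC k X` be:
 `gF (T X) = a X`, `gF (fl T (rep X)) = s X`, `∀ m, m ∈ vm (fl T (rep X)) ↔ m ∈ M X`,
 `∀ q ∈ opt (fl T (rep X)), ∃ p ∈ O X, Eqv (up q.1) (T p.1) (q.2 ^^^ p.2)`,
 `∀ p ∈ O X, p.1 < k ∧ ∃ q ∈ opt (fl T (rep X)), Eqv (up q.1) (T p.1) (q.2 ^^^ p.2)`.
Invariant for `chkT cls tbl k es = true`: (I1) every `e ∈ tbl` satisfies
 `e.2.1 < k ∧ Eqv (up (fl T e.1)) (T e.2.1) e.2.2`; (I2) `∀ X < k, GoodC k X` (monotone in `k`).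
Conclusion by induction on `es`: all entries of `es` are equivalences with class good.
* For a list `ch` of good classes: `gF (fl T ch) = sL cls ch`, `m ∈ vm (fl T ch) ↔ m ∈ mL cls ch`
  (`vm_app`, `vm_up`: `T c = up ..` so `vm (T c) = {s c}`), and
  (LO) `∀ q ∈ opt (fl T ch), ∃ p ∈ oL cls ch, Eqv q.1 (fl T p.1) (q.2 ^^^ p.2)` and
       `∀ p ∈ oL cls ch, ∃ q ∈ opt (fl T ch), Eqv q.1 (fl T p.1) (q.2 ^^^ p.2)`
  by induction on `ch` (`opt_app`, `opt_up` for `T c = up (fl (rep c))`: the option `(nil, m)` gives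
  `app nil (fl cs)`, use `Eqv.nil_app`; the option `(up q.1, q.2)` is by GoodC some `(T d, j)`: `Eqv.appL`;
  options of the tail: `Eqv.appR`).
* `rO` succeeds with list `O`: `r ∈ O ↔ ∃ p ∈ oL cls ch, ∃ r', lookup tbl p.1 = some r' ∧
  r = (r'.1, r'.2 ^^^ p.2)` and every `p ∈ oL cls ch` has a look-up (`List.mapM_option...` or own
  induction); with (LO), `Eqv.up` and (I1):
  (RO) `∀ q ∈ opt (fl T ch), ∃ r ∈ O, Eqv (up q.1) (T r.1) (q.2 ^^^ r.2)` and conversely for `r ∈ O`.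
* `gF (up (fl T ch)) = a X ^^^ n`: `IsMex.unique (gF_up _)` with the mex check (`(RO)`, `gF` part of Eqv).
* old class: `step` for `f = up (fl T ch)`, `f' = T X = up (fl T (rep X))`: options of `f` are `(nil, m)`,
  `m ∈ vm (fl T ch)` and `(up q.1, q.2)`, `q ∈ opt (fl T ch)` (`opt_up`); `Eqv.refl nil`.
  The third alternative of `step` uses `GoodC` of the class `r.1`.
* new class: `ch = rep X`, so `T X = up (fl T ch)`, `Eqv.refl`; GoodC from the checks.
-/

namespace Pool.Agent.CramNC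

private theorem xc (a b : ℕ) : a ^^^ (a ^^^ b) = b := by
  rw [← Nat.xor_assoc, Nat.xor_self, Nat.zero_xor]

private theorem xc' (a b : ℕ) : a ^^^ b ^^^ b = a := by
  rw [Nat.xor_assoc, Nat.xor_self, Nat.xor_zero]

/-- The one-step criterion; in the third alternative `q.1` may be replaced by an equivalent forest. -/
theorem step_gen {f f' : F} {n : ℕ} (h1 : gF f = gF f' ^^^ n)
    (h2 : ∀ m, m ∈ vm f ↔ m ^^^ n ∈ vm f')
    (h3 : ∀ p ∈ opt f', ∃ q ∈ opt f, Eqv q.1 p.1 (p.2 ^^^ q.2 ^^^ n))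
    (h4 : ∀ i < n, ∃ q ∈ opt f, Eqv q.1 f' (i ^^^ q.2))
    (h5 : ∀ q ∈ opt f, (∃ p ∈ opt f', Eqv q.1 p.1 (p.2 ^^^ q.2 ^^^ n)) ∨
      (∃ j, j ≠ n ∧ Eqv q.1 f' (j ^^^ q.2)) ∨
      (∃ g j, Eqv q.1 g j ∧ ∃ p ∈ opt g, Eqv p.1 f' (p.2 ^^^ q.2 ^^^ j ^^^ n))) :
    Eqv f f' n := by
  refine ⟨h1, fun φ hctx => ?_⟩
  induction hctx with
  | mk φ stay rem alone hs hφ ih =>
    have hc : IsCtx φ := IsCtx.mk φ stay rem alone hs hφ
    refine IsMex.unique (hφ f) ⟨?_, ?_⟩
    · intro hP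
      have key : ∀ z, φ f' ^^^ n = z → φ f' = z ^^^ n := fun z hz => by rw [← hz, xc']
      rcases hP with ⟨p, hp, hx⟩ | ⟨r, hr, hx⟩ | ⟨m, hm, hx⟩ | ⟨q, hq, hx⟩
      · refine (hφ f').1 (Or.inl ⟨p, hp, ?_⟩)
        rw [key _ hx, ih p hp]
        simp only [Nat.xor_comm, Nat.xor_left_comm, Nat.xor_assoc, Nat.xor_self, xc, Nat.xor_zero]
      · refine (hφ f').1 (Or.inr (Or.inl ⟨r, hr, ?_⟩))
        rw [key _ hx, h1]
        simp only [Nat.xor_comm, Nat.xor_left_comm, Nat.xor_assoc, Nat.xor_self, xc, Nat.xor_zero]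
      · refine (hφ f').1 (Or.inr (Or.inr (Or.inl ⟨m ^^^ n, (h2 m).1 hm, ?_⟩)))
        rw [key _ hx, Nat.xor_assoc]
      · rcases h5 q hq with ⟨p, hp, he⟩ | ⟨j, hj, he⟩ | ⟨g, j, he, p, hp, he2⟩
        · refine (hφ f').1 (Or.inr (Or.inr (Or.inr ⟨p, hp, ?_⟩)))
          rw [key _ hx, he.2 φ hc]
          simp only [Nat.xor_comm, Nat.xor_left_comm, Nat.xor_assoc, Nat.xor_self, xc, Nat.xor_zero]
        · apply hj
          have e := he.2 φ hc
          rw [e] at hx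
          have e2 : φ f' ^^^ n = φ f' ^^^ j := by
            rw [hx, Nat.xor_assoc, xc']
          have e3 := congrArg (fun z => φ f' ^^^ z) e2
          simp only [xc] at e3
          exact e3.symm
        · refine (hφ g).1 (Or.inr (Or.inr (Or.inr ⟨p, hp, ?_⟩)))
          have e := he.2 φ hc
          have e2 := he2.2 φ hc
          have e3 : φ g = φ q.1 ^^^ j := by rw [e, xc']
          have e4 : φ q.1 = φ f' ^^^ n ^^^ q.2 := by rw [hx, xc']
          rw [e3, e4, e2]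
          simp only [Nat.xor_comm, Nat.xor_left_comm, Nat.xor_assoc, Nat.xor_self, xc, Nat.xor_zero]
    · intro i hi
      have key : ∀ z, i ^^^ n = z → i = z ^^^ n := fun z hz => by rw [← hz, xc']
      rcases Nat.lt_xor_cases hi with hlt | hlt
      · rcases (hφ f').2 _ hlt with ⟨p, hp, hx⟩ | ⟨r, hr, hx⟩ | ⟨m, hm, hx⟩ | ⟨p, hp, hx⟩
        · refine Or.inl ⟨p, hp, ?_⟩
          rw [key _ hx, ih p hp]
          simp only [Nat.xor_comm, Nat.xor_left_comm, Nat.xor_assoc]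
        · refine Or.inr (Or.inl ⟨r, hr, ?_⟩)
          rw [key _ hx, h1, Nat.xor_assoc]
        · refine Or.inr (Or.inr (Or.inl ⟨m ^^^ n, (h2 _).2 (by rw [xc']; exact hm), ?_⟩))
          rw [key _ hx, Nat.xor_assoc]
        · obtain ⟨q, hq, he⟩ := h3 p hp
          refine Or.inr (Or.inr (Or.inr ⟨q, hq, ?_⟩))
          rw [key _ hx, he.2 φ hc]
          simp only [Nat.xor_comm, Nat.xor_left_comm, Nat.xor_assoc, Nat.xor_self, xc, Nat.xor_zero]
      · obtain ⟨q, hq, he⟩ := h4 _ hlt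
        refine Or.inr (Or.inr (Or.inr ⟨q, hq, ?_⟩))
        rw [he.2 φ hc]
        simp only [Nat.xor_comm, Nat.xor_left_comm, Nat.xor_assoc, Nat.xor_self, xc, Nat.xor_zero]

/-- The data of the class `X` are correct. -/
structure GoodC (cls : ℕ → Dsc) (T : ℕ → F) (X : ℕ) : Prop where
  a : gF (T X) = (cls X).a
  s : gF (fl T (cls X).rep) = (cls X).s
  m : ∀ m, m ∈ vm (fl T (cls X).rep) ↔ m ∈ (cls X).M
  o1 : ∀ q ∈ opt (fl T (cls X).rep), ∃ p ∈ (cls X).O, Eqv (F.up q.1) (T p.1) (q.2 ^^^ p.2)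
  o2 : ∀ p ∈ (cls X).O, ∃ q ∈ opt (fl T (cls X).rep), Eqv (F.up q.1) (T p.1) (q.2 ^^^ p.2)

section lists

variable {cls : ℕ → Dsc} {T : ℕ → F}

private theorem gF_fl {ch : List ℕ} (hg : ∀ c ∈ ch, GoodC cls T c) : gF (fl T ch) = sL cls ch := by
  induction ch with
  | nil => simp [fl, sL]
  | cons c cs ih =>
    rw [fl, sL, gF_app, (hg c List.mem_cons_self).a, ih (fun d hd => hg d (List.mem_cons_of_mem _ hd))]

private theorem vm_fl (hT : ∀ X, T X = F.up (fl T (cls X).rep)) {ch : List ℕ}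
    (hg : ∀ c ∈ ch, GoodC cls T c) (m : ℕ) : m ∈ vm (fl T ch) ↔ m ∈ mL cls ch := by
  induction ch generalizing m with
  | nil => simp [fl, mL]
  | cons c cs ih =>
    have hc := hg c List.mem_cons_self
    have hcs : ∀ d ∈ cs, GoodC cls T d := fun d hd => hg d (List.mem_cons_of_mem _ hd)
    have e : ∀ x, x ∈ vm (T c) ↔ x = (cls c).s := by
      intro x
      rw [hT c, vm_up, hc.s]
    rw [fl, mL, vm_app, List.mem_cons, List.mem_map, gF_fl hcs, hc.a]
    constructor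
    · rintro (⟨x, hx, h⟩ | ⟨x, hx, h⟩)
      · left
        rw [h, (e x).1 hx]
      · right
        exact ⟨x, (ih hcs x).1 hx, h.symm⟩
    · rintro (h | ⟨x, hx, h⟩)
      · exact Or.inl ⟨(cls c).s, (e _).2 rfl, h⟩
      · exact Or.inr ⟨x, (ih hcs x).2 hx, h.symm⟩

private theorem opt_fl1 (hT : ∀ X, T X = F.up (fl T (cls X).rep)) {ch : List ℕ}
    (hg : ∀ c ∈ ch, GoodC cls T c) : ∀ q ∈ opt (fl T ch), ∃ p ∈ oL cls ch, Eqv q.1 (fl T p.1) (q.2 ^^^ p.2) := by
  induction ch with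
  | nil => intro q hq; simp [fl] at hq
  | cons c cs ih =>
    have hc := hg c List.mem_cons_self
    have hcs : ∀ d ∈ cs, GoodC cls T d := fun d hd => hg d (List.mem_cons_of_mem _ hd)
    intro q hq
    rw [fl, opt_app] at hq
    rcases hq with ⟨q', hq', rfl⟩ | ⟨q', hq', rfl⟩
    · rw [hT c, opt_up] at hq'
      rcases hq' with ⟨m, hm, rfl⟩ | ⟨q'', hq'', rfl⟩
      · refine ⟨(cs, m), ?_, ?_⟩
        · rw [oL]
          exact List.mem_append_left _ (List.mem_append_left _ (List.mem_map.2 ⟨m, (hc.m m).1 hm, rfl⟩))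
        · show Eqv (F.app F.nil (fl T cs)) (fl T cs) (m ^^^ m)
          rw [Nat.xor_self]
          exact Eqv.nil_app _
      · obtain ⟨p, hp, he⟩ := hc.o1 q'' hq''
        refine ⟨(p.1 :: cs, p.2), ?_, ?_⟩
        · rw [oL]
          exact List.mem_append_left _ (List.mem_append_right _ (List.mem_map.2 ⟨p, hp, rfl⟩))
        · exact he.appL (fl T cs)
    · obtain ⟨p, hp, he⟩ := ih hcs q' hq'
      refine ⟨(c :: p.1, p.2), ?_, ?_⟩
      · rw [oL]
        exact List.mem_append_right _ (List.mem_map.2 ⟨p, hp, rfl⟩)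
      · exact he.appR (T c)

private theorem opt_fl2 (hT : ∀ X, T X = F.up (fl T (cls X).rep)) {ch : List ℕ}
    (hg : ∀ c ∈ ch, GoodC cls T c) : ∀ p ∈ oL cls ch, ∃ q ∈ opt (fl T ch), Eqv q.1 (fl T p.1) (q.2 ^^^ p.2) := by
  induction ch with
  | nil => intro p hp; simp [oL] at hp
  | cons c cs ih =>
    have hc := hg c List.mem_cons_self
    have hcs : ∀ d ∈ cs, GoodC cls T d := fun d hd => hg d (List.mem_cons_of_mem _ hd)
    intro p hp
    rw [oL, List.mem_append, List.mem_append, List.mem_map, List.mem_map, List.mem_map] at hp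
    rcases hp with (⟨m, hm, rfl⟩ | ⟨p', hp', rfl⟩) | ⟨p', hp', rfl⟩
    · refine ⟨(F.app F.nil (fl T cs), m), ?_, ?_⟩
      · rw [fl, opt_app, hT c]
        exact Or.inl ⟨(F.nil, m), (opt_up _ _).2 (Or.inl ⟨m, (hc.m m).2 hm, rfl⟩), rfl⟩
      · show Eqv (F.app F.nil (fl T cs)) (fl T cs) (m ^^^ m)
        rw [Nat.xor_self]
        exact Eqv.nil_app _
    · obtain ⟨q, hq, he⟩ := hc.o2 p' hp'
      refine ⟨(F.app (F.up q.1) (fl T cs), q.2), ?_, ?_⟩
      · rw [fl, opt_app, hT c]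
        exact Or.inl ⟨(F.up q.1, q.2), (opt_up _ _).2 (Or.inr ⟨q, hq, rfl⟩), rfl⟩
      · exact he.appL (fl T cs)
    · obtain ⟨q, hq, he⟩ := ih hcs p' hp'
      refine ⟨(F.app (T c) q.1, q.2), ?_, ?_⟩
      · rw [fl, opt_app]
        exact Or.inr ⟨q, hq, rfl⟩
      · exact he.appR (T c)

end lists

private theorem mapM_opt {α β : Type} (f : α → Option β) : ∀ (l : List α) (O : List β), l.mapM f = some O →
    (∀ p ∈ l, ∃ r ∈ O, f p = some r) ∧ (∀ r ∈ O, ∃ p ∈ l, f p = some r) := by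
  intro l
  induction l with
  | nil =>
    intro O h
    rw [List.mapM_nil] at h
    have hO : O = [] := (Option.some.inj h).symm
    subst hO
    exact ⟨fun p hp => absurd hp List.not_mem_nil, fun p hp => absurd hp List.not_mem_nil⟩
  | cons a l ih =>
    intro O h
    rw [List.mapM_cons] at h
    cases ha : f a with
    | none => rw [ha] at h; exact absurd h (by simp)
    | some b =>
      cases hl : l.mapM f with
      | none => rw [ha, hl] at h; exact absurd h (by simp)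
      | some bs =>
        rw [ha, hl] at h
        have hO : O = b :: bs := (Option.some.inj h).symm
        subst hO
        obtain ⟨i1, i2⟩ := ih bs hl
        refine ⟨?_, ?_⟩
        · intro p hp
          rcases List.mem_cons.1 hp with rfl | hp
          · exact ⟨b, List.mem_cons_self, ha⟩
          · obtain ⟨r, hr, e⟩ := i1 p hp
            exact ⟨r, List.mem_cons_of_mem _ hr, e⟩
        · intro r hr
          rcases List.mem_cons.1 hr with rfl | hr
          · exact ⟨a, List.mem_cons_self, ha⟩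
          · obtain ⟨p, hp, e⟩ := i2 r hr
            exact ⟨p, List.mem_cons_of_mem _ hp, e⟩

private theorem lookup_mem_tbl {tbl : List (List ℕ × ℕ × ℕ)} {ch : List ℕ} {r : ℕ × ℕ}
    (h : lookup tbl ch = some r) : (ch, r) ∈ tbl := by
  induction tbl with
  | nil => simp [lookup] at h
  | cons e t ih =>
    rw [lookup] at h
    split_ifs at h with he
    · have : e = (ch, r) := by rw [← he, ← Option.some.inj h]
      rw [this]
      exact List.mem_cons_self
    · exact List.mem_cons_of_mem _ (ih h)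

section resolved

variable {cls : ℕ → Dsc} {T : ℕ → F} {k : ℕ} {tbl : List (List ℕ × ℕ × ℕ)} {ch : List ℕ} {O : List (ℕ × ℕ)}

private theorem rO1 (hT : ∀ X, T X = F.up (fl T (cls X).rep))
    (I1 : ∀ e ∈ tbl, e.2.1 < k ∧ Eqv (F.up (fl T e.1)) (T e.2.1) e.2.2)
    (hg : ∀ c ∈ ch, GoodC cls T c) (hO : rO cls tbl ch = some O) :
    ∀ q ∈ opt (fl T ch), ∃ r ∈ O, Eqv (F.up q.1) (T r.1) (q.2 ^^^ r.2) := by
  intro q hq
  obtain ⟨p, hp, he⟩ := opt_fl1 hT hg q hq
  obtain ⟨r, hr, e⟩ := (mapM_opt _ _ _ hO).1 p hp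
  cases hl : lookup tbl p.1 with
  | none => rw [hl] at e; exact absurd e (by simp)
  | some r' =>
    rw [hl] at e
    have hr' : r = (r'.1, r'.2 ^^^ p.2) := (Option.some.inj e).symm
    refine ⟨r, hr, ?_⟩
    rw [hr']
    have h1 := he.up.trans (I1 _ (lookup_mem_tbl hl)).2
    have e3 : q.2 ^^^ p.2 ^^^ r'.2 = q.2 ^^^ (r'.2 ^^^ p.2) := by
      rw [Nat.xor_assoc, Nat.xor_comm p.2]
    rw [← e3]
    exact h1

private theorem rO2 (hT : ∀ X, T X = F.up (fl T (cls X).rep))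
    (I1 : ∀ e ∈ tbl, e.2.1 < k ∧ Eqv (F.up (fl T e.1)) (T e.2.1) e.2.2)
    (hg : ∀ c ∈ ch, GoodC cls T c) (hO : rO cls tbl ch = some O) :
    ∀ r ∈ O, r.1 < k ∧ ∃ q ∈ opt (fl T ch), Eqv (F.up q.1) (T r.1) (q.2 ^^^ r.2) := by
  intro r hr
  obtain ⟨p, hp, e⟩ := (mapM_opt _ _ _ hO).2 r hr
  obtain ⟨q, hq, he⟩ := opt_fl2 hT hg p hp
  cases hl : lookup tbl p.1 with
  | none => rw [hl] at e; exact absurd e (by simp)
  | some r' =>
    rw [hl] at e
    have hr' : r = (r'.1, r'.2 ^^^ p.2) := (Option.some.inj e).symm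
    obtain ⟨hk, h2⟩ := I1 _ (lookup_mem_tbl hl)
    rw [hr']
    refine ⟨hk, q, hq, ?_⟩
    have h1 := he.up.trans h2
    have e3 : q.2 ^^^ p.2 ^^^ r'.2 = q.2 ^^^ (r'.2 ^^^ p.2) := by
      rw [Nat.xor_assoc, Nat.xor_comm p.2]
    rw [← e3]
    exact h1

private theorem mex_val (hT : ∀ X, T X = F.up (fl T (cls X).rep))
    (I1 : ∀ e ∈ tbl, e.2.1 < k ∧ Eqv (F.up (fl T e.1)) (T e.2.1) e.2.2)
    (I2 : ∀ X < k, GoodC cls T X)
    (hg : ∀ c ∈ ch, GoodC cls T c) (hO : rO cls tbl ch = some O) {a : ℕ}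
    (hm : mexB a (mL cls ch ++ O.map (fun r => (cls r.1).a ^^^ r.2)) = true) :
    gF (F.up (fl T ch)) = a := by
  have h1 := rO1 hT I1 hg hO
  have h2 := rO2 hT I1 hg hO
  have hval : ∀ (q : F × ℕ) (r : ℕ × ℕ), r.1 < k → Eqv (F.up q.1) (T r.1) (q.2 ^^^ r.2) →
      (cls r.1).a ^^^ r.2 = gF (F.up q.1) ^^^ q.2 := by
    intro q r hr he
    rw [he.1, (I2 r.1 hr).a]
    simp only [Nat.xor_comm, Nat.xor_left_comm, Nat.xor_assoc, Nat.xor_self, xc, Nat.xor_zero]
  have hlist : IsMex a (fun x => x ∈ mL cls ch ++ O.map (fun r => (cls r.1).a ^^^ r.2)) := by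
    unfold mexB at hm
    rw [Bool.and_eq_true] at hm
    refine ⟨fun hx => ?_, fun i hi => ?_⟩
    · have h3 := hm.1
      rw [List.contains_iff_mem.2 hx] at h3
      exact absurd h3 (by simp)
    · have h3 := List.all_eq_true.1 hm.2 i (List.mem_range.2 hi)
      exact List.contains_iff_mem.1 h3
  refine IsMex.unique' (gF_up (fl T ch)) hlist (fun x => ?_)
  rw [List.mem_append, List.mem_map, vm_fl hT hg x]
  refine or_congr Iff.rfl ⟨?_, ?_⟩
  · rintro ⟨q, hq, rfl⟩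
    obtain ⟨r, hr, he⟩ := h1 q hq
    exact ⟨r, hr, hval q r (h2 r hr).1 he⟩
  · rintro ⟨r, hr, rfl⟩
    obtain ⟨hk, q, hq, he⟩ := h2 r hr
    exact ⟨q, hq, hval q r hk he⟩

private theorem old_eqv (hT : ∀ X, T X = F.up (fl T (cls X).rep))
    (I1 : ∀ e ∈ tbl, e.2.1 < k ∧ Eqv (F.up (fl T e.1)) (T e.2.1) e.2.2)
    (I2 : ∀ X < k, GoodC cls T X)
    (hg : ∀ c ∈ ch, GoodC cls T c) (hO : rO cls tbl ch = some O) {X n : ℕ} (hX : X < k)
    (hval : gF (F.up (fl T ch)) = (cls X).a ^^^ n) (hchk : chkOld cls O ch X n = true) :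
    Eqv (F.up (fl T ch)) (T X) n := by
  have h1 := rO1 hT I1 hg hO
  have h2 := rO2 hT I1 hg hO
  have gX := I2 X hX
  unfold chkOld at hchk
  simp only [Bool.and_eq_true, List.all_eq_true, beq_iff_eq, List.mem_range, Bool.or_eq_true,
    List.contains_iff_mem, bne_iff_ne] at hchk
  obtain ⟨⟨⟨⟨⟨c1, c2⟩, c3⟩, c4⟩, c5⟩, c6⟩ := hchk
  refine step_gen ?_ ?_ ?_ ?_ ?_
  · rw [hval, gX.a]
  · intro m
    rw [hT X, vm_up, vm_up, gF_fl hg, gX.s, c1]
    constructor
    · rintro rfl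
      rw [xc']
    · intro h
      rw [← h, xc']
  · intro p hp
    rw [hT X, opt_up] at hp
    rcases hp with ⟨m, hm, rfl⟩ | ⟨p', hp', rfl⟩
    · refine ⟨(F.nil, m ^^^ n), (opt_up _ _).2 (Or.inl ⟨m ^^^ n, (vm_fl hT hg _).2 (c3 m ((gX.m m).1 hm)), rfl⟩), ?_⟩
      show Eqv F.nil F.nil (m ^^^ (m ^^^ n) ^^^ n)
      rw [xc, Nat.xor_self]
      exact Eqv.refl _
    · obtain ⟨o, ho, he⟩ := gX.o1 p' hp'
      obtain ⟨_, q, hq, he2⟩ := h2 _ (c5 o ho)
      refine ⟨(F.up q.1, q.2), (opt_up _ _).2 (Or.inr ⟨q, hq, rfl⟩), ?_⟩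
      have h3 := he2.trans he.symm
      have e : q.2 ^^^ (o.2 ^^^ n) ^^^ (p'.2 ^^^ o.2) = p'.2 ^^^ q.2 ^^^ n := by
        simp only [Nat.xor_comm, Nat.xor_left_comm, Nat.xor_assoc, Nat.xor_self, xc, Nat.xor_zero]
      rw [e] at h3
      exact h3
  · intro i hi
    obtain ⟨_, q, hq, he⟩ := h2 _ (c4 i hi)
    refine ⟨(F.up q.1, q.2), (opt_up _ _).2 (Or.inr ⟨q, hq, rfl⟩), ?_⟩
    show Eqv (F.up q.1) (T X) (i ^^^ q.2)
    rw [Nat.xor_comm]
    exact he
  · intro q hq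
    rw [opt_up] at hq
    rcases hq with ⟨m, hm, rfl⟩ | ⟨q', hq', rfl⟩
    · left
      refine ⟨(F.nil, m ^^^ n), ?_, ?_⟩
      · rw [hT X, opt_up]
        exact Or.inl ⟨m ^^^ n, (gX.m _).2 (c2 m ((vm_fl hT hg _).1 hm)), rfl⟩
      · show Eqv F.nil F.nil (m ^^^ n ^^^ m ^^^ n)
        have e : m ^^^ n ^^^ m ^^^ n = 0 := by
          simp only [Nat.xor_comm, Nat.xor_left_comm, Nat.xor_assoc, Nat.xor_self, xc, Nat.xor_zero]
        rw [e]
        exact Eqv.refl _
    · obtain ⟨r, hr, he⟩ := h1 q' hq'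
      rcases c6 r hr with (hc | ⟨hc, hc2⟩) | hc
      · left
        obtain ⟨p', hp', he2⟩ := gX.o2 _ hc
        refine ⟨(F.up p'.1, p'.2), ?_, ?_⟩
        · rw [hT X, opt_up]
          exact Or.inr ⟨p', hp', rfl⟩
        · have h3 := he.trans he2.symm
          have e : q'.2 ^^^ r.2 ^^^ (p'.2 ^^^ (r.2 ^^^ n)) = p'.2 ^^^ q'.2 ^^^ n := by
            simp only [Nat.xor_comm, Nat.xor_left_comm, Nat.xor_assoc, Nat.xor_self, xc, Nat.xor_zero]
          rw [e] at h3
          exact h3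
      · right
        left
        refine ⟨r.2, hc2, ?_⟩
        rw [← hc]
        show Eqv (F.up q'.1) (T r.1) (r.2 ^^^ q'.2)
        rw [Nat.xor_comm]
        exact he
      · right
        right
        have gr := I2 r.1 (h2 r hr).1
        obtain ⟨p', hp', he2⟩ := gr.o2 _ hc
        refine ⟨T r.1, q'.2 ^^^ r.2, he, (F.up p'.1, p'.2), ?_, ?_⟩
        · rw [hT r.1, opt_up]
          exact Or.inr ⟨p', hp', rfl⟩
        · have e : p'.2 ^^^ (r.2 ^^^ n) = p'.2 ^^^ q'.2 ^^^ (q'.2 ^^^ r.2) ^^^ n := by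
            simp only [Nat.xor_comm, Nat.xor_left_comm, Nat.xor_assoc, Nat.xor_self, xc, Nat.xor_zero]
          rw [e] at he2
          exact he2

private theorem new_good (hT : ∀ X, T X = F.up (fl T (cls X).rep))
    (I1 : ∀ e ∈ tbl, e.2.1 < k ∧ Eqv (F.up (fl T e.1)) (T e.2.1) e.2.2)
    (hg : ∀ c ∈ ch, GoodC cls T c) (hO : rO cls tbl ch = some O) {X : ℕ}
    (hval : gF (F.up (fl T ch)) = (cls X).a) (hchk : chkNew cls O ch X = true) :
    Eqv (F.up (fl T ch)) (T X) 0 ∧ GoodC cls T X := by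
  have h1 := rO1 hT I1 hg hO
  have h2 := rO2 hT I1 hg hO
  unfold chkNew at hchk
  simp only [Bool.and_eq_true, List.all_eq_true, beq_iff_eq, List.contains_iff_mem] at hchk
  obtain ⟨⟨⟨⟨⟨c1, c2⟩, c3⟩, c4⟩, c5⟩, c6⟩ := hchk
  have hTX : T X = F.up (fl T ch) := by rw [hT X, ← c1]
  refine ⟨?_, ?_, ?_, ?_, ?_, ?_⟩
  · rw [hTX]
    exact Eqv.refl _
  · rw [hTX, hval]
  · rw [← c1, gF_fl hg, c2]
  · intro m
    rw [← c1, vm_fl hT hg]
    exact ⟨fun h => c3 m h, fun h => c4 m h⟩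
  · intro q hq
    rw [← c1] at hq
    obtain ⟨r, hr, he⟩ := h1 q hq
    exact ⟨r, c5 r hr, he⟩
  · intro p hp
    rw [← c1]
    exact (h2 p (c6 p hp)).2

end resolved

private theorem table_aux {cls : ℕ → Dsc} {T : ℕ → F} (hT : ∀ X, T X = F.up (fl T (cls X).rep)) :
    ∀ (es tbl : List (List ℕ × ℕ × ℕ)) (k : ℕ),
      (∀ e ∈ tbl, e.2.1 < k ∧ Eqv (F.up (fl T e.1)) (T e.2.1) e.2.2) →
      (∀ X < k, GoodC cls T X) → chkT cls tbl k es = true →
      ∀ e ∈ es, Eqv (F.up (fl T e.1)) (T e.2.1) e.2.2 ∧ gF (T e.2.1) = (cls e.2.1).a := by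
  intro es
  induction es with
  | nil => intro tbl k _ _ _ e he; exact absurd he List.not_mem_nil
  | cons e0 es ih =>
    intro tbl k I1 I2 h
    rw [chkT] at h
    have main : ∃ k', chkT cls (e0 :: tbl) k' es = true ∧
        (∀ e ∈ e0 :: tbl, e.2.1 < k' ∧ Eqv (F.up (fl T e.1)) (T e.2.1) e.2.2) ∧
        (∀ X < k', GoodC cls T X) := by
      unfold chkE at h
      cases hO : rO cls tbl e0.1 with
      | none => rw [hO] at h; exact absurd h (by simp)
      | some O =>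
        rw [hO] at h
        simp only at h
        by_cases hc1 : (e0.1.all (fun c => decide (c < k)) &&
            mexB ((cls e0.2.1).a ^^^ e0.2.2) (mL cls e0.1 ++ O.map (fun r => (cls r.1).a ^^^ r.2))) = true
        · rw [if_pos hc1] at h
          rw [Bool.and_eq_true, List.all_eq_true] at hc1
          obtain ⟨hall, hmex⟩ := hc1
          have hg : ∀ c ∈ e0.1, GoodC cls T c := fun c hc => I2 c (of_decide_eq_true (hall c hc))
          have hval := mex_val hT I1 I2 hg hO hmex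
          by_cases hc2 : (decide (e0.2.1 < k) && chkOld cls O e0.1 e0.2.1 e0.2.2) = true
          · rw [if_pos hc2] at h
            rw [Bool.and_eq_true] at hc2
            have hX := of_decide_eq_true hc2.1
            refine ⟨k, h, ?_, I2⟩
            intro e he
            rcases List.mem_cons.1 he with rfl | he
            · exact ⟨hX, old_eqv hT I1 I2 hg hO hX hval hc2.2⟩
            · exact I1 e he
          · rw [if_neg hc2] at h
            by_cases hc3 : (e0.2.1 == k && e0.2.2 == 0 && chkNew cls O e0.1 e0.2.1) = true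
            · rw [if_pos hc3] at h
              rw [Bool.and_eq_true, Bool.and_eq_true, beq_iff_eq, beq_iff_eq] at hc3
              obtain ⟨⟨hk, h0⟩, hn⟩ := hc3
              rw [h0, Nat.xor_zero] at hval
              obtain ⟨n1, n2⟩ := new_good hT I1 hg hO hval hn
              refine ⟨k + 1, h, ?_, ?_⟩
              · intro e he
                rcases List.mem_cons.1 he with rfl | he
                · refine ⟨by omega, ?_⟩
                  rw [h0]
                  exact n1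
                · exact ⟨by have := (I1 e he).1; omega, (I1 e he).2⟩
              · intro X hX
                rcases Nat.lt_succ_iff_lt_or_eq.1 hX with hX | hX
                · exact I2 X hX
                · rw [hX, ← hk]
                  exact n2
            · rw [if_neg hc3] at h
              exact absurd h (by simp)
        · rw [if_neg hc1] at h
          exact absurd h (by simp)
    obtain ⟨k', h', J1, J2⟩ := main
    intro e he
    rcases List.mem_cons.1 he with rfl | he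
    · obtain ⟨hlt, hE⟩ := J1 e List.mem_cons_self
      exact ⟨hE, (J2 _ hlt).a⟩
    · exact ih _ k' J1 J2 h' e he

/-- soundness of the table -/
theorem table_sound {cls : ℕ → Dsc} {T : ℕ → F} (hT : ∀ X, T X = F.up (fl T (cls X).rep))
    {ents : List (List ℕ × ℕ × ℕ)} (h : chkT cls [] 0 ents = true) :
    ∀ e ∈ ents, Eqv (F.up (fl T e.1)) (T e.2.1) e.2.2 ∧ gF (T e.2.1) = (cls e.2.1).a := by
  exact table_aux hT ents [] 0 (fun e he => absurd he List.not_mem_nil)
    (fun X hX => absurd hX (Nat.not_lt_zero X)) h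

end Pool.Agent.CramNC
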