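import Pool.Agent.CramNC.Val
import Pool.Agent.CramNC.RealTr
import Pool.Agent.CramNC.Data

/-!
# The tiles

Plan.  For each tile write down the positioned forest `p : PF`, check `p.cells = tile` by
`decide` (or `decide +kernel`), `p.shape = (litX β).toF` by `rfl`/`decide`, `ok v p` by `decide +kernel`, and use
`PF.ok_real`.  With `l r = up r nil` (leaf), `n1 r x = up r (app x nil)`, `n2 r x y = up r (app x (app y nil))`:
 lit β: n2 (0,0) (n1 (0,1) (n1 (0,2) (l (1,2)))) (n1 (1,0) (n2 (2,0) (l (2,1)) path)) where path is the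
  path (3,0), ..., (7,0) [β = true] or (3,0), ..., (8,0) [β = false];
 inv: the same with path replaced by n1 (3,0) (n1 (4,0) (n1 (5,0) (n1 (6,0) (lit β moved by (7,0)))));
 nand: n2 (0,0) (n1 (0,1) (n2 (0,2) (l (1,2)) (n1 (0,3) (lit α moved by (0,4)))))
   (n1 (1,0) (n2 (2,0) (l (2,1)) (n1 (3,0) (n1 (4,0) (n1 (5,0) (n1 (6,0) (lit β moved by (7,0)))))))).
`Port v` gives two cases for `v`.
`g_handle_lit`: the handle is the path (-4,0), (-3,0), (-2,0), (-1,0): `up4X (litX β)` is realised by
`handleS ∪ litS β`, hanging at the (absent) cell (-5,0); `real_all`.1 and `gF_up4_lit`.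
-/

/-!
# The tiles

Plan.  For each tile write down the positioned forest `p : PF`, check `p.cells = tile` by
`decide` (or `decide +kernel`), `p.shape = (litX β).toF` by `rfl`/`decide`, `ok v p` by `decide +kernel`, and use
`PF.ok_real`.  With `l r = up r nil` (leaf), `n1 r x = up r (app x nil)`, `n2 r x y = up r (app x (app y nil))`:
 lit β: n2 (0,0) (n1 (0,1) (n1 (0,2) (l (1,2)))) (n1 (1,0) (n2 (2,0) (l (2,1)) path)) where path is the
  path (3,0), ..., (7,0) [β = true] or (3,0), ..., (8,0) [β = false];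
 inv: the same with path replaced by n1 (3,0) (n1 (4,0) (n1 (5,0) (n1 (6,0) (lit β moved by (7,0)))));
 nand: n2 (0,0) (n1 (0,1) (n2 (0,2) (l (1,2)) (n1 (0,3) (lit α moved by (0,4)))))
   (n1 (1,0) (n2 (2,0) (l (2,1)) (n1 (3,0) (n1 (4,0) (n1 (5,0) (n1 (6,0) (lit β moved by (7,0)))))))).
`Port v` gives two cases for `v`.
`g_handle_lit`: the handle is the path (-4,0), (-3,0), (-2,0), (-1,0): `up4X (litX β)` is realised by
`handleS ∪ litS β`, hanging at the (absent) cell (-5,0); `real_all`.1 and `gF_up4_lit`.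
-/

namespace Pool.Agent.CramNC

/-- the literal tile: `true` has 12 cells, `false` has 13 -/
def litS (β : Bool) : Finset Cell :=
  {(0, 0), (0, 1), (0, 2), (1, 2), (1, 0), (2, 0), (2, 1), (3, 0), (4, 0), (5, 0), (6, 0), (7, 0)} ∪
    (if β then ∅ else {(8, 0)})

/-- the inverter (wire) tile -/
def invS : Finset Cell :=
  {(0, 0), (0, 1), (0, 2), (1, 2), (1, 0), (2, 0), (2, 1), (3, 0), (4, 0), (5, 0), (6, 0)}

/-- the NAND tile -/
def gateS : Finset Cell :=
  {(0, 0), (0, 1), (0, 2), (1, 2), (0, 3), (1, 0), (2, 0), (2, 1), (3, 0), (4, 0), (5, 0), (6, 0)}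

/-- the two possible places of the cell at which a tile at the origin hangs -/
def Port (v : Cell) : Prop := v = (-1, 0) ∨ v = (0, -1)

/-- a leaf -/
private def lf (r : Cell) : PF := PF.up r PF.nil

/-- a vertex with one child -/
private def p1 (r : Cell) (x : PF) : PF := PF.up r (PF.app x PF.nil)

/-- a vertex with two children -/
private def p2 (r : Cell) (x y : PF) : PF := PF.up r (PF.app x (PF.app y PF.nil))

/-- the path of a literal, moved by `(a, b)` -/
private def pth (β : Bool) (a b : ℤ) : PF :=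
  p1 (a + 3, b) (p1 (a + 4, b) (p1 (a + 5, b) (p1 (a + 6, b)
    (if β then lf (a + 7, b) else p1 (a + 7, b) (lf (a + 8, b))))))

/-- the literal, moved by `(a, b)` -/
private def litP (β : Bool) (a b : ℤ) : PF :=
  p2 (a, b) (p1 (a, b + 1) (p1 (a, b + 2) (lf (a + 1, b + 2))))
    (p1 (a + 1, b) (p2 (a + 2, b) (lf (a + 2, b + 1)) (pth β a b)))

private def invP (β : Bool) : PF :=
  p2 (0, 0) (p1 (0, 1) (p1 (0, 2) (lf (1, 2))))
    (p1 (1, 0) (p2 (2, 0) (lf (2, 1)) (p1 (3, 0) (p1 (4, 0) (p1 (5, 0) (p1 (6, 0) (litP β 7 0)))))))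

private def nandP (α β : Bool) : PF :=
  p2 (0, 0) (p1 (0, 1) (p2 (0, 2) (lf (1, 2)) (p1 (0, 3) (litP α 0 4))))
    (p1 (1, 0) (p2 (2, 0) (lf (2, 1)) (p1 (3, 0) (p1 (4, 0) (p1 (5, 0) (p1 (6, 0) (litP β 7 0)))))))

private def hanP (β : Bool) : PF :=
  p1 (-4, 0) (p1 (-3, 0) (p1 (-2, 0) (p1 (-1, 0) (litP β 0 0))))

theorem real_lit (β : Bool) {v : Cell} (hv : Port v) : Real v (litS β) (litX β).toF := by
  have hc : ∀ β : Bool, (litP β 0 0).cells = litS β := by decide +kernel
  have hs : ∀ β : Bool, (litP β 0 0).shape = (litX β).toF := by decide +kernel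
  have hok : ∀ β : Bool, PF.ok (-1, 0) (litP β 0 0) ∧ PF.ok (0, -1) (litP β 0 0) := by decide +kernel
  rcases hv with rfl | rfl
  · have h := PF.ok_real (hok β).1
    rw [hc, hs] at h
    exact h
  · have h := PF.ok_real (hok β).2
    rw [hc, hs] at h
    exact h

theorem real_inv (β : Bool) {v : Cell} (hv : Port v) :
    Real v (invS ∪ at' (litS β) (7, 0)) (invX (litX β)).toF := by
  have hc : ∀ β : Bool, (invP β).cells = invS ∪ at' (litS β) (7, 0) := by decide +kernel
  have hs : ∀ β : Bool, (invP β).shape = (invX (litX β)).toF := by decide +kernel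
  have hok : ∀ β : Bool, PF.ok (-1, 0) (invP β) ∧ PF.ok (0, -1) (invP β) := by decide +kernel
  rcases hv with rfl | rfl
  · have h := PF.ok_real (hok β).1
    rw [hc, hs] at h
    exact h
  · have h := PF.ok_real (hok β).2
    rw [hc, hs] at h
    exact h

theorem real_nand (α β : Bool) {v : Cell} (hv : Port v) :
    Real v (gateS ∪ at' (litS α) (0, 4) ∪ at' (litS β) (7, 0)) (nandX (litX α) (litX β)).toF := by
  have hc : ∀ α β : Bool, (nandP α β).cells = gateS ∪ at' (litS α) (0, 4) ∪ at' (litS β) (7, 0) := by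
    decide +kernel
  have hs : ∀ α β : Bool, (nandP α β).shape = (nandX (litX α) (litX β)).toF := by decide +kernel
  have hok : ∀ α β : Bool, PF.ok (-1, 0) (nandP α β) ∧ PF.ok (0, -1) (nandP α β) := by
    decide +kernel
  rcases hv with rfl | rfl
  · have h := PF.ok_real (hok α β).1
    rw [hc, hs] at h
    exact h
  · have h := PF.ok_real (hok α β).2
    rw [hc, hs] at h
    exact h

/-- the handle: four cells in a row to which the root tile is attached -/
def handleS : Finset Cell := {(-1, 0), (-2, 0), (-3, 0), (-4, 0)}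

theorem g_handle_lit (β : Bool) : g (handleS ∪ litS β) = if β then 3 else 0 := by
  have hc : ∀ β : Bool, (hanP β).cells = handleS ∪ litS β := by decide +kernel
  have hs : ∀ β : Bool, (hanP β).shape = (up4X (litX β)).toF := by decide +kernel
  have hok : ∀ β : Bool, PF.ok (-5, 0) (hanP β) := by decide +kernel
  have h := PF.ok_real (hok β)
  rw [hc, hs] at h
  rw [(real_all _ _ _ h).1]
  exact gF_up4_lit β

end Pool.Agent.CramNC
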