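import Pool.Agent.CramNC.Real

/-!
# A set of cells containing `v` is a context

Plan.  `isCtx_val`: strong induction on `C.card`; `IsCtx.mk` with
stay = {(val v ((C.erase p).erase q), 0) | p, q ∈ C.erase v, Adj p q}, rem = {g ((C.erase v).erase q) | q ∈ C,
Adj v q}, alone = g (C.erase v), and `val_isMex` (`x ^^^ 0 = x`).
`g_val`: strong induction on `C.card + S.card` (all `f`), `IsMex.unique' (g_isMex (C ∪ S)) (val_isMex v C f)`:
a move `p, q` in `C ∪ S` is one of
 both in `C`, neither is `v`: `((C ∪ S).erase p).erase q = ((C.erase p).erase q) ∪ S`, IH (Att is inherited);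
 `v` and `q ∈ C`: `((C.erase v).erase q) ∪ S`, `g_union` (nobody in `C.erase v` is adjacent to `S`), `g S = gF f`
   (`real_all`.1);
 `v` and `s ∈ S`: `(C.erase v) ∪ (S.erase s)`, `g_union`, value `g (C.erase v) ^^^ m`, `m ∈ vm f` (`real_all`.2.1);
 both in `S`: `Split v S p q o`: `C ∪ S' ∪ S''`, `g_union` (with `S''`: not adjacent to `C`, nor `S'`), IH for
   `S'`, `o.1`: value `val v C o.1 ^^^ o.2` (`S'.card < S.card`);
 one in `C.erase v`, the other in `S`: impossible by Att.
(both directions; for `←` of the third and fourth disjunct use the `↔`/existence parts of `real_all`.)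
-/

namespace Pool.Agent.CramNC

/-- `S` is attached to the cells `C` only at `v` -/
def Att (v : Cell) (C S : Finset Cell) : Prop :=
  v ∈ C ∧ Disjoint C S ∧ ∀ c ∈ C, c ≠ v → ∀ s ∈ S, ¬ Adj c s

/-- value of the cells `C` with the (abstract) forest `f` hanging at `v` -/
noncomputable def val (v : Cell) (C : Finset Cell) (f : F) : ℕ :=
  mexL ((moves (C.erase v)).attach.toList.map
      (fun pq => val v ((C.erase pq.1.1).erase pq.1.2) f) ++
    (C.filter (fun q => Adj v q)).toList.map (fun q => g ((C.erase v).erase q) ^^^ gF f) ++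
    (vm f).map (fun m => g (C.erase v) ^^^ m) ++
    (opt f).attach.map (fun p => val v C p.1.1 ^^^ p.1.2))
termination_by C.card + F.w f
decreasing_by
  · have h0 := mem_moves.1 pq.2
    have h1 := Finset.card_erase_lt_of_mem (Finset.mem_of_mem_erase h0.1)
    have h2 := Finset.card_erase_le (s := C.erase pq.1.1) (a := pq.1.2)
    omega
  · have := w_opt p.2
    omega

theorem val_isMex (v : Cell) (C : Finset Cell) (f : F) : IsMex (val v C f) (fun x =>
    (∃ p ∈ C.erase v, ∃ q ∈ C.erase v, Adj p q ∧ x = val v ((C.erase p).erase q) f) ∨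
    (∃ q ∈ C, Adj v q ∧ x = g ((C.erase v).erase q) ^^^ gF f) ∨
    (∃ m ∈ vm f, x = g (C.erase v) ^^^ m) ∨
    (∃ p ∈ opt f, x = val v C p.1 ^^^ p.2)) := by
  rw [val]
  refine (mexL_isMex _).congr (fun x => ?_)
  simp only [List.mem_append, List.mem_map, Finset.mem_toList, Finset.mem_attach, true_and,
    Subtype.exists, List.mem_attach, Finset.mem_filter, or_assoc]
  refine or_congr ?_ (or_congr ?_ (or_congr ?_ ?_))
  · constructor
    · rintro ⟨pq, hpq, h⟩
      obtain ⟨h1, h2, h3⟩ := mem_moves.1 hpq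
      exact ⟨pq.1, h1, pq.2, h2, h3, h.symm⟩
    · rintro ⟨p, hp, q, hq, ha, h⟩
      exact ⟨(p, q), mem_moves.2 ⟨hp, hq, ha⟩, h.symm⟩
  · constructor
    · rintro ⟨q, ⟨h1, h2⟩, h⟩
      exact ⟨q, h1, h2, h.symm⟩
    · rintro ⟨q, h1, h2, h⟩
      exact ⟨q, ⟨h1, h2⟩, h.symm⟩
  · constructor
    · rintro ⟨m, hm, h⟩
      exact ⟨m, hm, h.symm⟩
    · rintro ⟨m, hm, h⟩
      exact ⟨m, hm, h.symm⟩
  · constructor
    · rintro ⟨p, hp, h⟩
      exact ⟨p, hp, h.symm⟩
    · rintro ⟨p, hp, h⟩
      exact ⟨p, hp, h.symm⟩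

private theorem card_two_lt {C : Finset Cell} {p q : Cell} (hp : p ∈ C) : ((C.erase p).erase q).card < C.card :=
  (Finset.card_erase_le).trans_lt (Finset.card_erase_lt_of_mem hp)

private theorem isCtx_val_aux (v : Cell) : ∀ (n : ℕ) (C : Finset Cell), C.card = n → IsCtx (val v C) := by
  intro n
  induction n using Nat.strong_induction_on with
  | _ n ih =>
    intro C hC
    refine IsCtx.mk _ {a | ∃ p ∈ C.erase v, ∃ q ∈ C.erase v, Adj p q ∧ a = (val v ((C.erase p).erase q), 0)}
      {r | ∃ q ∈ C, Adj v q ∧ r = g ((C.erase v).erase q)} (g (C.erase v)) ?_ ?_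
    · rintro _ ⟨p, hp, q, hq, hpq, rfl⟩
      exact ih _ (hC ▸ card_two_lt (Finset.mem_of_mem_erase hp)) _ rfl
    · intro f
      refine (val_isMex v C f).congr fun x => ?_
      refine or_congr ?_ (or_congr ?_ Iff.rfl)
      · constructor
        · rintro ⟨p, hp, q, hq, hpq, rfl⟩
          exact ⟨_, ⟨p, hp, q, hq, hpq, rfl⟩, by simp⟩
        · rintro ⟨_, ⟨p, hp, q, hq, hpq, rfl⟩, rfl⟩
          exact ⟨p, hp, q, hq, hpq, by simp⟩
      · constructor
        · rintro ⟨q, hq, hvq, rfl⟩
          exact ⟨_, ⟨q, hq, hvq, rfl⟩, rfl⟩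
        · rintro ⟨_, ⟨q, hq, hvq, rfl⟩, rfl⟩
          exact ⟨q, hq, hvq, rfl⟩

theorem isCtx_val (v : Cell) (C : Finset Cell) : IsCtx (val v C) :=
  isCtx_val_aux v _ C rfl

private theorem er_left {C S : Finset Cell} {p : Cell} (hp : p ∉ S) : (C ∪ S).erase p = C.erase p ∪ S := by
  rw [Finset.erase_union_distrib, Finset.erase_eq_of_notMem hp]

private theorem er_right {C S : Finset Cell} {p : Cell} (hp : p ∉ C) : (C ∪ S).erase p = C ∪ S.erase p := by
  rw [Finset.erase_union_distrib, Finset.erase_eq_of_notMem hp]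

private theorem Att.mono {v : Cell} {C S C' S' : Finset Cell} (h : Att v C S) (hC : C' ⊆ C) (hS : S' ⊆ S) (hv : v ∈ C') :
    Att v C' S' :=
  ⟨hv, Finset.disjoint_of_subset_left hC (Finset.disjoint_of_subset_right hS h.2.1),
    fun c hc hcv s hs => h.2.2 c (hC hc) hcv s (hS hs)⟩

private theorem g_val_aux (v : Cell) : ∀ (n : ℕ) (C S : Finset Cell) (f : F), C.card + S.card = n → Real v S f → Att v C S →
    g (C ∪ S) = val v C f := by
  intro n
  induction n using Nat.strong_induction_on with
  | _ n ih =>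
    intro C S f hn hr ha
    obtain ⟨hg, hvm, ho1, ho2⟩ := real_all f v S hr
    have hCS : ∀ c ∈ C, c ∉ S := fun c hc hs => (Finset.disjoint_left.1 ha.2.1) hc hs
    have hSC : ∀ s ∈ S, s ∉ C := fun s hs hc => (Finset.disjoint_left.1 ha.2.1) hc hs
    have hvC : v ∈ C := ha.1
    -- both cells in `C`, none is `v`
    have A1 : ∀ p ∈ C.erase v, ∀ q ∈ C.erase v, g (((C ∪ S).erase p).erase q) = val v ((C.erase p).erase q) f := by
      intro p hp q hq
      obtain ⟨hpv, hpC⟩ := Finset.mem_erase.1 hp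
      obtain ⟨hqv, hqC⟩ := Finset.mem_erase.1 hq
      rw [er_left (hCS p hpC), er_left (hCS q hqC)]
      refine ih _ ?_ _ _ _ rfl hr (ha.mono ?_ (Finset.Subset.refl _) ?_)
      · have := card_two_lt (q := q) hpC
        omega
      · exact (Finset.erase_subset _ _).trans (Finset.erase_subset _ _)
      · exact Finset.mem_erase.2 ⟨Ne.symm hqv, Finset.mem_erase.2 ⟨Ne.symm hpv, hvC⟩⟩
    -- `v` and a cell of `C`
    have A2 : ∀ q ∈ C, g (((C ∪ S).erase v).erase q) = g ((C.erase v).erase q) ^^^ gF f := by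
      intro q hq
      rw [er_left (hCS v hvC), er_left (hCS q hq), g_union, hg]
      · refine Finset.disjoint_of_subset_left ?_ ha.2.1
        exact (Finset.erase_subset _ _).trans (Finset.erase_subset _ _)
      · intro a haa b hb
        have h1 := Finset.mem_of_mem_erase haa
        exact ha.2.2 a (Finset.mem_of_mem_erase h1) (Finset.ne_of_mem_erase h1) b hb
    -- `v` and a cell of `S`
    have A3 : ∀ s ∈ S, g (((C ∪ S).erase v).erase s) = g (C.erase v) ^^^ g (S.erase s) := by
      intro s hs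
      rw [er_left (hCS v hvC), er_right (fun h => hSC s hs (Finset.mem_of_mem_erase h)), g_union]
      · exact Finset.disjoint_of_subset_left (Finset.erase_subset _ _)
          (Finset.disjoint_of_subset_right (Finset.erase_subset _ _) ha.2.1)
      · intro a haa b hb
        exact ha.2.2 a (Finset.mem_of_mem_erase haa) (Finset.ne_of_mem_erase haa) b (Finset.mem_of_mem_erase hb)
    -- two cells of `S`
    have A4 : ∀ p ∈ S, ∀ q ∈ S, ∀ o : F × ℕ, Split v S p q o → g (((C ∪ S).erase p).erase q) = val v C o.1 ^^^ o.2 := by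
      rintro p hp q hq o ⟨S', S'', he, hd, hn', hv'', hR, ho⟩
      have hsub : S' ∪ S'' ⊆ S := by
        rw [← he]
        exact (Finset.erase_subset _ _).trans (Finset.erase_subset _ _)
      have hS' : S' ⊆ S := Finset.subset_union_left.trans hsub
      have hS'' : S'' ⊆ S := Finset.subset_union_right.trans hsub
      have hcard : S'.card < S.card := by
        have h1 : S'.card ≤ (S' ∪ S'').card := Finset.card_le_card Finset.subset_union_left
        rw [← he] at h1
        exact h1.trans_lt (card_two_lt hp)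
      rw [er_right (hSC p hp), er_right (hSC q hq), he, ← Finset.union_assoc, g_union, ho]
      · congr 1
        exact ih _ (by omega) _ _ _ rfl hR (ha.mono (Finset.Subset.refl _) hS' hvC)
      · rw [Finset.disjoint_union_left]
        exact ⟨Finset.disjoint_of_subset_right hS'' ha.2.1, hd⟩
      · intro a haa b hb
        rcases Finset.mem_union.1 haa with h1 | h1
        · by_cases hav : a = v
          · rw [hav]
            exact hv'' b hb
          · exact ha.2.2 a h1 hav b (hS'' hb)
        · exact hn' a h1 b hb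
    refine (g_isMex (C ∪ S)).unique' (val_isMex v C f) fun x => ?_
    constructor
    · rintro ⟨p, hp, q, hq, hpq, rfl⟩
      rcases Finset.mem_union.1 hp with hpC | hpS
      · rcases Finset.mem_union.1 hq with hqC | hqS
        · by_cases hpv : p = v
          · subst hpv
            exact Or.inr (Or.inl ⟨q, hqC, hpq, A2 q hqC⟩)
          · by_cases hqv : q = v
            · subst hqv
              refine Or.inr (Or.inl ⟨p, hpC, hpq.symm, ?_⟩)
              rw [Finset.erase_right_comm, A2 p hpC]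
            · have h1 := Finset.mem_erase.2 ⟨hpv, hpC⟩
              have h2 := Finset.mem_erase.2 ⟨hqv, hqC⟩
              exact Or.inl ⟨p, h1, q, h2, hpq, A1 p h1 q h2⟩
        · by_cases hpv : p = v
          · subst hpv
            refine Or.inr (Or.inr (Or.inl ⟨g (S.erase q), (hvm _).2 ⟨q, hqS, hpq, rfl⟩, A3 q hqS⟩))
          · exact absurd hpq (ha.2.2 p hpC hpv q hqS)
      · rcases Finset.mem_union.1 hq with hqC | hqS
        · by_cases hqv : q = v
          · subst hqv
            refine Or.inr (Or.inr (Or.inl ⟨g (S.erase p), (hvm _).2 ⟨p, hpS, hpq.symm, rfl⟩, ?_⟩))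
            rw [Finset.erase_right_comm, A3 p hpS]
          · exact absurd hpq.symm (ha.2.2 q hqC hqv p hpS)
        · obtain ⟨o, ho, hs⟩ := ho1 p hpS q hqS hpq
          exact Or.inr (Or.inr (Or.inr ⟨o, ho, A4 p hpS q hqS o hs⟩))
    · rintro (⟨p, hp, q, hq, hpq, rfl⟩ | ⟨q, hq, hvq, rfl⟩ | ⟨m, hm, rfl⟩ | ⟨o, ho, rfl⟩)
      · exact ⟨p, Finset.mem_union_left _ (Finset.mem_of_mem_erase hp), q, Finset.mem_union_left _ (Finset.mem_of_mem_erase hq),
          hpq, (A1 p hp q hq).symm⟩
      · exact ⟨v, Finset.mem_union_left _ hvC, q, Finset.mem_union_left _ hq, hvq, (A2 q hq).symm⟩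
      · obtain ⟨s, hs, hvs, rfl⟩ := (hvm m).1 hm
        exact ⟨v, Finset.mem_union_left _ hvC, s, Finset.mem_union_right _ hs, hvs, (A3 s hs).symm⟩
      · obtain ⟨p, hp, q, hq, hpq, hs⟩ := ho2 o ho
        exact ⟨p, Finset.mem_union_right _ hp, q, Finset.mem_union_right _ hq, hpq, (A4 p hp q hq o hs).symm⟩

theorem g_val {v : Cell} {C S : Finset Cell} {f : F} (hr : Real v S f) (ha : Att v C S) :
    g (C ∪ S) = val v C f :=
  g_val_aux v _ C S f rfl hr ha

theorem swap {f f' : F} {n : ℕ} (h : Eqv f f' n) {v : Cell} {C S S' : Finset Cell}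
    (hr : Real v S f) (hr' : Real v S' f') (ha : Att v C S) (ha' : Att v C S') :
    g (C ∪ S) = g (C ∪ S') ^^^ n := by
  rw [g_val hr ha, g_val hr' ha']
  exact h.2 _ (isCtx_val v C)

end Pool.Agent.CramNC
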